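import Pool.Agent.R344.TH.B
import Pool.Agent.H499R2.NDLimit

/-! Sets invariant above a level, part A: equidistribution mod 3 and the harmonic relation. -/

set_option autoImplicit false

namespace Pool.Agent.R344.FP

open Finset
open Pool.Agent.H320R2.PD Pool.Agent.H499R2.ND
open Pool.Agent.H499R2.CO (Tz)
open Pool.Agent.R344.TH

/-- invariance above the level `Y` -/
def InvA (d : ℤ) (Y : ℝ) (S : Set ℤ) : Prop := ∀ x : ℤ, Y ≤ (x : ℝ) → (x ∈ S ↔ Tz d x ∈ S)

theorem InvA.compl {d : ℤ} {Y : ℝ} {S : Set ℤ} (h : InvA d Y S) : InvA d Y Sᶜ :=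
  fun x hx => not_congr (h x hx)

theorem InvA.two {d : ℤ} {Y : ℝ} {S : Set ℤ} (h : InvA d Y S) {x : ℤ} (hx : Y ≤ 2 * (x : ℝ)) :
    2 * x ∈ S ↔ x ∈ S := by
  rw [h (2 * x) (by push_cast; exact hx)]
  have := Tz_even (d := d) (y := 2 * x) (by omega)
  rw [show Tz d (2 * x) = x by omega]

theorem InvA.two_pow {d : ℤ} {Y : ℝ} (hY : 0 ≤ Y) {S : Set ℤ} (h : InvA d Y S) {x : ℤ} (hx : Y ≤ (x : ℝ)) :
    ∀ e : ℕ, 2 ^ e * x ∈ S ↔ x ∈ S
  | 0 => by simp
  | e + 1 => by
    rw [pow_succ, mul_comm ((2 : ℤ) ^ e) 2, mul_assoc, h.two, h.two_pow hY hx e]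
    push_cast
    have : (1 : ℝ) ≤ 2 ^ e := one_le_pow₀ (by norm_num)
    have h2 : Y ≤ 2 ^ e * (x : ℝ) := hx.trans (le_mul_of_one_le_left (hY.trans hx) this)
    linarith

theorem InvA.odd {d : ℤ} {Y : ℝ} {S : Set ℤ} (hd : Odd d) (h : InvA d Y S) {n n' : ℤ} (hn : Odd n)
    (hY : Y ≤ (n : ℝ)) (hnn : 2 * n' = 3 * n + d) : n ∈ S ↔ n' ∈ S := by
  rw [h n hY]
  have h1 := Tz_odd (d := d) (y := n) (Int.odd_iff.1 hd) (by have := Int.odd_iff.1 hn; omega)
  rw [show Tz d n = n' by omega]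

theorem InvA.fwd {d : ℤ} {Y : ℝ} (hY : 0 ≤ Y) {S : Set ℤ} (hd : Odd d) (h : InvA d Y S) : FwdA d Y S := by
  intro M x e he hM _ hMY hxY hMS heq
  obtain ⟨e', rfl⟩ : ∃ e', e = e' + 1 := ⟨e - 1, by omega⟩
  have h1 : M ∈ S ↔ 2 ^ e' * x ∈ S := h.odd hd hM hMY (by rw [heq, pow_succ]; ring)
  rw [h.two_pow hY hxY] at h1
  exact h1.1 hMS

theorem Err_anti (d : ℤ) {A A' : ℝ} (hA' : 0 < A') (h : A' ≤ A) (k m m' : ℕ) :
    Err d A k m m' ≤ Err d A' k m m' := by
  unfold Err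
  have hA : 0 < A := by linarith
  have h1 : (2 * 3 ^ m / A : ℝ) ≤ 2 * 3 ^ m / A' := div_le_div_of_nonneg_left (by positivity) hA' h
  have hδnn : 0 ≤ ∑ T ∈ range (k * (3 * k) + 1), dev (FWT (3 * k) k T) wwt (fun w => (Wo w : ℤ)) (k + m) m' :=
    sum_nonneg fun _ _ => sum_nonneg fun _ _ => abs_nonneg _
  have hd0 : 0 ≤ |(d : ℝ)| := abs_nonneg _
  have h2 : (1 + 2 ^ (41 * k / 20) * (2 * 3 ^ m / A) : ℝ) ≤ 1 + 2 ^ (41 * k / 20) * (2 * 3 ^ m / A') := by
    have := mul_le_mul_of_nonneg_left h1 (by positivity : (0 : ℝ) ≤ 2 ^ (41 * k / 20))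
    linarith
  have h3 := mul_le_mul_of_nonneg_right h2 hδnn
  have h4 := mul_le_mul_of_nonneg_left h1
    (by positivity : (0 : ℝ) ≤ 1 + (|(d : ℝ)| + 2) * 2 ^ (41 * k / 20))
  linarith

theorem starA {d : ℤ} (hd : Odd d) (hd3 : IsCoprime d 3) {S : Set ℤ} {Z : ℝ} (hZ : |(d : ℝ)| ≤ Z)
    (hS : FwdA d Z S) {A : ℝ} (hA : 0 < A) {k m m' : ℕ} (hk : 1 ≤ k) (hm' : m' ≤ k)
    (hAZ : 2 ^ (41 * k / 20) * Z ≤ A) (c : ℤ) :
    ((cls S A (2 * A) m 1 c).card : ℝ) ≤ Mn d S A k m m' + Err d A k m m' * (A / (2 * 3 ^ m)) := by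
  have hZ0 : 0 ≤ Z := (abs_nonneg _).trans hZ
  have hTm : 41 * k / 20 ≤ k * (3 * k) := by nlinarith [Nat.div_mul_le_self (41 * k) 20]
  have h1 := starG hd hd3 (S := S) (fun _ => S) hA.le (3 * k) k m m' ((39 * k + 19) / 20) (41 * k / 20)
    (by
      intro w hw M x hM hx hAM _ hMS hV
      unfold GW at hw
      rw [mem_filter] at hw
      apply path_memA hd hZ hS w (FW_props hw.1).2 M x hM hx _ hMS hV
      refine le_trans ?_ hAM
      refine le_trans ?_ hAZ
      apply mul_le_mul_of_nonneg_right _ hZ0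
      exact pow_le_pow_right₀ (by norm_num) hw.2.2) hk hm' hTm c
  refine h1.trans (le_of_eq ?_)
  unfold Mn Err
  set G := GW (3 * k) k ((39 * k + 19) / 20) (41 * k / 20) with hG
  set δ := ∑ T ∈ range (k * (3 * k) + 1), dev (FWT (3 * k) k T) wwt (fun w => (Wo w : ℤ)) (k + m) m'
  set X := (2 : ℝ) ^ (41 * k / 20)
  set Y := A / (2 * 3 ^ m) with hY
  set Z' := 2 * 3 ^ m / A with hZ'
  set μ := ∑ w ∈ G, wwt w
  have hfac : Y * Z' = 1 := by rw [hY, hZ']; field_simp
  have : ((1 + X * Z') * δ + (1 - μ) + (1 + (|(d : ℝ)| + 2) * X) * Z') * Y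
      = (Y + X * (Y * Z')) * δ + Y * (1 - μ) + (1 + (|(d : ℝ)| + 2) * X) * (Y * Z') := by ring
  rw [this, hfac]
  ring

/-- equidistribution of the odd elements in the classes mod `3^m` -/
theorem equiA (B : ℕ) {d : ℤ} (hd : Odd d) (hd3 : IsCoprime d 3) : ∃ C : ℝ, 0 < C ∧
    ∀ (Z : ℝ), |(d : ℝ)| ≤ Z → 1 ≤ Z → ∀ S : Set ℤ, FwdA d Z S → FwdA d Z Sᶜ → ∀ A : ℝ, 0 < A →
      1000 ≤ Real.log (A / Z) → ∀ m : ℕ, (m : ℝ) ^ 2 ≤ Real.log (A / Z) → ∀ c c' : ℤ,
      ((cls S A (2 * A) m 1 c).card : ℝ)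
        ≤ (cls S A (2 * A) m 1 c').card + C / (Real.log (A / Z)) ^ B * (A / (2 * 3 ^ m)) := by
  obtain ⟨C, hC, herr⟩ := err_bound B d
  refine ⟨3 * C, by positivity, ?_⟩
  intro Z hZ hZ1 S hS hSc A hA ht m hm c c'
  set t := Real.log (A / Z) with htdef
  have hZ0 : 0 < Z := by linarith
  have hAZ0 : 0 < A / Z := by positivity
  have hexp : Real.exp t = A / Z := Real.exp_log hAZ0
  obtain ⟨k, hk⟩ : ∃ k : ℕ, k = ⌊t / 2⌋₊ := ⟨_, rfl⟩
  obtain ⟨m', hm'⟩ : ∃ m' : ℕ, m' = ⌊Real.sqrt (0.8 * t)⌋₊ := ⟨_, rfl⟩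
  have hk1 : (k : ℝ) ≤ t / 2 := by rw [hk]; exact Nat.floor_le (by linarith)
  have hk2 : t / 2 - 1 ≤ k := by rw [hk]; linarith [Nat.lt_floor_add_one (t / 2)]
  have hk1N : 1 ≤ k := by
    have : (1 : ℝ) ≤ k := by linarith
    exact_mod_cast this
  have hm'sq : (m' : ℝ) ^ 2 ≤ 0.8 * t := by
    have h1 : (m' : ℝ) ≤ Real.sqrt (0.8 * t) := by
      rw [hm']; exact Nat.floor_le (Real.sqrt_nonneg _)
    calc (m' : ℝ) ^ 2 ≤ (Real.sqrt (0.8 * t)) ^ 2 :=
          pow_le_pow_left₀ (Nat.cast_nonneg _) h1 2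
      _ = 0.8 * t := Real.sq_sqrt (by linarith)
  have hm'k : m' ≤ k := by
    have : (m' : ℝ) ≤ k := by
      have h0 : (0 : ℝ) ≤ m' := Nat.cast_nonneg _
      by_contra hcon
      push Not at hcon
      nlinarith
    exact_mod_cast this
  have hE0 := herr (A / Z) hAZ0 ht k m m' hm hk hm'
  rw [← htdef] at hE0
  have hE : Err d A k m m' ≤ C / t ^ B :=
    (Err_anti d hAZ0 (div_le_self hA.le hZ1) k m m').trans hE0
  have hpath : (2 : ℝ) ^ (41 * k / 20) * Z ≤ A := by
    have h1 := pow_tm_le (t := t) (by linarith) hk1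
    have h2 : (2 : ℝ) ^ (41 * k / 20) ≤ Real.exp t := by
      refine h1.trans (Real.exp_le_exp.2 ?_)
      linarith
    rw [hexp] at h2
    rwa [le_div_iff₀ hZ0] at h2
  have hY : 0 < A / (2 * 3 ^ m) := by positivity
  have h1 := starA hd hd3 hZ hS hA hk1N hm'k (m := m) hpath c
  have h2 := starA hd hd3 hZ hSc hA hk1N hm'k (m := m) hpath c'
  have h3 := Mn_add d S hA (m := m) hm'k
  have h4 := cls_compl S A (2 * A) m 1 c'
  have h5 := le_cls_univ A (2 * A) m isCoprime_one_left c'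
  rw [show 2 * A - A = A by ring] at h5
  have h6 : 1 + 2 ^ (41 * k / 20) ≤ Err d A k m m' * (A / (2 * 3 ^ m)) := by
    unfold Err
    set G := GW (3 * k) k ((39 * k + 19) / 20) (41 * k / 20) with hG
    set δ := ∑ T ∈ range (k * (3 * k) + 1), dev (FWT (3 * k) k T) wwt (fun w => (Wo w : ℤ)) (k + m) m'
      with hδ
    set X := (2 : ℝ) ^ (41 * k / 20)
    set Y := A / (2 * 3 ^ m) with hYdef
    set Z' := 2 * 3 ^ m / A with hZ'
    set μ := ∑ w ∈ G, wwt w with hμ
    have hfac : Y * Z' = 1 := by rw [hYdef, hZ']; field_simp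
    have : ((1 + X * Z') * δ + (1 - μ) + (1 + (|(d : ℝ)| + 2) * X) * Z') * Y
        = (Y + X * (Y * Z')) * δ + Y * (1 - μ) + (1 + (|(d : ℝ)| + 2) * X) * (Y * Z') := by ring
    rw [this, hfac]
    have hX : 0 < X := by positivity
    have hδnn : 0 ≤ δ := sum_nonneg fun _ _ => sum_nonneg fun _ _ => abs_nonneg _
    have hμ1 : μ ≤ 1 := by
      refine le_trans ?_ (sum_wwt_le (3 * k) k)
      rw [hμ, hG]; unfold GW
      apply sum_le_sum_of_subset_of_nonneg (filter_subset _ _)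
      intro w _ _; unfold wwt; positivity
    have e1 : 0 ≤ (Y + X * 1) * δ := by positivity
    have e2 : 0 ≤ Y * (1 - μ) := mul_nonneg hY.le (by linarith)
    have e3 : 0 ≤ |(d : ℝ)| * X := by positivity
    nlinarith
  have h7 : Err d A k m m' * (A / (2 * 3 ^ m)) ≤ C / t ^ B * (A / (2 * 3 ^ m)) :=
    mul_le_mul_of_nonneg_right hE hY.le
  have h8 : 3 * C / t ^ B * (A / (2 * 3 ^ m)) = 3 * (C / t ^ B * (A / (2 * 3 ^ m))) := by ring
  rw [h8]
  linarith

/-- parity decomposition -/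
theorem wcA_parity {d : ℤ} {Y : ℝ} {S : Set ℤ} (h : InvA d Y S) {A : ℝ} (hA : Y ≤ A) (c : ℤ) :
    (wc S A (2 * A) 3 c).card = (cls S A (2 * A) 1 1 c).card + (wc S (A / 2) (2 * (A / 2)) 3 (2 * c)).card := by
  classical
  have hev : (wc S (A / 2) (2 * (A / 2)) 3 (2 * c)).card
      = ((wc S (A / 2) (2 * (A / 2)) 3 (2 * c)).image fun x => 2 * x).card := by
    rw [card_image_of_injective]
    intro x y hxy
    simp only at hxy
    omega
  rw [hev, ← card_union_of_disjoint]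
  · congr 1
    ext x
    rw [mem_wc, mem_union, mem_cls, mem_image]
    constructor
    · rintro ⟨h1, h2, h3⟩
      rcases Int.even_or_odd x with he | ho
      · right
        obtain ⟨y, hy⟩ := he
        refine ⟨y, ?_, by omega⟩
        rw [mem_wc]
        have hxy : (x : ℝ) = 2 * y := by rw [hy]; push_cast; ring
        refine ⟨⟨by linarith [h1.1], by linarith [h1.2]⟩, ?_, by omega⟩
        rw [← h.two (by linarith [h1.1]), show 2 * y = x by omega]; exact h2
      · left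
        exact ⟨h1, ho, h2, by rw [pow_one, one_mul]; exact h3⟩
    · rintro (⟨h1, h2, h3, h4⟩ | ⟨y, hy, rfl⟩)
      · rw [pow_one, one_mul] at h4; exact ⟨h1, h3, h4⟩
      · rw [mem_wc] at hy
        obtain ⟨h1, h2, h3⟩ := hy
        push_cast
        refine ⟨⟨by linarith [h1.1], by linarith [h1.2]⟩, (h.two (by linarith [h1.1])).2 h2, by omega⟩
  · rw [Finset.disjoint_left]
    intro x hx hx'
    rw [mem_cls] at hx
    rw [mem_image] at hx'
    obtain ⟨y, _, rfl⟩ := hx'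
    have := hx.2.1
    rw [Int.odd_iff] at this
    omega

/-- parity decomposition, all classes -/
theorem wcA_parity_one {d : ℤ} {Y : ℝ} {S : Set ℤ} (h : InvA d Y S) {A : ℝ} (hA : Y ≤ A) :
    (wc S A (2 * A) 1 0).card = (cls S A (2 * A) 0 1 0).card + (wc S (A / 2) (2 * (A / 2)) 1 0).card := by
  classical
  have hev : (wc S (A / 2) (2 * (A / 2)) 1 0).card
      = ((wc S (A / 2) (2 * (A / 2)) 1 0).image fun x => 2 * x).card := by
    rw [card_image_of_injective]
    intro x y hxy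
    simp only at hxy
    omega
  rw [hev, ← card_union_of_disjoint]
  · congr 1
    ext x
    rw [mem_wc, mem_union, mem_cls, mem_image]
    constructor
    · rintro ⟨h1, h2, h3⟩
      rcases Int.even_or_odd x with he | ho
      · right
        obtain ⟨y, hy⟩ := he
        refine ⟨y, ?_, by omega⟩
        rw [mem_wc]
        have hxy : (x : ℝ) = 2 * y := by rw [hy]; push_cast; ring
        refine ⟨⟨by linarith [h1.1], by linarith [h1.2]⟩, ?_, one_dvd _⟩
        rw [← h.two (by linarith [h1.1]), show 2 * y = x by omega]; exact h2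
      · left
        exact ⟨h1, ho, h2, by simp⟩
    · rintro (⟨h1, h2, h3, h4⟩ | ⟨y, hy, rfl⟩)
      · exact ⟨h1, h3, one_dvd _⟩
      · rw [mem_wc] at hy
        obtain ⟨h1, h2, h3⟩ := hy
        push_cast
        refine ⟨⟨by linarith [h1.1], by linarith [h1.2]⟩, (h.two (by linarith [h1.1])).2 h2, one_dvd _⟩
  · rw [Finset.disjoint_left]
    intro x hx hx'
    rw [mem_cls] at hx
    rw [mem_image] at hx'
    obtain ⟨y, _, rfl⟩ := hx'
    have := hx.2.1
    rw [Int.odd_iff] at this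
    omega

/-- the odd elements of a window and their images -/
theorem clsA_odd_image {d : ℤ} (hd : Odd d) {Y : ℝ} {S : Set ℤ} (h : InvA d Y S) {A : ℝ} (hA : Y ≤ A) :
    (cls S A (2 * A) 0 1 0).card
      = (wc S (3 * A / 2 + d / 2) (2 * (3 * A / 2) + d / 2) 3 (2 * d)).card := by
  classical
  apply card_bij (fun n _ => (3 * n + d) / 2)
  · intro n hn
    rw [mem_cls] at hn
    obtain ⟨h1, h2, h3, _⟩ := hn
    have hev : 2 * ((3 * n + d) / 2) = 3 * n + d := by
      obtain ⟨t, ht⟩ := h2; obtain ⟨s, hs⟩ := hd; omega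
    have hR : (2 : ℝ) * (((3 * n + d) / 2 : ℤ) : ℝ) = 3 * n + d := by exact_mod_cast hev
    rw [mem_wc]
    refine ⟨⟨by linarith [h1.1], by linarith [h1.2]⟩, (h.odd hd h2 (hA.trans h1.1) hev).1 h3, ?_⟩
    exact ⟨2 * n - ((3 * n + d) / 2), by omega⟩
  · intro n hn n' hn' heq
    rw [mem_cls] at hn hn'
    have hev : 2 * ((3 * n + d) / 2) = 3 * n + d := by
      obtain ⟨t, ht⟩ := hn.2.1; obtain ⟨s, hs⟩ := hd; omega
    have hev' : 2 * ((3 * n' + d) / 2) = 3 * n' + d := by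
      obtain ⟨t, ht⟩ := hn'.2.1; obtain ⟨s, hs⟩ := hd; omega
    omega
  · intro x hx
    rw [mem_wc] at hx
    obtain ⟨h1, h2, t, ht⟩ := hx
    have hn : 2 * x = 3 * (2 * t + d) + d := by omega
    have hodd : Odd (2 * t + d) := (even_two_mul t).add_odd hd
    have hR : (2 : ℝ) * x = 3 * ((2 * t + d : ℤ) : ℝ) + d := by exact_mod_cast hn
    have hlow : A ≤ ((2 * t + d : ℤ) : ℝ) := by linarith [h1.1]
    refine ⟨2 * t + d, ?_, ?_⟩
    · rw [mem_cls]
      refine ⟨⟨hlow, by linarith [h1.2]⟩, hodd, (h.odd hd hodd (hA.trans hlow) hn).2 h2, by simp⟩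
    · omega

/-- equidistribution mod 3 -/
theorem equiA_all {d : ℤ} (hd : Odd d) (hd3 : IsCoprime d 3) : ∃ K : ℝ, 0 < K ∧
    ∀ Z : ℝ, |(d : ℝ)| ≤ Z → 1 ≤ Z → ∀ S : Set ℤ, InvA d Z S → ∀ A : ℝ, 0 < A →
      1001 ≤ Real.log (A / Z) → ∀ c c' : ℤ,
      ((wc S A (2 * A) 3 c).card : ℝ)
        ≤ (wc S A (2 * A) 3 c').card + K / (Real.log (A / Z)) ^ 2 * A := by
  obtain ⟨C, hC, he⟩ := equiA 2 hd hd3
  refine ⟨C + 2 * 1002 ^ 2, by positivity, ?_⟩
  intro Z hZd hZ1 S hS
  have hZ0 : 0 < Z := by linarith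
  have hl2 := Real.log_two_gt_d9
  have hl2' := Real.log_two_lt_d9
  set K := C + 2 * 1002 ^ 2 with hK
  have hKpos : 0 < K := by positivity
  have hbig : ∀ A : ℝ, 0 < A → 1 ≤ Real.log (A / Z) → Z ≤ A := by
    intro A hA h1
    have h2 : Real.exp (Real.log (A / Z)) = A / Z := Real.exp_log (by positivity)
    have h3 := Real.add_one_le_exp (Real.log (A / Z))
    rw [h2] at h3
    have h4 : 1 ≤ A / Z := by linarith
    rwa [le_div_iff₀ hZ0, one_mul] at h4
  have htriv : ∀ A : ℝ, 0 < A → 1001 ≤ Real.log (A / Z) → Real.log (A / Z) ≤ 1002 → ∀ c c' : ℤ,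
      ((wc S A (2 * A) 3 c).card : ℝ)
        ≤ (wc S A (2 * A) 3 c').card + K / (Real.log (A / Z)) ^ 2 * A := by
    intro A hA h1 h2 c c'
    have h3 := wc_card_le S (by linarith : A ≤ 2 * A) (q := 3) (by norm_num) c
    have h4 : 1 ≤ A := hZ1.trans (hbig A hA (by linarith))
    have h5 : 2 ≤ K / (Real.log (A / Z)) ^ 2 := by
      rw [le_div_iff₀ (by have : 0 < Real.log (A / Z) := by linarith
                          positivity)]
      have : (Real.log (A / Z)) ^ 2 ≤ 1002 ^ 2 := pow_le_pow_left₀ (by linarith) h2 2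
      rw [hK]; linarith
    have h6 : 2 * A ≤ K / (Real.log (A / Z)) ^ 2 * A := mul_le_mul_of_nonneg_right h5 hA.le
    have h7 : (0 : ℝ) ≤ (wc S A (2 * A) 3 c').card := Nat.cast_nonneg _
    push_cast at h3
    have h8 : (2 * A - A) / 3 + 1 ≤ 2 * A := by linarith
    linarith
  have main : ∀ n : ℕ, ∀ A : ℝ, 0 < A → 1001 ≤ Real.log (A / Z) → Real.log (A / Z) ≤ 1002 + n * Real.log 2 →
      ∀ c c' : ℤ, ((wc S A (2 * A) 3 c).card : ℝ)
        ≤ (wc S A (2 * A) 3 c').card + K / (Real.log (A / Z)) ^ 2 * A := by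
    intro n
    induction n with
    | zero =>
      intro A hA h1 h2 c c'
      exact htriv A hA h1 (by simpa using h2) c c'
    | succ n ih =>
      intro A hA h1 h2 c c'
      rcases le_or_gt (Real.log (A / Z)) 1002 with h3 | h3
      · exact htriv A hA h1 h3 c c'
      · have hlog : Real.log (A / 2 / Z) = Real.log (A / Z) - Real.log 2 := by
          rw [div_right_comm]
          exact Real.log_div (by positivity) (by norm_num)
        have hih := ih (A / 2) (by linarith) (by rw [hlog]; linarith) (by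
          rw [hlog]; push_cast at h2; linarith) (2 * c) (2 * c')
        have hodd := he Z hZd hZ1 S (hS.fwd hZ0.le hd) (hS.compl.fwd hZ0.le hd) A hA (by linarith) 1 (by
          norm_num; linarith) c c'
        have hAZ := hbig A hA (by linarith)
        have e1 := wcA_parity hS hAZ c
        have e2 := wcA_parity hS hAZ c'
        have e1' : ((wc S A (2 * A) 3 c).card : ℝ)
            = (cls S A (2 * A) 1 1 c).card + (wc S (A / 2) (2 * (A / 2)) 3 (2 * c)).card := by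
          exact_mod_cast e1
        have e2' : ((wc S A (2 * A) 3 c').card : ℝ)
            = (cls S A (2 * A) 1 1 c').card + (wc S (A / 2) (2 * (A / 2)) 3 (2 * c')).card := by
          exact_mod_cast e2
        rw [e1', e2']
        rw [hlog] at hih
        set t := Real.log (A / Z) with ht
        have htpos : 0 < t := by linarith
        have hne : (0 : ℝ) < (t - Real.log 2) ^ 2 := by
          have : 0 < t - Real.log 2 := by linarith
          positivity
        have hsq : 0.998 * t ^ 2 ≤ (t - Real.log 2) ^ 2 := by nlinarith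
        have hK1 : K / (t - Real.log 2) ^ 2 * (A / 2) ≤ 0.51 * (K / t ^ 2 * A) := by
          have : K / (t - Real.log 2) ^ 2 ≤ K / (0.998 * t ^ 2) :=
            div_le_div_of_nonneg_left hKpos.le (by positivity) hsq
          have h9 : K / (0.998 * t ^ 2) ≤ 1.01 * (K / t ^ 2) := by
            rw [div_mul_eq_div_div_swap, div_le_iff₀ (by norm_num)]
            have : 0 < K / t ^ 2 := by positivity
            nlinarith
          have h10 : 0 < K / t ^ 2 * A := by positivity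
          calc K / (t - Real.log 2) ^ 2 * (A / 2) ≤ (1.01 * (K / t ^ 2)) * (A / 2) :=
                mul_le_mul_of_nonneg_right (this.trans h9) (by linarith)
            _ = 0.505 * (K / t ^ 2 * A) := by ring
            _ ≤ _ := by linarith
        have hC1 : C / t ^ 2 * (A / (2 * 3 ^ 1)) ≤ 0.49 * (K / t ^ 2 * A) := by
          have h9 : C / t ^ 2 ≤ K / t ^ 2 := by
            apply div_le_div_of_nonneg_right _ (by positivity)
            rw [hK]; linarith [(by positivity : (0 : ℝ) < 2 * 1002 ^ 2)]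
          have h10 : 0 < K / t ^ 2 * A := by positivity
          calc C / t ^ 2 * (A / (2 * 3 ^ 1)) ≤ K / t ^ 2 * (A / (2 * 3 ^ 1)) :=
                mul_le_mul_of_nonneg_right h9 (by positivity)
            _ = (K / t ^ 2 * A) / 6 := by ring
            _ ≤ _ := by linarith
        linarith
  intro A hA h1 c c'
  obtain ⟨n, hn⟩ := exists_nat_ge ((Real.log (A / Z) - 1002) / Real.log 2)
  have : Real.log (A / Z) ≤ 1002 + n * Real.log 2 := by
    rw [div_le_iff₀ (by linarith)] at hn; linarith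
  exact main n A hA h1 this c c'

/-- the harmonic relation -/
theorem harmA {d : ℤ} (hd : Odd d) (hd3 : IsCoprime d 3) : ∃ K : ℝ, 0 < K ∧
    ∀ Z : ℝ, |(d : ℝ)| ≤ Z → 1 ≤ Z → ∀ S : Set ℤ, InvA d Z S → ∀ A : ℝ, 0 < A →
      1002 ≤ Real.log (A / Z) →
      |((wc S A (2 * A) 1 0).card : ℝ) - (wc S (A / 2) (2 * (A / 2)) 1 0).card
        - (wc S (3 * A / 2) (2 * (3 * A / 2)) 1 0).card / 3| ≤ K / (Real.log (A / Z)) ^ 2 * A := by
  obtain ⟨K, hK, he⟩ := equiA_all hd hd3
  refine ⟨2 * K + 2 * |(d : ℝ)| + 2, by positivity, ?_⟩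
  intro Z hZd hZ1 S hS A hA ht
  have hZ0 : 0 < Z := by linarith
  have hAZ0 : 0 < A / Z := by positivity
  have hAZ : Z ≤ A := by
    have h3 := Real.add_one_le_exp (Real.log (A / Z))
    rw [Real.exp_log hAZ0] at h3
    have h4 : 1 ≤ A / Z := by linarith
    rwa [le_div_iff₀ hZ0, one_mul] at h4
  have h1 := wcA_parity_one hS hAZ
  have h2 := clsA_odd_image hd hS hAZ
  have h1' : ((wc S A (2 * A) 1 0).card : ℝ)
      = (cls S A (2 * A) 0 1 0).card + (wc S (A / 2) (2 * (A / 2)) 1 0).card := by exact_mod_cast h1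
  rw [h1', h2]
  set L := 3 * A / 2 with hL
  have hLpos : 0 < L := by positivity
  have hlogL : Real.log (A / Z) ≤ Real.log (L / Z) := by
    apply Real.log_le_log hAZ0
    apply div_le_div_of_nonneg_right _ hZ0.le
    rw [hL]; linarith
  have h3 := wc_shift_le S L (d / 2) 3 (2 * d)
  have h4 := wc_shift_ge S L (d / 2) 3 (2 * d)
  have hthree : ((wc S L (2 * L) 1 0).card : ℝ)
      = (wc S L (2 * L) 3 0).card + (wc S L (2 * L) 3 1).card + (wc S L (2 * L) 3 2).card := by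
    exact_mod_cast wc_three S L (2 * L)
  have he' := fun c c' => he Z hZd hZ1 S hS L hLpos (by linarith) c c'
  set W := fun c : ℤ => ((wc S L (2 * L) 3 c).card : ℝ) with hW
  set D := K / (Real.log (L / Z)) ^ 2 * L with hD
  have u0 := he' (2 * d) 0
  have u1 := he' (2 * d) 1
  have u2 := he' (2 * d) 2
  have v0 := he' 0 (2 * d)
  have v1 := he' 1 (2 * d)
  have v2 := he' 2 (2 * d)
  have hDle : D ≤ 3 / 2 * (K / (Real.log (A / Z)) ^ 2 * A) := by
    have htpos : 0 < Real.log (A / Z) := by linarith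
    have : K / (Real.log (L / Z)) ^ 2 ≤ K / (Real.log (A / Z)) ^ 2 := by
      apply div_le_div_of_nonneg_left hK.le (by positivity)
      exact pow_le_pow_left₀ htpos.le hlogL 2
    calc D ≤ K / (Real.log (A / Z)) ^ 2 * L := mul_le_mul_of_nonneg_right this hLpos.le
      _ = _ := by rw [hL]; ring
  have hD0 : 0 ≤ D := by positivity
  have hd2 : |(d : ℝ) / 2| = |(d : ℝ)| / 2 := by rw [abs_div, abs_of_pos (by norm_num : (0 : ℝ) < 2)]
  rw [hd2] at h3 h4
  -- the constant is absorbed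
  have habs : (2 * |(d : ℝ)| + 2) / (Real.log (A / Z)) ^ 2 * A ≥ |(d : ℝ)| + 1 := by
    have htpos : 0 < Real.log (A / Z) := by linarith
    have h5 : (Real.log (A / Z)) ^ 2 / 2 ≤ A := by
      have := Real.pow_div_factorial_le_exp (Real.log (A / Z)) htpos.le 2
      rw [Real.exp_log hAZ0] at this
      have h6 : A / Z ≤ A := div_le_self hA.le hZ1
      have h7 : ((2 : ℕ).factorial : ℝ) = 2 := by norm_num
      rw [h7] at this
      linarith
    rw [ge_iff_le, div_mul_eq_mul_div, le_div_iff₀ (by positivity)]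
    have : 0 ≤ |(d : ℝ)| := abs_nonneg _
    nlinarith
  have hfin : (2 * K + 2 * |(d : ℝ)| + 2) / (Real.log (A / Z)) ^ 2 * A
      = 2 * (K / (Real.log (A / Z)) ^ 2 * A) + (2 * |(d : ℝ)| + 2) / (Real.log (A / Z)) ^ 2 * A := by ring
  rw [hfin]
  have h0d : 0 ≤ |(d : ℝ)| := abs_nonneg _
  have hKA : 0 ≤ K / (Real.log (A / Z)) ^ 2 * A := by positivity
  rw [abs_le]
  constructor <;> linarith

end Pool.Agent.R344.FP
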