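import Pool.Agent.R344.FP.A

/-! Sets invariant above a level, part B: the density and its value from logarithmic averages. -/

set_option autoImplicit false

namespace Pool.Agent.R344.FP

open Finset Filter Topology MeasureTheory
open Pool.Agent.H320R2.PD Pool.Agent.H499R2.ND
open Pool.Agent.H499R2.CO (Tz)
open Pool.Agent.H499R2.HL
open Pool.Agent.R344.TH

/-- the window density with the level as the unit -/
noncomputable def Fs (S : Set ℤ) (Z : ℝ) (τ : ℝ) : ℝ := Fd S (τ + Real.log Z)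

theorem Fs_harm {d : ℤ} (hd : Odd d) (hd3 : IsCoprime d 3) : ∃ K : ℝ, 0 < K ∧
    ∀ Z : ℝ, |(d : ℝ)| ≤ Z → 1 ≤ Z → ∀ S : Set ℤ, InvA d Z S → ∀ τ : ℝ, 1002 ≤ τ →
      |Fs S Z τ - (Fs S Z (τ - Real.log 2) + Fs S Z (τ + Real.log (3 / 2))) / 2| ≤ K / τ ^ 2 := by
  obtain ⟨K, hK, h⟩ := harmA hd hd3
  refine ⟨K, hK, fun Z hZd hZ1 S hS τ hτ => ?_⟩
  have hZ0 : 0 < Z := by linarith
  set t := τ + Real.log Z with ht
  have he := Real.exp_pos t
  have hlog : Real.log (Real.exp t / Z) = τ := by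
    rw [Real.log_div he.ne' hZ0.ne', Real.log_exp, ht]; ring
  have h1 := h Z hZd hZ1 S hS (Real.exp t) he (by rw [hlog]; exact hτ)
  rw [hlog] at h1
  have e1 : Real.exp (t - Real.log 2) = Real.exp t / 2 := by
    rw [Real.exp_sub, Real.exp_log (by norm_num)]
  have e2 : Real.exp (t + Real.log (3 / 2)) = 3 * Real.exp t / 2 := by
    rw [Real.exp_add, Real.exp_log (by norm_num)]; ring
  have w0 := Fd_win S t
  have w1 := Fd_win S (t - Real.log 2)
  have w2 := Fd_win S (t + Real.log (3 / 2))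
  rw [e1] at w1
  rw [e2] at w2
  rw [← w0, ← w1, ← w2] at h1
  have f0 : Fs S Z τ = Fd S t := rfl
  have f1 : Fs S Z (τ - Real.log 2) = Fd S (t - Real.log 2) := by
    unfold Fs; congr 1; rw [ht]; ring
  have f2 : Fs S Z (τ + Real.log (3 / 2)) = Fd S (t + Real.log (3 / 2)) := by
    unfold Fs; congr 1; rw [ht]; ring
  rw [f0, f1, f2]
  set A := Real.exp t with hA
  have hrel : Fd S t * (3 * A) - Fd S (t - Real.log 2) * (3 * (A / 2))
      - Fd S (t + Real.log (3 / 2)) * (3 * (3 * A / 2)) / 3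
      = (Fd S t - (Fd S (t - Real.log 2) + Fd S (t + Real.log (3 / 2))) / 2) * (3 * A) := by ring
  rw [hrel, abs_mul, abs_of_pos (by positivity : (0 : ℝ) < 3 * A)] at h1
  have hX := abs_nonneg (Fd S t - (Fd S (t - Real.log 2) + Fd S (t + Real.log (3 / 2))) / 2)
  have hKt : 0 < K / τ ^ 2 := by
    have : 0 < τ := by linarith
    positivity
  by_contra hcon
  push Not at hcon
  nlinarith

theorem Fs_meas (S : Set ℤ) (Z : ℝ) : Measurable (Fs S Z) := by
  unfold Fs
  exact (Fd_meas S).comp (measurable_id.add_const _)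

theorem Fs_lip (S : Set ℤ) {Z : ℝ} (hZ : 1 ≤ Z) (t s : ℝ) (ht : 0 ≤ t) (hs : 0 ≤ s) (hs1 : s ≤ 1) :
    |Fs S Z (t + s) - Fs S Z t| ≤ 10 * (s + Real.exp (-t)) := by
  have hl := Real.log_nonneg hZ
  have h := Fd_lip S (t + Real.log Z) s (by linarith) hs hs1
  unfold Fs
  rw [show t + s + Real.log Z = t + Real.log Z + s by ring]
  refine h.trans ?_
  have h2 : Real.exp (-(t + Real.log Z)) ≤ Real.exp (-t) := Real.exp_le_exp.2 (by linarith)
  linarith

/-- the conserved quantity of a convergent function -/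
theorem II_tendsto {F : ℝ → ℝ} (hF : Measurable F) (h0 : ∀ t, 0 ≤ F t) (h1 : ∀ t, F t ≤ 1) {l : ℝ}
    (hl : Tendsto F atTop (𝓝 l)) : Tendsto (II F) atTop (𝓝 ((Real.log 2 - Real.log (3 / 2)) * l)) := by
  have ha := a_pos
  have hb := b_pos
  have ha1 := a_lt_one
  have hb1 := b_lt_one
  rw [Metric.tendsto_atTop] at hl ⊢
  intro ε hε
  obtain ⟨T, hT⟩ := hl (ε / 4) (by positivity)
  refine ⟨T + 1, fun t ht => ?_⟩
  have hclose : ∀ u, t - Real.log 2 ≤ u → |F u - l| ≤ ε / 4 := by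
    intro u hu
    have := hT u (by linarith)
    rw [Real.dist_eq] at this
    exact this.le
  have hi := intble hF h0 h1
  have c1 : |(∫ u in (t - (Real.log 2))..t, F u) - (Real.log 2) * l| ≤ ε / 4 * (Real.log 2) := by
    have e : (∫ u in (t - (Real.log 2))..t, F u) - (Real.log 2) * l = ∫ u in (t - (Real.log 2))..t, (F u - l) := by
      rw [intervalIntegral.integral_sub (hi _ _) intervalIntegrable_const, intervalIntegral.integral_const,
        smul_eq_mul]
      ring
    rw [e]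
    have := intervalIntegral.norm_integral_le_of_norm_le_const (a := t - (Real.log 2)) (b := t)
      (f := fun u => F u - l) (C := ε / 4) (fun u hu => by
        rw [Set.uIoc_of_le (by linarith)] at hu
        rw [Real.norm_eq_abs]
        exact hclose u hu.1.le)
    rw [Real.norm_eq_abs, show t - (t - (Real.log 2)) = (Real.log 2) by ring, abs_of_pos ha] at this
    exact this
  have c2 : |(∫ u in t..(t + (Real.log (3 / 2))), F u) - (Real.log (3 / 2)) * l| ≤ ε / 4 * (Real.log (3 / 2)) := by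
    have e : (∫ u in t..(t + (Real.log (3 / 2))), F u) - (Real.log (3 / 2)) * l = ∫ u in t..(t + (Real.log (3 / 2))), (F u - l) := by
      rw [intervalIntegral.integral_sub (hi _ _) intervalIntegrable_const, intervalIntegral.integral_const,
        smul_eq_mul]
      ring
    rw [e]
    have := intervalIntegral.norm_integral_le_of_norm_le_const (a := t) (b := t + (Real.log (3 / 2)))
      (f := fun u => F u - l) (C := ε / 4) (fun u hu => by
        rw [Set.uIoc_of_le (by linarith)] at hu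
        rw [Real.norm_eq_abs]
        exact hclose u (by linarith [hu.1]))
    rw [Real.norm_eq_abs, show t + (Real.log (3 / 2)) - t = (Real.log (3 / 2)) by ring, abs_of_pos hb] at this
    exact this
  rw [Real.dist_eq]
  unfold II
  rw [show (∫ u in (t - (Real.log 2))..t, F u) - (∫ u in t..(t + (Real.log (3 / 2))), F u) - ((Real.log 2) - (Real.log (3 / 2))) * l
    = ((∫ u in (t - (Real.log 2))..t, F u) - (Real.log 2) * l) - ((∫ u in t..(t + (Real.log (3 / 2))), F u) - (Real.log (3 / 2)) * l) by ring]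
  refine lt_of_le_of_lt (abs_sub _ _) ?_
  nlinarith

/-- the limit and the conserved quantity -/
theorem lim_II {d : ℤ} (hd : Odd d) (hd3 : IsCoprime d 3) : ∃ K : ℝ, 0 < K ∧
    ∀ Z : ℝ, |(d : ℝ)| ≤ Z → 1 ≤ Z → ∀ S : Set ℤ, InvA d Z S → ∃ l : ℝ, Tendsto (Fd S) atTop (𝓝 l) ∧
      ∀ τ : ℝ, 1002 ≤ τ → |II (Fs S Z) τ - (Real.log 2 - Real.log (3 / 2)) * l| ≤ K / τ := by
  obtain ⟨K, hK, h⟩ := Fs_harm hd hd3
  refine ⟨2 * K, by positivity, fun Z hZd hZ1 S hS => ?_⟩
  have hm := Fs_meas S Z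
  have h0 : ∀ t, 0 ≤ Fs S Z t := fun t => Fd_nonneg S _
  have h1 : ∀ t, Fs S Z t ≤ 1 := fun t => Fd_le_one S _
  obtain ⟨l, hl⟩ := harmonic_limit (t0 := 1002) (L := 10) (C := K) hm h0 h1
    (fun t s ht hs hs1 => Fs_lip S hZ1 t s (by linarith) hs hs1) (fun t ht => h Z hZd hZ1 S hS t ht)
  refine ⟨l, ?_, ?_⟩
  · have : Fd S = fun t => Fs S Z (t - Real.log Z) := by
      funext t; unfold Fs; congr 1; ring
    rw [this]
    exact hl.comp (tendsto_atTop_add_const_right _ _ tendsto_id)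
  · intro τ hτ
    have hII := II_tendsto hm h0 h1 hl
    have hc : ∀ᶠ t' in atTop, |II (Fs S Z) t' - II (Fs S Z) τ| ≤ 2 * K / τ := by
      filter_upwards [eventually_ge_atTop τ] with t' ht'
      exact II_cauchy hm h0 h1 (fun t ht => h Z hZd hZ1 S hS t ht) hK.le hτ (by linarith) ht'
    have hlim : Tendsto (fun t' => |II (Fs S Z) t' - II (Fs S Z) τ|) atTop
        (𝓝 |(Real.log 2 - Real.log (3 / 2)) * l - II (Fs S Z) τ|) := (hII.sub_const _).abs
    have := le_of_tendsto hlim hc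
    rwa [abs_sub_comm] at this

/-- logarithmic averages from the conserved quantity -/
theorem log_avg {F : ℝ → ℝ} (hF : Measurable F) (h0 : ∀ t, 0 ≤ F t) (h1 : ∀ t, F t ≤ 1) {l ε τ₀ τ₁ : ℝ}
    (h : ∀ τ, τ₀ ≤ τ → |II F τ - (Real.log 2 - Real.log (3 / 2)) * l| ≤ ε) (hτ : τ₀ ≤ τ₁) :
    |(Real.log 2 - Real.log (3 / 2)) * ((∫ u in τ₀..τ₁, F u) - l * (τ₁ - τ₀))|
      ≤ ε * (τ₁ - τ₀) + 4 := by
  have ha := a_pos
  have hb := b_pos
  have ha1 := a_lt_one
  have hb1 := b_lt_one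
  have hi := intble hF h0 h1
  set Φ : ℝ → ℝ := fun x => ∫ u in (0 : ℝ)..x, F u with hΦ
  have hΦd : ∀ x y, Φ y - Φ x = ∫ u in x..y, F u := by
    intro x y
    rw [hΦ]
    exact intervalIntegral.integral_interval_sub_left (hi _ _) (hi _ _)
  have hΦl : ∀ x y, |Φ y - Φ x| ≤ |y - x| := by
    intro x y
    rw [hΦd]
    have := intervalIntegral.norm_integral_le_of_norm_le_const (a := x) (b := y)
      (f := F) (C := 1) (fun u _ => by rw [Real.norm_eq_abs, abs_of_nonneg (h0 u)]; exact h1 u)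
    rwa [Real.norm_eq_abs, one_mul] at this
  have hΦc : Continuous Φ := by
    rw [Metric.continuous_iff]
    intro x ε' hε'
    refine ⟨ε', hε', fun y hy => ?_⟩
    rw [Real.dist_eq] at hy ⊢
    exact lt_of_le_of_lt (hΦl x y) hy
  have hiΦ : ∀ x y, IntervalIntegrable Φ volume x y := fun x y => hΦc.intervalIntegrable x y
  have hIIe : ∀ τ, II F τ = 2 * Φ τ - Φ (τ - Real.log 2) - Φ (τ + Real.log (3 / 2)) := by
    intro τ
    unfold II
    rw [← hΦd, ← hΦd]; ring
  have hI1 : IntervalIntegrable (fun u => Φ (u - (Real.log 2))) volume τ₀ τ₁ :=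
    (hΦc.comp (continuous_id.sub continuous_const)).intervalIntegrable _ _
  have hI2 : IntervalIntegrable (fun u => Φ (u + (Real.log (3 / 2)))) volume τ₀ τ₁ :=
    (hΦc.comp (continuous_id.add continuous_const)).intervalIntegrable _ _
  have hint : ∫ τ in τ₀..τ₁, II F τ = 2 * (∫ u in τ₀..τ₁, Φ u)
      - (∫ u in (τ₀ - Real.log 2)..(τ₁ - Real.log 2), Φ u)
      - ∫ u in (τ₀ + Real.log (3 / 2))..(τ₁ + Real.log (3 / 2)), Φ u := by
    have e : ∫ τ in τ₀..τ₁, II F τ
        = ∫ τ in τ₀..τ₁, (2 * Φ τ - Φ (τ - Real.log 2) - Φ (τ + Real.log (3 / 2))) := by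
      congr 1; funext τ; exact hIIe τ
    rw [e, intervalIntegral.integral_sub (((hiΦ τ₀ τ₁).const_mul 2).sub hI1) hI2,
      intervalIntegral.integral_sub ((hiΦ τ₀ τ₁).const_mul 2) hI1, intervalIntegral.integral_const_mul,
      intervalIntegral.integral_comp_sub_right, intervalIntegral.integral_comp_add_right]
  have a1 := intervalIntegral.integral_add_adjacent_intervals (hiΦ (τ₀ - (Real.log 2)) τ₀) (hiΦ τ₀ τ₁)
  have a2 := intervalIntegral.integral_add_adjacent_intervals (hiΦ (τ₀ - (Real.log 2)) (τ₁ - (Real.log 2))) (hiΦ (τ₁ - (Real.log 2)) τ₁)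
  have a3 := intervalIntegral.integral_add_adjacent_intervals (hiΦ τ₀ (τ₀ + (Real.log (3 / 2)))) (hiΦ (τ₀ + (Real.log (3 / 2))) (τ₁ + (Real.log (3 / 2))))
  have a4 := intervalIntegral.integral_add_adjacent_intervals (hiΦ τ₀ τ₁) (hiΦ τ₁ (τ₁ + (Real.log (3 / 2))))
  have c1 : ∀ τ, |(∫ u in (τ - Real.log 2)..τ, Φ u) - Real.log 2 * Φ τ| ≤ 1 := by
    intro τ
    have e : (∫ u in (τ - (Real.log 2))..τ, Φ u) - (Real.log 2) * Φ τ = ∫ u in (τ - (Real.log 2))..τ, (Φ u - Φ τ) := by
      rw [intervalIntegral.integral_sub (hiΦ _ _) intervalIntegrable_const, intervalIntegral.integral_const,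
        smul_eq_mul]
      ring
    rw [e]
    have := intervalIntegral.norm_integral_le_of_norm_le_const (a := τ - (Real.log 2)) (b := τ)
      (f := fun u => Φ u - Φ τ) (C := 1) (fun u hu => by
        rw [Set.uIoc_of_le (by linarith)] at hu
        rw [Real.norm_eq_abs]
        refine (hΦl τ u).trans ?_
        rw [abs_le]; constructor <;> linarith [hu.1, hu.2])
    rw [Real.norm_eq_abs, show τ - (τ - (Real.log 2)) = (Real.log 2) by ring, abs_of_pos ha] at this
    linarith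
  have c2 : ∀ τ, |(∫ u in τ..(τ + Real.log (3 / 2)), Φ u) - Real.log (3 / 2) * Φ τ| ≤ 1 := by
    intro τ
    have e : (∫ u in τ..(τ + Real.log (3 / 2)), Φ u) - (Real.log (3 / 2)) * Φ τ
        = ∫ u in τ..(τ + Real.log (3 / 2)), (Φ u - Φ τ) := by
      rw [intervalIntegral.integral_sub (hiΦ _ _) intervalIntegrable_const, intervalIntegral.integral_const,
        smul_eq_mul]
      ring
    rw [e]
    have := intervalIntegral.norm_integral_le_of_norm_le_const (a := τ) (b := τ + Real.log (3 / 2))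
      (f := fun u => Φ u - Φ τ) (C := 1) (fun u hu => by
        rw [Set.uIoc_of_le (by linarith)] at hu
        rw [Real.norm_eq_abs]
        refine (hΦl τ u).trans ?_
        rw [abs_le]; constructor <;> linarith [hu.1, hu.2])
    rw [Real.norm_eq_abs, show τ + Real.log (3 / 2) - τ = Real.log (3 / 2) by ring, abs_of_pos hb] at this
    linarith
  have hmain : |(∫ τ in τ₀..τ₁, II F τ) - (Real.log 2 - Real.log (3 / 2)) * (Φ τ₁ - Φ τ₀)| ≤ 4 := by
    have b1 := c1 τ₀
    have b2 := c1 τ₁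
    have b3 := c2 τ₀
    have b4 := c2 τ₁
    rw [abs_le] at b1 b2 b3 b4 ⊢
    constructor <;> linarith
  have hdev : |(∫ τ in τ₀..τ₁, II F τ) - (Real.log 2 - Real.log (3 / 2)) * l * (τ₁ - τ₀)| ≤ ε * (τ₁ - τ₀) := by
    have hIIi : IntervalIntegrable (fun τ => II F τ) volume τ₀ τ₁ := by
      have e : (fun τ => II F τ) = fun τ => 2 * Φ τ - Φ (τ - Real.log 2) - Φ (τ + Real.log (3 / 2)) := by
        funext τ; exact hIIe τ
      rw [e]
      exact (((hiΦ τ₀ τ₁).const_mul 2).sub hI1).sub hI2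
    have e : (∫ τ in τ₀..τ₁, II F τ) - (Real.log 2 - Real.log (3 / 2)) * l * (τ₁ - τ₀)
        = ∫ τ in τ₀..τ₁, (II F τ - (Real.log 2 - Real.log (3 / 2)) * l) := by
      rw [intervalIntegral.integral_sub hIIi intervalIntegrable_const, intervalIntegral.integral_const,
        smul_eq_mul]
      ring
    rw [e]
    have := intervalIntegral.norm_integral_le_of_norm_le_const (a := τ₀) (b := τ₁)
      (f := fun u => II F u - (Real.log 2 - Real.log (3 / 2)) * l) (C := ε) (fun u hu => by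
        rw [Set.uIoc_of_le hτ] at hu
        rw [Real.norm_eq_abs]
        exact h u hu.1.le)
    rwa [Real.norm_eq_abs, abs_of_nonneg (by linarith : 0 ≤ τ₁ - τ₀)] at this
  rw [← hΦd τ₀ τ₁]
  have e2 : (Real.log 2 - Real.log (3 / 2)) * (Φ τ₁ - Φ τ₀ - l * (τ₁ - τ₀))
      = ((∫ τ in τ₀..τ₁, II F τ) - (Real.log 2 - Real.log (3 / 2)) * l * (τ₁ - τ₀))
        - ((∫ τ in τ₀..τ₁, II F τ) - (Real.log 2 - Real.log (3 / 2)) * (Φ τ₁ - Φ τ₀)) := by ring
  rw [e2]
  exact (abs_sub _ _).trans (add_le_add hdev hmain)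

end Pool.Agent.R344.FP
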