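import Pool.Agent.R344.FP.B

/-! Sets invariant above a level, part C: integrals of window densities and sums of reciprocals. -/

set_option autoImplicit false

namespace Pool.Agent.R344.FP

open Finset Filter Topology MeasureTheory
open Pool.Agent.H320R2.PD Pool.Agent.H499R2.ND
open Pool.Agent.H499R2.HL

noncomputable def fn (n : ℤ) : ℝ → ℝ :=
  (Set.Ioc (Real.log ((n : ℝ) / 2)) (Real.log n)).indicator (fun t => Real.exp (-t))

theorem fn_int (n : ℤ) (a b : ℝ) : IntervalIntegrable (fn n) volume a b := by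
  rw [intervalIntegrable_iff]
  unfold fn
  apply Integrable.indicator _ measurableSet_Ioc
  have : IntervalIntegrable (fun t : ℝ => Real.exp (-t)) volume a b :=
    (Real.continuous_exp.comp continuous_neg).intervalIntegrable _ _
  rw [intervalIntegrable_iff] at this
  exact this

theorem fn_apply {n : ℤ} (hn : 0 < n) (t : ℝ) :
    fn n t = if Real.exp t ≤ n ∧ (n : ℝ) < 2 * Real.exp t then Real.exp (-t) else 0 := by
  have hnR : (0 : ℝ) < n := by exact_mod_cast hn
  unfold fn
  rw [Set.indicator_apply]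
  congr 1
  rw [Set.mem_Ioc]
  apply propext
  constructor
  · rintro ⟨h1, h2⟩
    rw [Real.log_lt_iff_lt_exp (by positivity)] at h1
    rw [Real.le_log_iff_exp_le hnR] at h2
    exact ⟨h2, by linarith⟩
  · rintro ⟨h1, h2⟩
    rw [Real.log_lt_iff_lt_exp (by positivity), Real.le_log_iff_exp_le hnR]
    exact ⟨by linarith, h1⟩

theorem fn_full {n : ℤ} (hn : 0 < n) :
    ∫ t in Set.Ioc (Real.log ((n : ℝ) / 2)) (Real.log n), Real.exp (-t) = 1 / n := by
  have hnR : (0 : ℝ) < n := by exact_mod_cast hn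
  have hle : Real.log ((n : ℝ) / 2) ≤ Real.log n := Real.log_le_log (by positivity) (by linarith)
  rw [← intervalIntegral.integral_of_le hle]
  have h1 : ∫ t in (Real.log ((n : ℝ) / 2))..(Real.log n), Real.exp (-t)
      = -Real.exp (-Real.log n) - (-Real.exp (-Real.log ((n : ℝ) / 2))) := by
    refine intervalIntegral.integral_eq_sub_of_hasDerivAt (f := fun x => -Real.exp (-x)) ?_ ?_
    · intro x _
      have h3 := (hasDerivAt_neg x).exp.neg
      have h4 : -(Real.exp (-x) * -1) = Real.exp (-x) := by ring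
      rw [h4] at h3
      exact h3
    · exact (Real.continuous_exp.comp continuous_neg).intervalIntegrable _ _
  rw [h1, Real.exp_neg, Real.exp_neg, Real.exp_log hnR, Real.exp_log (by positivity)]
  field_simp
  ring

theorem fn_le {n : ℤ} (hn : 0 < n) {a b : ℝ} (hab : a ≤ b) : ∫ t in a..b, fn n t ≤ 1 / n := by
  rw [intervalIntegral.integral_of_le hab, ← fn_full hn]
  unfold fn
  rw [setIntegral_indicator measurableSet_Ioc]
  apply setIntegral_mono_set
  · have : IntervalIntegrable (fun t : ℝ => Real.exp (-t)) volume (Real.log ((n : ℝ) / 2)) (Real.log n) :=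
      (Real.continuous_exp.comp continuous_neg).intervalIntegrable _ _
    have hnR : (0 : ℝ) < n := by exact_mod_cast hn
    rwa [intervalIntegrable_iff, Set.uIoc_of_le (Real.log_le_log (by positivity) (by linarith))] at this
  · exact Eventually.of_forall fun x => (Real.exp_pos _).le
  · exact (Set.inter_subset_right).eventuallyLE

theorem fn_eq {n : ℤ} (hn : 0 < n) {a b : ℝ} (hab : a ≤ b) (h1 : 2 * Real.exp a ≤ n)
    (h2 : (n : ℝ) ≤ Real.exp b) : ∫ t in a..b, fn n t = 1 / n := by
  have hnR : (0 : ℝ) < n := by exact_mod_cast hn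
  rw [intervalIntegral.integral_of_le hab, ← fn_full hn]
  unfold fn
  rw [setIntegral_indicator measurableSet_Ioc]
  congr 2
  apply Set.inter_eq_self_of_subset_right
  apply Set.Ioc_subset_Ioc
  · rw [Real.le_log_iff_exp_le (by positivity)]; linarith
  · rw [Real.log_le_iff_le_exp hnR]; exact h2

/-- the window density as a sum -/
theorem Fd_sum (S : Set ℤ) {a b t : ℝ} (ha : a ≤ t) (hb : t ≤ b) :
    3 * Fd S t = ∑ n ∈ wc S (Real.exp a) (2 * Real.exp b) 1 0, fn n t := by
  classical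
  have he := Real.exp_pos t
  have hea := Real.exp_le_exp.2 ha
  have heb := Real.exp_le_exp.2 hb
  have h1 := Fd_win S t
  have hpos : ∀ n ∈ wc S (Real.exp a) (2 * Real.exp b) 1 0, 0 < n := by
    intro n hn
    rw [mem_wc] at hn
    have : (0 : ℝ) < n := lt_of_lt_of_le (Real.exp_pos a) hn.1.1
    exact_mod_cast this
  have h2 : ∑ n ∈ wc S (Real.exp a) (2 * Real.exp b) 1 0, fn n t
      = ∑ n ∈ (wc S (Real.exp a) (2 * Real.exp b) 1 0).filter
          (fun n : ℤ => Real.exp t ≤ (n : ℝ) ∧ (n : ℝ) < 2 * Real.exp t), Real.exp (-t) := by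
    rw [sum_filter]
    exact sum_congr rfl fun n hn => fn_apply (hpos n hn) t
  have h3 : (wc S (Real.exp a) (2 * Real.exp b) 1 0).filter
      (fun n : ℤ => Real.exp t ≤ (n : ℝ) ∧ (n : ℝ) < 2 * Real.exp t) = wc S (Real.exp t) (2 * Real.exp t) 1 0 := by
    ext x
    rw [mem_filter, mem_wc, mem_wc]
    constructor
    · rintro ⟨⟨_, h⟩, h'⟩; exact ⟨h', h⟩
    · rintro ⟨h', h⟩
      exact ⟨⟨⟨hea.trans h'.1, lt_of_lt_of_le h'.2 (by linarith)⟩, h⟩, h'⟩
  rw [h2, h3, sum_const, nsmul_eq_mul, ← h1, Real.exp_neg]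
  field_simp

theorem int_Fd (S : Set ℤ) {a b : ℝ} (hab : a ≤ b) :
    3 * ∫ t in a..b, Fd S t = ∑ n ∈ wc S (Real.exp a) (2 * Real.exp b) 1 0, ∫ t in a..b, fn n t := by
  rw [← intervalIntegral.integral_const_mul, ← intervalIntegral.integral_finset_sum
    (fun n _ => fn_int n a b)]
  apply intervalIntegral.integral_congr
  intro t ht
  rw [Set.uIcc_of_le hab] at ht
  exact Fd_sum S ht.1 ht.2

theorem int_Fd_le (S : Set ℤ) {a b : ℝ} (hab : a ≤ b) :
    3 * ∫ t in a..b, Fd S t ≤ ∑ n ∈ wc S (Real.exp a) (2 * Real.exp b) 1 0, 1 / (n : ℝ) := by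
  rw [int_Fd S hab]
  apply sum_le_sum
  intro n hn
  rw [mem_wc] at hn
  have : (0 : ℝ) < n := lt_of_lt_of_le (Real.exp_pos a) hn.1.1
  exact fn_le (by exact_mod_cast this) hab

theorem le_int_Fd (S : Set ℤ) {a b : ℝ} (hab : a ≤ b) :
    ∑ n ∈ wc S (2 * Real.exp a) (Real.exp b) 1 0, 1 / (n : ℝ) ≤ 3 * ∫ t in a..b, Fd S t := by
  rw [int_Fd S hab]
  have hea := Real.exp_pos a
  have heb := Real.exp_pos b
  have hsub : wc S (2 * Real.exp a) (Real.exp b) 1 0 ⊆ wc S (Real.exp a) (2 * Real.exp b) 1 0 := by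
    intro x hx
    rw [mem_wc] at hx ⊢
    exact ⟨⟨by linarith [hx.1.1], by linarith [hx.1.2]⟩, hx.2⟩
  refine le_trans (le_of_eq ?_) (sum_le_sum_of_subset_of_nonneg hsub ?_)
  · apply sum_congr rfl
    intro n hn
    rw [mem_wc] at hn
    have : (0 : ℝ) < n := by linarith [hn.1.1]
    exact (fn_eq (by exact_mod_cast this) hab hn.1.1 hn.1.2.le).symm
  · intro n hn _
    rw [mem_wc] at hn
    have : (0 : ℝ) < n := lt_of_lt_of_le (Real.exp_pos a) hn.1.1
    apply intervalIntegral.integral_nonneg hab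
    intro t _
    unfold fn
    exact Set.indicator_nonneg (fun x _ => (Real.exp_pos _).le) t

end Pool.Agent.R344.FP
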