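import Pool.Agent.R344.FP.C
import Pool.Agent.R344.TH.P

/-! Late visits, part D: large deviations and trajectories which climb. -/

set_option autoImplicit false

namespace Pool.Agent.R344.FP

open Finset
open Pool.Agent.H499R2.CO (Tz)
open Pool.Agent.H499R2.ND (log3_le log3_ge)
open Pool.Agent.R344.SP Pool.Agent.R344.TH

/-- quantitative large deviations for the number of odd terms -/
theorem od_large_q {d : ℤ} (hd : d % 2 = 1) {η : ℝ} (hη : 0 ≤ η) (t : ℕ) {A : ℝ} (hA : 0 ≤ A) :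
    (((Wn A).filter (fun n => (1 / 2 + η) * t ≤ (od d t n : ℝ))).card : ℝ)
      ≤ (A + 2 ^ t) * Real.exp (-(2 * η ^ 2 * t)) := by
  classical
  set x : ℝ := Real.exp (4 * η) with hx
  have hx0 : 0 < x := Real.exp_pos _
  have hx1 : 1 ≤ x := Real.one_le_exp (by linarith)
  have hgen := od_gen hd x t
  have hsum := sum_window_le (g := fun n => x ^ od d t n) (fun n => by positivity) t
    (fun n m => by simp only [od_periodic hd]) hA
  rw [hgen] at hsum
  set c₁ : ℝ := 1 / 2 + η with hc₁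
  have hxt : 0 < x ^ (c₁ * t) := Real.rpow_pos_of_pos hx0 _
  have hmk : (((Wn A).filter (fun n => c₁ * t ≤ (od d t n : ℝ))).card : ℝ) * x ^ (c₁ * t)
      ≤ ∑ n ∈ Wn A, x ^ od d t n := by
    calc (((Wn A).filter (fun n => c₁ * t ≤ (od d t n : ℝ))).card : ℝ) * x ^ (c₁ * t)
        = ∑ n ∈ (Wn A).filter (fun n => c₁ * t ≤ (od d t n : ℝ)), x ^ (c₁ * t) := by
          rw [sum_const, nsmul_eq_mul]
      _ ≤ ∑ n ∈ (Wn A).filter (fun n => c₁ * t ≤ (od d t n : ℝ)), x ^ od d t n := by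
          apply sum_le_sum
          intro n hn
          rw [mem_filter] at hn
          rw [← Real.rpow_natCast x (od d t n)]
          exact Real.rpow_le_rpow_of_exponent_le hx1 hn.2
      _ ≤ _ := sum_le_sum_of_subset_of_nonneg (filter_subset _ _) fun n _ _ => by positivity
  have h1 : (((Wn A).filter (fun n => c₁ * t ≤ (od d t n : ℝ))).card : ℝ)
      ≤ (A / 2 ^ t + 1) * (1 + x) ^ t / x ^ (c₁ * t) := by
    rw [le_div_iff₀ hxt]; exact hmk.trans hsum
  refine h1.trans ?_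
  have h2 : (1 + x) / 2 ≤ Real.exp (2 * η + 2 * η ^ 2) := by
    have h3 := Real.cosh_le_exp_half_sq (2 * η)
    have h4 : (1 + x) / 2 = Real.exp (2 * η) * Real.cosh (2 * η) := by
      rw [Real.cosh_eq, mul_div_assoc', mul_add, ← Real.exp_add, ← Real.exp_add, hx,
        show 2 * η + 2 * η = 4 * η by ring, show 2 * η + -(2 * η) = 0 by ring, Real.exp_zero, add_comm]
    rw [h4, Real.exp_add]
    apply mul_le_mul_of_nonneg_left _ (Real.exp_pos _).le
    refine h3.trans (le_of_eq ?_)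
    congr 1; ring
  have h5 : ((1 + x) / 2) ^ t ≤ Real.exp ((2 * η + 2 * η ^ 2) * t) := by
    refine (pow_le_pow_left₀ (by positivity) h2 t).trans (le_of_eq ?_)
    rw [← Real.exp_nat_mul]; congr 1; ring
  have h6 : x ^ (c₁ * t) = Real.exp ((2 * η + 4 * η ^ 2) * t) := by
    rw [hx, ← Real.exp_mul, hc₁]; congr 1; ring
  have h7 : (A / 2 ^ t + 1) * (1 + x) ^ t / x ^ (c₁ * t)
      = (A + 2 ^ t) * (((1 + x) / 2) ^ t / x ^ (c₁ * t)) := by
    rw [div_pow]; field_simp
  rw [h7]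
  apply mul_le_mul_of_nonneg_left _ (by positivity)
  rw [div_le_iff₀ hxt, h6, ← Real.exp_add]
  refine h5.trans (Real.exp_le_exp.2 (le_of_eq ?_))
  ring

/-- integers whose trajectory has a long initial part with many odd terms -/
def A0 (d : ℤ) : Set ℤ :=
  {x : ℤ | 0 < x ∧ ∃ j : ℕ, Nat.log 2 x.toNat ≤ 100 * j ∧ j ≤ Nat.log 2 x.toNat ∧
    0.6 * (j : ℝ) ≤ (od d j x : ℝ)}

/-- `A0` is thin -/
theorem A0_thin {d : ℤ} (hd : d % 2 = 1) : ∃ l₀ : ℝ, 0 < l₀ ∧ ∀ Y : ℝ, 0 < Y → l₀ ≤ Real.log Y →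
    ∀ X : ℝ, Y ≤ X → ((fA (A0 d) Y X).card : ℝ) ≤ X * Real.exp (-(Real.log X) ^ (2 * (1 / 4) : ℝ)) := by
  classical
  obtain ⟨ρ, hρ0, hρ1, hod⟩ := od_large hd (c₁ := 0.6) (by norm_num)
  set r : ℝ := max (ρ ^ (1 / 100 : ℝ)) (3 / 4) with hr
  have hr34 : 3 / 4 ≤ r := le_max_right _ _
  have hρp : ρ ^ (1 / 100 : ℝ) < 1 := Real.rpow_lt_one hρ0.le hρ1 (by norm_num)
  have hr1 : r < 1 := max_lt hρp (by norm_num)
  have hr0 : 0 < r := by linarith
  have hρr : ρ ≤ r ^ 100 := by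
    have h1 : ρ = (ρ ^ (1 / 100 : ℝ)) ^ 100 := by
      rw [← Real.rpow_natCast, ← Real.rpow_mul hρ0.le]; norm_num
    rw [h1]
    exact pow_le_pow_left₀ (by positivity) (le_max_left _ _) 100
  have hlogr : Real.log r < 0 := Real.log_neg hr0 hr1
  set c : ℝ := -Real.log r with hc
  have hc0 : 0 < c := by rw [hc]; linarith
  have hev1 : ∀ᶠ t : ℝ in Filter.atTop, t ^ (2 : ℝ) * Real.exp (-(c / 2) * t) ≤ Real.exp (-c) / 2 :=
    (tendsto_rpow_mul_exp_neg_mul_atTop_nhds_zero 2 (c / 2) (by positivity)).eventually_le_const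
      (by positivity)
  have hev2 : ∀ᶠ t : ℝ in Filter.atTop, (2 / c) ^ 2 ≤ t := Filter.eventually_ge_atTop _
  obtain ⟨t₀, ht₀⟩ := Filter.eventually_atTop.1 (hev1.and hev2)
  refine ⟨max t₀ 60, by positivity, ?_⟩
  intro Y hY hl X hX
  have hX0 : 0 < X := by linarith
  have hlX : Real.log Y ≤ Real.log X := Real.log_le_log hY hX
  have hlt : t₀ ≤ Real.log Y := (le_max_left _ _).trans hl
  have hl60 : 60 ≤ Real.log Y := (le_max_right _ _).trans hl
  have hln2a := Real.log_two_gt_d9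
  have hln2b := Real.log_two_lt_d9
  obtain ⟨Λ, hΛ⟩ : ∃ Λ : ℕ, Λ = Nat.log 2 ⌊X⌋₊ := ⟨_, rfl⟩
  have hfl : 1 ≤ ⌊X⌋₊ := by
    rw [Nat.one_le_floor_iff]
    have := Real.add_one_le_exp (Real.log X)
    rw [Real.exp_log hX0] at this
    linarith
  have hΛ1 : (2 : ℝ) ^ Λ ≤ X := by
    have h1 : 2 ^ Λ ≤ ⌊X⌋₊ := by rw [hΛ]; exact Nat.pow_log_le_self 2 (by omega)
    calc (2 : ℝ) ^ Λ = ((2 ^ Λ : ℕ) : ℝ) := by push_cast; rfl
      _ ≤ (⌊X⌋₊ : ℝ) := by exact_mod_cast h1
      _ ≤ X := Nat.floor_le hX0.le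
  have hΛ2 : X < 2 ^ (Λ + 1) := by
    have h1 : ⌊X⌋₊ < 2 ^ (Λ + 1) := by rw [hΛ]; exact Nat.lt_pow_succ_log_self (by norm_num) _
    rw [Nat.floor_lt hX0.le] at h1
    push_cast at h1
    exact h1
  have hlogΛ : Real.log X ≤ (Λ : ℝ) + 1 := by
    have := Real.log_le_log hX0 hΛ2.le
    rw [Real.log_pow] at this
    push_cast at this
    nlinarith
  have hsub : fA (A0 d) Y X ⊆ (range (Λ + 1)).biUnion (fun L => (range (L + 1)).biUnion (fun j =>
      if L ≤ 100 * j then (Wn ((2 : ℝ) ^ L)).filter (fun n => 0.6 * (j : ℝ) ≤ (od d j n : ℝ)) else ∅)) := by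
    intro x hx
    rw [mem_fA] at hx
    obtain ⟨⟨hx1, hx2⟩, hx0, j, hj1, hj2, hj3⟩ := hx
    have hxR : (0 : ℝ) < x := by exact_mod_cast hx0
    have hxN : ((x.toNat : ℕ) : ℝ) = x := by
      have : ((x.toNat : ℕ) : ℤ) = x := Int.toNat_of_nonneg hx0.le
      exact_mod_cast this
    have hlow : (2 : ℝ) ^ (Nat.log 2 x.toNat) ≤ x := by
      rw [← hxN]
      exact_mod_cast Nat.pow_log_le_self 2 (by omega)
    have hup : (x : ℝ) < 2 ^ (Nat.log 2 x.toNat + 1) := by
      rw [← hxN]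
      exact_mod_cast Nat.lt_pow_succ_log_self (by norm_num) _
    rw [mem_biUnion]
    refine ⟨Nat.log 2 x.toNat, ?_, ?_⟩
    · rw [mem_range, Nat.lt_succ_iff, hΛ]
      apply Nat.log_mono_right
      apply Nat.le_floor
      rw [hxN]; exact hx2
    · rw [mem_biUnion]
      refine ⟨j, mem_range.2 (by omega), ?_⟩
      rw [if_pos hj1, mem_filter, mem_Wn]
      refine ⟨⟨hlow, ?_⟩, hj3⟩
      rw [pow_succ] at hup; linarith
  have hcard : ((fA (A0 d) Y X).card : ℝ) ≤ ∑ L ∈ range (Λ + 1), ((Λ : ℝ) + 1) * (2 * (2 * r) ^ Λ) := by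
    have h1 := (card_le_card hsub).trans card_biUnion_le
    have h2 : ((fA (A0 d) Y X).card : ℝ) ≤ ∑ L ∈ range (Λ + 1), (((range (L + 1)).biUnion (fun j =>
      if L ≤ 100 * j then (Wn ((2 : ℝ) ^ L)).filter (fun n => 0.6 * (j : ℝ) ≤ (od d j n : ℝ)) else ∅)).card : ℝ) := by
      exact_mod_cast h1
    refine h2.trans (sum_le_sum fun L hL => ?_)
    rw [mem_range, Nat.lt_succ_iff] at hL
    have h3 : (((range (L + 1)).biUnion (fun j =>
      if L ≤ 100 * j then (Wn ((2 : ℝ) ^ L)).filter (fun n => 0.6 * (j : ℝ) ≤ (od d j n : ℝ)) else ∅)).card : ℝ)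
      ≤ ∑ j ∈ range (L + 1), ((if L ≤ 100 * j then (Wn ((2 : ℝ) ^ L)).filter
          (fun n => 0.6 * (j : ℝ) ≤ (od d j n : ℝ)) else ∅).card : ℝ) := by
      exact_mod_cast card_biUnion_le
    refine h3.trans ?_
    have h4 : ∀ j ∈ range (L + 1), ((if L ≤ 100 * j then (Wn ((2 : ℝ) ^ L)).filter
          (fun n => 0.6 * (j : ℝ) ≤ (od d j n : ℝ)) else ∅).card : ℝ) ≤ 2 * (2 * r) ^ Λ := by
      intro j hj
      rw [mem_range] at hj
      split_ifs with hc1
      · refine (hod j (2 ^ L) (by positivity)).trans ?_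
        have e1 : (2 : ℝ) ^ j ≤ 2 ^ L := pow_le_pow_right₀ (by norm_num) (by omega)
        have e2 : ρ ^ j ≤ r ^ L := by
          calc ρ ^ j ≤ (r ^ 100) ^ j := pow_le_pow_left₀ hρ0.le hρr j
            _ = r ^ (100 * j) := by rw [← pow_mul]
            _ ≤ r ^ L := pow_le_pow_of_le_one hr0.le hr1.le hc1
        calc ((2 : ℝ) ^ L + 2 ^ j) * ρ ^ j ≤ ((2 : ℝ) ^ L + 2 ^ L) * r ^ L := by
              apply mul_le_mul _ e2 (by positivity) (by positivity)
              linarith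
          _ = 2 * (2 * r) ^ L := by rw [mul_pow]; ring
          _ ≤ 2 * (2 * r) ^ Λ := by
              apply mul_le_mul_of_nonneg_left _ (by norm_num)
              exact pow_le_pow_right₀ (by linarith) hL
      · rw [card_empty, Nat.cast_zero]; positivity
    refine (sum_le_sum h4).trans ?_
    rw [sum_const, nsmul_eq_mul, card_range]
    apply mul_le_mul_of_nonneg_right _ (by positivity)
    push_cast
    have : (L : ℝ) ≤ Λ := by exact_mod_cast hL
    linarith
  rw [sum_const, nsmul_eq_mul, card_range] at hcard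
  refine hcard.trans ?_
  push_cast
  set t : ℝ := (Λ : ℝ) + 1 with ht
  have ht0 : 0 < t := by positivity
  obtain ⟨hA, hB⟩ := ht₀ t (by linarith)
  have hA' : t ^ 2 * Real.exp (-(c / 2) * t) ≤ Real.exp (-c) / 2 := by
    have : t ^ (2 : ℝ) = t ^ 2 := by
      rw [← Real.rpow_natCast]; norm_num
    rwa [this] at hA
  have hsq : Real.sqrt t ≤ c / 2 * t := by
    have e1 : 2 / c ≤ Real.sqrt t := Real.le_sqrt_of_sq_le hB
    rw [div_le_iff₀ hc0] at e1
    have e2 : Real.sqrt t * Real.sqrt t = t := Real.mul_self_sqrt ht0.le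
    nlinarith [Real.sqrt_nonneg t]
  have hlogX0 : 0 ≤ Real.log X := by linarith
  have hexpo : (Real.log X) ^ (2 * (1 / 4) : ℝ) ≤ Real.sqrt t := by
    rw [show (2 * (1 / 4) : ℝ) = 1 / 2 by norm_num, ← Real.sqrt_eq_rpow]
    exact Real.sqrt_le_sqrt hlogΛ
  have hrΛ : r ^ Λ = Real.exp (-c * (t - 1)) := by
    rw [ht, hc]
    have : -(-Real.log r) * ((Λ : ℝ) + 1 - 1) = Λ * Real.log r := by ring
    rw [this, Real.exp_nat_mul, Real.exp_log hr0]
  calc t * (t * (2 * (2 * r) ^ Λ)) = (2 : ℝ) ^ Λ * (2 * t ^ 2 * r ^ Λ) := by rw [mul_pow]; ring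
    _ ≤ X * (2 * t ^ 2 * r ^ Λ) := mul_le_mul_of_nonneg_right hΛ1 (by positivity)
    _ ≤ X * Real.exp (-(Real.log X) ^ (2 * (1 / 4) : ℝ)) := by
        apply mul_le_mul_of_nonneg_left _ hX0.le
        rw [hrΛ]
        have e1 : Real.exp (-c * (t - 1)) = Real.exp c * (Real.exp (-(c / 2) * t) * Real.exp (-(c / 2) * t)) := by
          rw [← Real.exp_add, ← Real.exp_add]; congr 1; ring
        have e2 : Real.exp (-(c / 2) * t) ≤ Real.exp (-(Real.log X) ^ (2 * (1 / 4) : ℝ)) := by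
          apply Real.exp_le_exp.2
          linarith
        have e3 : 2 * t ^ 2 * Real.exp (-c * (t - 1))
            = (2 * Real.exp c * (t ^ 2 * Real.exp (-(c / 2) * t))) * Real.exp (-(c / 2) * t) := by
          rw [e1]; ring
        rw [e3]
        have e4 : 2 * Real.exp c * (t ^ 2 * Real.exp (-(c / 2) * t)) ≤ 1 := by
          calc 2 * Real.exp c * (t ^ 2 * Real.exp (-(c / 2) * t)) ≤ 2 * Real.exp c * (Real.exp (-c) / 2) :=
                mul_le_mul_of_nonneg_left hA' (by positivity)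
            _ = Real.exp c * Real.exp (-c) := by ring
            _ = 1 := by rw [← Real.exp_add, add_neg_cancel, Real.exp_zero]
        calc (2 * Real.exp c * (t ^ 2 * Real.exp (-(c / 2) * t))) * Real.exp (-(c / 2) * t)
            ≤ 1 * Real.exp (-(c / 2) * t) := mul_le_mul_of_nonneg_right e4 (Real.exp_pos _).le
          _ ≤ _ := by rw [one_mul]; exact e2

/-- `3^o ≤ 2^(8o/5)` in real form -/
theorem three_le (o : ℕ) : (3 : ℝ) ^ o ≤ Real.exp (8 / 5 * Real.log 2 * o) := by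
  have h1 : (3 : ℝ) ^ o = Real.exp (o * Real.log 3) := by
    rw [Real.exp_nat_mul, Real.exp_log (by norm_num)]
  rw [h1]
  apply Real.exp_le_exp.2
  have := mul_le_mul_of_nonneg_left log3_le (Nat.cast_nonneg (α := ℝ) o)
  linarith

/-- trajectories avoiding `A0` do not climb -/
theorem block {d : ℤ} (hd : d % 2 = 1) {Y X₀ P : ℝ} (hY : 2 ^ 26 ≤ Y)
    (hYd : ((Nat.log 2 ⌊X₀⌋₊ : ℕ) : ℝ) * |(d : ℝ)| ≤ Y) (hdY : |(d : ℝ)| ≤ Y) (hP1 : 1 ≤ P) (hP : X₀ ≤ P ^ 100) :
    ∀ (m : ℕ) (x : ℤ), (∀ i ≤ m, Y ≤ (((Tz d)^[i] x : ℤ) : ℝ)) → (∀ i ≤ m, (Tz d)^[i] x ∉ A0 d) →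
      (x : ℝ) ≤ X₀ → (((Tz d)^[m] x : ℤ) : ℝ) ≤ 2 * P * X₀ := by
  intro m
  induction m using Nat.strong_induction_on with
  | _ m ih =>
    intro x hYx hA hx
    have hY0 : 0 < Y := by linarith [(by positivity : (0 : ℝ) < 2 ^ 26)]
    have hYx0 : Y ≤ (x : ℝ) := hYx 0 (Nat.zero_le _)
    have hxR : (0 : ℝ) < x := by linarith
    have hx0 : 0 < x := by exact_mod_cast hxR
    have hX0 : 0 < X₀ := by linarith
    have hxN : ((x.toNat : ℕ) : ℝ) = x := by
      have : ((x.toNat : ℕ) : ℤ) = x := Int.toNat_of_nonneg hx0.le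
      exact_mod_cast this
    set t := Nat.log 2 x.toNat with ht
    have hlow : (2 : ℝ) ^ t ≤ x := by
      rw [← hxN]
      exact_mod_cast Nat.pow_log_le_self 2 (by omega)
    have hup : (x : ℝ) < 2 ^ (t + 1) := by
      rw [← hxN]
      exact_mod_cast Nat.lt_pow_succ_log_self (by norm_num) _
    have ht25 : 26 ≤ t := by
      by_contra hcon
      push Not at hcon
      have : (2 : ℝ) ^ (t + 1) ≤ 2 ^ 26 := pow_le_pow_right₀ (by norm_num) (by omega)
      linarith
    have htd : (t : ℝ) * |(d : ℝ)| ≤ Y := by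
      refine le_trans ?_ hYd
      apply mul_le_mul_of_nonneg_right _ (abs_nonneg _)
      have : t ≤ Nat.log 2 ⌊X₀⌋₊ := by
        rw [ht]
        apply Nat.log_mono_right
        apply Nat.le_floor
        rw [hxN]; exact hx
      exact_mod_cast this
    have hnA := hA 0 (Nat.zero_le _)
    rw [Function.iterate_zero, id] at hnA
    have hod : ∀ j : ℕ, t ≤ 100 * j → j ≤ t → (od d j x : ℝ) < 0.6 * j := by
      intro j h1 h2
      by_contra hcon
      push Not at hcon
      exact hnA ⟨hx0, j, h1, h2, hcon⟩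
    have hln2 := Real.log_two_gt_d9
    have hgr : ∀ j : ℕ, t ≤ 100 * j → j ≤ t → j ≤ m →
        (((Tz d)^[j] x : ℤ) : ℝ) ≤ 2 * x * Real.exp (-(0.04 * Real.log 2 * j)) := by
      intro j h1 h2 h3
      have hjd : (j : ℝ) * |(d : ℝ)| ≤ Y := by
        refine le_trans ?_ htd
        apply mul_le_mul_of_nonneg_right _ (abs_nonneg _)
        exact_mod_cast h2
      have hg := growth_two hd hY0 hjd hx0 (fun i hi => hYx i (by omega))
      have h4 := three_le (od d j x)
      have h5 : (3 : ℝ) ^ od d j x ≤ Real.exp (0.96 * Real.log 2 * j) := by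
        refine h4.trans (Real.exp_le_exp.2 ?_)
        have := hod j h1 h2
        nlinarith
      have h6 : (2 : ℝ) ^ j = Real.exp (Real.log 2 * j) := by
        rw [mul_comm, Real.exp_nat_mul, Real.exp_log (by norm_num)]
      have h7 : (((Tz d)^[j] x : ℤ) : ℝ) * 2 ^ j ≤ 2 * x * Real.exp (-(0.04 * Real.log 2 * j)) * 2 ^ j := by
        calc (((Tz d)^[j] x : ℤ) : ℝ) * 2 ^ j ≤ 2 * (3 ^ od d j x * x) := hg
          _ ≤ 2 * (Real.exp (0.96 * Real.log 2 * j) * x) := by
              apply mul_le_mul_of_nonneg_left _ (by norm_num)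
              exact mul_le_mul_of_nonneg_right h5 hxR.le
          _ = 2 * x * (Real.exp (-(0.04 * Real.log 2 * j)) * 2 ^ j) := by
              rw [h6, ← Real.exp_add, show -(0.04 * Real.log 2 * (j : ℝ)) + Real.log 2 * j
                = 0.96 * Real.log 2 * j by ring]
              ring
          _ = _ := by ring
      exact le_of_mul_le_mul_right h7 (by positivity)
    have hPX : X₀ ≤ P * X₀ := le_mul_of_one_le_left hX0.le hP1
    rcases le_or_gt m t with hmt | hmt
    · rcases le_or_gt t (100 * m) with h | h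
      · have h1 := hgr m h hmt le_rfl
        have h2 : Real.exp (-(0.04 * Real.log 2 * m)) ≤ 1 := by
          rw [← Real.exp_zero]
          apply Real.exp_le_exp.2
          have : 0 ≤ 0.04 * Real.log 2 * (m : ℝ) := by positivity
          linarith
        have h3 : 2 * (x : ℝ) * Real.exp (-(0.04 * Real.log 2 * m)) ≤ 2 * x * 1 :=
          mul_le_mul_of_nonneg_left h2 (by linarith)
        nlinarith
      · have h1 := crude hd hdY m (fun i hi => hYx i hi.le)
        have h2 : (2 : ℝ) ^ m ≤ P := by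
          have h3 : ((2 : ℝ) ^ m) ^ 100 ≤ P ^ 100 := by
            rw [← pow_mul]
            calc (2 : ℝ) ^ (m * 100) ≤ 2 ^ t := pow_le_pow_right₀ (by norm_num) (by omega)
              _ ≤ x := hlow
              _ ≤ P ^ 100 := hx.trans hP
          exact le_of_pow_le_pow_left₀ (by norm_num) (by linarith) h3
        have h4 : (2 : ℝ) ^ m * x ≤ P * X₀ := mul_le_mul h2 hx hxR.le (by linarith)
        have h5 : 0 ≤ P * X₀ := by positivity
        linarith
    · have h1 := hgr t (by omega) le_rfl hmt.le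
      have h2 : Real.exp (-(0.04 * Real.log 2 * t)) ≤ 1 / 2 := by
        have h3 : (1 / 2 : ℝ) = Real.exp (-Real.log 2) := by
          rw [Real.exp_neg, Real.exp_log (by norm_num)]; norm_num
        rw [h3]
        apply Real.exp_le_exp.2
        have h4 : (26 : ℝ) ≤ t := by exact_mod_cast ht25
        nlinarith
      have h3 : (((Tz d)^[t] x : ℤ) : ℝ) ≤ X₀ := by
        have h4 : 2 * (x : ℝ) * Real.exp (-(0.04 * Real.log 2 * t)) ≤ 2 * x * (1 / 2) :=
          mul_le_mul_of_nonneg_left h2 (by linarith)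
        linarith
      have h4 := ih (m - t) (by omega) ((Tz d)^[t] x) (by
        intro i hi
        rw [← Function.iterate_add_apply]
        exact hYx _ (by omega)) (by
        intro i hi
        rw [← Function.iterate_add_apply]
        exact hA _ (by omega)) h3
      rwa [← Function.iterate_add_apply, Nat.sub_add_cancel hmt.le] at h4

end Pool.Agent.R344.FP
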