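import Pool.Agent.R344.FP.D

/-! Late visits, part E. -/

set_option autoImplicit false

namespace Pool.Agent.R344.FP

open Finset
open Pool.Agent.H499R2.CO (Tz)
open Pool.Agent.H499R2.ND (log3_le log3_ge)
open Pool.Agent.R344.SP Pool.Agent.R344.TH

/-- integers with too many odd terms at some time in `[K,J]` -/
def BadJ (d : ℤ) (η : ℝ) (K J : ℕ) : Set ℤ :=
  {n : ℤ | ∃ j : ℕ, K ≤ j ∧ j ≤ J ∧ (1 / 2 + η) * j ≤ (od d j n : ℝ)}

theorem geo_tail {x : ℝ} (hx : 0 < x) (K J : ℕ) :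
    ∑ j ∈ Icc K J, Real.exp (-(x * j)) ≤ (1 + 1 / x) * Real.exp (-(x * K)) := by
  set q := Real.exp (-x) with hq
  have hq0 : 0 < q := Real.exp_pos _
  have hq1 : q ≤ 1 / (1 + x) := by
    rw [hq, Real.exp_neg, ← one_div]
    apply one_div_le_one_div_of_le (by positivity)
    linarith [Real.add_one_le_exp x]
  have hq1' : q < 1 := lt_of_le_of_lt hq1 (by rw [div_lt_one (by positivity)]; linarith)
  have hpow : ∀ j : ℕ, Real.exp (-(x * j)) = q ^ j := by
    intro j
    rw [hq, ← Real.exp_nat_mul]; congr 1; ring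
  have h1 : ∀ J : ℕ, ∑ j ∈ Icc K J, q ^ j ≤ q ^ K / (1 - q) := by
    intro J
    have h2 : ∑ j ∈ Icc K J, q ^ j ≤ ∑ i ∈ range (J + 1), q ^ (K + i) := by
      have : Icc K J ⊆ (range (J + 1)).image (fun i => K + i) := by
        intro j hj
        rw [mem_Icc] at hj
        rw [mem_image]
        exact ⟨j - K, mem_range.2 (by omega), by omega⟩
      refine (sum_le_sum_of_subset_of_nonneg this (fun _ _ _ => by positivity)).trans (le_of_eq ?_)
      rw [sum_image]
      intro a _ b _ h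
      simp only at h
      omega
    refine h2.trans ?_
    have h3 : ∑ i ∈ range (J + 1), q ^ (K + i) = q ^ K * ∑ i ∈ range (J + 1), q ^ i := by
      rw [mul_sum]; apply sum_congr rfl; intro i _; rw [pow_add]
    rw [h3, div_eq_mul_inv]
    apply mul_le_mul_of_nonneg_left _ (by positivity)
    have h4 := Summable.sum_le_tsum (f := fun j : ℕ => q ^ j) (range (J + 1))
      (fun j _ => by positivity) (summable_geometric_of_lt_one hq0.le hq1')
    rwa [tsum_geometric_of_lt_one hq0.le hq1'] at h4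
  have h5 : 1 / (1 - q) ≤ 1 + 1 / x := by
    have h6 : x / (1 + x) ≤ 1 - q := by
      have : x / (1 + x) = 1 - 1 / (1 + x) := by field_simp; ring
      rw [this]; linarith
    have h7 : 1 / (1 - q) ≤ 1 / (x / (1 + x)) := one_div_le_one_div_of_le (by positivity) h6
    refine h7.trans (le_of_eq ?_)
    field_simp
    ring
  rw [sum_congr rfl (fun j _ => hpow j), hpow K]
  refine (h1 J).trans ?_
  rw [div_eq_mul_one_div, mul_comm]
  exact mul_le_mul_of_nonneg_right h5 (by positivity)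

theorem badJ_count {d : ℤ} (hd : d % 2 = 1) {η : ℝ} (hη : 0 < η) (K J : ℕ) {A : ℝ} (hA : 2 ^ J ≤ A) :
    ct (BadJ d η K J) A ≤ 2 * A * ((1 + 1 / (2 * η ^ 2)) * Real.exp (-(2 * η ^ 2 * K))) := by
  classical
  have hA0 : 0 < A := lt_of_lt_of_le (by positivity) hA
  have hsub : (Wn A).filter (fun n => n ∈ BadJ d η K J)
      ⊆ (Icc K J).biUnion (fun j => (Wn A).filter (fun n => (1 / 2 + η) * j ≤ (od d j n : ℝ))) := by
    intro n hn
    rw [mem_filter] at hn
    obtain ⟨hn1, j, hj1, hj2, hj3⟩ := hn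
    rw [mem_biUnion]
    exact ⟨j, mem_Icc.2 ⟨hj1, hj2⟩, mem_filter.2 ⟨hn1, hj3⟩⟩
  have h1 : ct (BadJ d η K J) A ≤ ∑ j ∈ Icc K J,
      (((Wn A).filter (fun n => (1 / 2 + η) * j ≤ (od d j n : ℝ))).card : ℝ) := by
    unfold ct
    have := (card_le_card hsub).trans card_biUnion_le
    have h2 : (((Wn A).filter (fun n => n ∈ BadJ d η K J)).card : ℝ) ≤ ∑ j ∈ Icc K J,
      (((Wn A).filter (fun n => (1 / 2 + η) * j ≤ (od d j n : ℝ))).card : ℝ) := by exact_mod_cast this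
    convert h2
  refine h1.trans ?_
  have h2 : ∀ j ∈ Icc K J, (((Wn A).filter (fun n => (1 / 2 + η) * j ≤ (od d j n : ℝ))).card : ℝ)
      ≤ 2 * A * Real.exp (-(2 * η ^ 2 * j)) := by
    intro j hj
    rw [mem_Icc] at hj
    refine (od_large_q hd hη.le j hA0.le).trans ?_
    apply mul_le_mul_of_nonneg_right _ (Real.exp_pos _).le
    have : (2 : ℝ) ^ j ≤ 2 ^ J := pow_le_pow_right₀ (by norm_num) hj.2
    linarith
  refine (sum_le_sum h2).trans ?_
  rw [← mul_sum]
  exact mul_le_mul_of_nonneg_left (geo_tail (by positivity) K J) (by positivity)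

/-- the rate of decay -/
noncomputable def lam (η : ℝ) : ℝ := 1 / 2 * Real.log (4 / 3) - η * Real.log 3

theorem log43 : Real.log (4 / 3) = 2 * Real.log 2 - Real.log 3 := by
  rw [Real.log_div (by norm_num) (by norm_num), show (4 : ℝ) = 2 ^ 2 by norm_num, Real.log_pow]
  norm_num

theorem log43_ge : 0.277 ≤ Real.log (4 / 3) := by
  rw [log43]
  have h1 := log3_le
  have h2 := Real.log_two_gt_d9
  nlinarith

theorem log43_le : Real.log (4 / 3) ≤ 0.289 := by
  rw [log43]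
  have h1 := log3_ge
  have h2 := Real.log_two_lt_d9
  nlinarith

theorem log3_up : Real.log 3 ≤ 1.11 := by
  have h1 := log3_le
  have h2 := Real.log_two_lt_d9
  linarith

theorem lam_ge {η : ℝ} (hη : η ≤ 1 / 20) : 0.083 ≤ lam η := by
  unfold lam
  have h1 := log43_ge
  have h2 := log3_up
  have h3 : 0 ≤ Real.log 3 := Real.log_nonneg (by norm_num)
  nlinarith

theorem lam_le {η : ℝ} (hη : 0 ≤ η) : lam η ≤ 0.15 := by
  unfold lam
  have h1 := log43_le
  have h3 : 0 ≤ Real.log 3 := Real.log_nonneg (by norm_num)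
  nlinarith [mul_nonneg hη h3]

/-- size after `j` steps with few odd terms -/
theorem size_few {d : ℤ} (hd : d % 2 = 1) {η Y X : ℝ} (hY : 0 < Y) {n : ℤ} (hn0 : 0 < n)
    (hn : (n : ℝ) ≤ X) {j : ℕ} (hjd : (j : ℝ) * |(d : ℝ)| ≤ Y)
    (hpos : ∀ i < j, Y ≤ (((Tz d)^[i] n : ℤ) : ℝ)) (hod : (od d j n : ℝ) ≤ (1 / 2 + η) * j) :
    (((Tz d)^[j] n : ℤ) : ℝ) ≤ 2 * X * Real.exp (-(lam η * j)) := by
  have hnR : (0 : ℝ) < n := by exact_mod_cast hn0
  have hg := growth_two hd hY hjd hn0 hpos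
  have h3 : 0 ≤ Real.log 3 := Real.log_nonneg (by norm_num)
  have h5 : (3 : ℝ) ^ od d j n ≤ Real.exp ((1 / 2 + η) * j * Real.log 3) := by
    have h1 : (3 : ℝ) ^ od d j n = Real.exp (od d j n * Real.log 3) := by
      rw [Real.exp_nat_mul, Real.exp_log (by norm_num)]
    rw [h1]
    exact Real.exp_le_exp.2 (mul_le_mul_of_nonneg_right hod h3)
  have h6 : (2 : ℝ) ^ j = Real.exp (j * Real.log 2) := by
    rw [Real.exp_nat_mul, Real.exp_log (by norm_num)]
  have h7 : (((Tz d)^[j] n : ℤ) : ℝ) * 2 ^ j ≤ 2 * X * Real.exp (-(lam η * j)) * 2 ^ j := by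
    calc (((Tz d)^[j] n : ℤ) : ℝ) * 2 ^ j ≤ 2 * (3 ^ od d j n * n) := hg
      _ ≤ 2 * (Real.exp ((1 / 2 + η) * j * Real.log 3) * X) := by
          apply mul_le_mul_of_nonneg_left _ (by norm_num)
          exact mul_le_mul h5 hn hnR.le (Real.exp_pos _).le
      _ = 2 * X * (Real.exp (-(lam η * j)) * 2 ^ j) := by
          rw [h6, ← Real.exp_add]
          have : -(lam η * (j : ℝ)) + j * Real.log 2 = (1 / 2 + η) * j * Real.log 3 := by
            unfold lam; rw [log43]; ring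
          rw [this]; ring
      _ = _ := by ring
  exact le_of_mul_le_mul_right h7 (by positivity)

/-- the exceptional set -/
def Bad (d : ℤ) (z η : ℝ) (K : ℕ) : Set ℤ :=
  HY d (A0 d) (z ^ (1 / 100 : ℝ)) ∪ BadJ d η K (Nat.log 2 ⌊z⌋₊)

/-- outside the exceptional set there are no late visits -/
theorem visit {d : ℤ} (hd : d % 2 = 1) : ∃ z₀ : ℝ, 2 ≤ z₀ ∧ ∀ z : ℝ, z₀ ≤ z → ∀ η : ℝ, 0 < η → η ≤ 1 / 20 →
    ∀ K : ℕ, K ≤ Nat.log 2 ⌊z⌋₊ → ∀ X : ℝ, X ≤ z * z ^ (1 / 100 : ℝ) → 2 * X < z * Real.exp (lam η * K) →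
    ∀ n : ℤ, (n : ℝ) ≤ X → n ∉ Bad d z η K → ∀ j : ℕ,
      (∀ i ≤ j, z ^ (1 / 100 : ℝ) ≤ (((Tz d)^[i] n : ℤ) : ℝ)) → z ≤ (((Tz d)^[j] n : ℤ) : ℝ) → j < K := by
  -- growth of `Y` against `log z`
  have hev1 : ∀ᶠ l : ℝ in Filter.atTop, (1.5 * |(d : ℝ)| + 3 + |(d : ℝ)|) * (l + 1) ≤ Real.exp (l / 100) := by
    have h1 := Real.tendsto_exp_div_pow_atTop 2
    have h2 := h1.comp (Filter.tendsto_id.atTop_div_const (by norm_num : (0 : ℝ) < 100))
    filter_upwards [h2.eventually_ge_atTop (20000 * (1.5 * |(d : ℝ)| + 3 + |(d : ℝ)|)),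
      Filter.eventually_ge_atTop 1] with l h3 h4
    simp only [Function.comp, id] at h3
    rw [le_div_iff₀ (by positivity)] at h3
    have hd0 := abs_nonneg (d : ℝ)
    have h5 : (1.5 * |(d : ℝ)| + 3 + |(d : ℝ)|) * (l + 1)
        ≤ 20000 * (1.5 * |(d : ℝ)| + 3 + |(d : ℝ)|) * (l / 100) ^ 2 := by
      have h6 : l + 1 ≤ 20000 * (l / 100) ^ 2 := by nlinarith
      calc (1.5 * |(d : ℝ)| + 3 + |(d : ℝ)|) * (l + 1)
          ≤ (1.5 * |(d : ℝ)| + 3 + |(d : ℝ)|) * (20000 * (l / 100) ^ 2) :=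
            mul_le_mul_of_nonneg_left h6 (by positivity)
        _ = _ := by ring
    exact h5.trans h3
  have hev2 : ∀ᶠ l : ℝ in Filter.atTop, (10000 : ℝ) ≤ l := Filter.eventually_ge_atTop _
  obtain ⟨l₀, hl₀⟩ := Filter.eventually_atTop.1 (hev1.and hev2)
  refine ⟨max 2 (Real.exp l₀), le_max_left _ _, ?_⟩
  intro z hz η hη0 hη K hKJ X hX hXK n hnX hnB j hpos hj
  have hz2 : 2 ≤ z := (le_max_left _ _).trans hz
  have hz0 : 0 < z := by linarith
  set l := Real.log z with hl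
  have hexp : Real.exp l = z := Real.exp_log hz0
  have hll : l₀ ≤ l := by
    rw [hl, Real.le_log_iff_exp_le hz0]; exact (le_max_right _ _).trans hz
  obtain ⟨hc1, hc2⟩ := hl₀ l hll
  set Y := z ^ (1 / 100 : ℝ) with hY
  have hYe : Y = Real.exp (l / 100) := by
    rw [hY, Real.rpow_def_of_pos hz0, ← hl]; congr 1; ring
  have hY0 : 0 < Y := by rw [hYe]; positivity
  have hY100 : Y ^ 100 = z := by
    rw [hYe, ← Real.exp_nat_mul, ← hexp]; congr 1; push_cast; ring
  have hYbig : 2 ^ 26 ≤ Y := by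
    rw [hYe]
    have h1 : (2 : ℝ) ^ 26 ≤ Real.exp 26 := by
      have h2 : (2 : ℝ) ≤ Real.exp 1 := by linarith [Real.add_one_le_exp (1 : ℝ)]
      calc (2 : ℝ) ^ 26 ≤ (Real.exp 1) ^ 26 := pow_le_pow_left₀ (by norm_num) h2 26
        _ = Real.exp 26 := by rw [← Real.exp_nat_mul]; norm_num
    refine h1.trans (Real.exp_le_exp.2 ?_)
    linarith
  have hd0 := abs_nonneg (d : ℝ)
  have hln2a := Real.log_two_gt_d9
  have hln2b := Real.log_two_lt_d9
  set J := Nat.log 2 ⌊z⌋₊ with hJ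
  have hfl : 1 ≤ ⌊z⌋₊ := by rw [Nat.one_le_floor_iff]; linarith
  have hJ1 : (2 : ℝ) ^ J ≤ z := by
    have h1 : 2 ^ J ≤ ⌊z⌋₊ := by rw [hJ]; exact Nat.pow_log_le_self 2 (by omega)
    calc (2 : ℝ) ^ J = ((2 ^ J : ℕ) : ℝ) := by push_cast; rfl
      _ ≤ (⌊z⌋₊ : ℝ) := by exact_mod_cast h1
      _ ≤ z := Nat.floor_le hz0.le
  have hJ2 : z < 2 ^ (J + 1) := by
    have h1 : ⌊z⌋₊ < 2 ^ (J + 1) := by rw [hJ]; exact Nat.lt_pow_succ_log_self (by norm_num) _
    rw [Nat.floor_lt hz0.le] at h1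
    push_cast at h1
    exact h1
  have hJl : (J : ℝ) ≤ 1.5 * l := by
    have h1 := Real.log_le_log (by positivity) hJ1
    rw [Real.log_pow] at h1
    nlinarith
  have hJl2 : l ≤ ((J : ℝ) + 1) * Real.log 2 := by
    have h1 := Real.log_le_log hz0 hJ2.le
    rw [Real.log_pow] at h1
    push_cast at h1
    exact h1
  have hJd : (J : ℝ) * |(d : ℝ)| ≤ Y := by
    rw [hYe]
    refine le_trans ?_ hc1
    have : (J : ℝ) * |(d : ℝ)| ≤ 1.5 * l * |(d : ℝ)| := mul_le_mul_of_nonneg_right hJl hd0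
    nlinarith
  have hdY : |(d : ℝ)| ≤ Y := by
    rw [hYe]
    refine le_trans ?_ hc1
    nlinarith
  have hnpos : 0 < n := by
    have h1 := hpos 0 (Nat.zero_le _)
    rw [Function.iterate_zero, id] at h1
    have : (0 : ℝ) < n := by linarith
    exact_mod_cast this
  have hnR : (0 : ℝ) < n := by exact_mod_cast hnpos
  have hX0 : 0 < X := by linarith
  have hnHY : n ∉ HY d (A0 d) Y := fun h => hnB (Or.inl h)
  have hnJ : n ∉ BadJ d η K J := fun h => hnB (Or.inr h)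
  have hod : ∀ i : ℕ, K ≤ i → i ≤ J → (od d i n : ℝ) ≤ (1 / 2 + η) * i := by
    intro i h1 h2
    by_contra hcon
    push Not at hcon
    exact hnJ ⟨i, h1, h2, hcon.le⟩
  have hlam := lam_ge hη
  have hlam0 : 0 < lam η := by linarith
  by_contra hcon
  push Not at hcon
  rcases le_or_gt j J with hjJ | hjJ
  · have h1 := size_few hd hY0 hnpos hnX (j := j) (by
      refine le_trans ?_ hJd
      apply mul_le_mul_of_nonneg_right _ hd0
      exact_mod_cast hjJ) (fun i hi => hpos i hi.le) (hod j hcon hjJ)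
    have h2 : Real.exp (-(lam η * j)) ≤ Real.exp (-(lam η * K)) := by
      apply Real.exp_le_exp.2
      have : (K : ℝ) ≤ j := by exact_mod_cast hcon
      nlinarith
    have h3 : 2 * X * Real.exp (-(lam η * K)) < z := by
      rw [Real.exp_neg, ← div_eq_mul_inv, div_lt_iff₀ (Real.exp_pos _)]; exact hXK
    have h4 : 2 * X * Real.exp (-(lam η * j)) ≤ 2 * X * Real.exp (-(lam η * K)) :=
      mul_le_mul_of_nonneg_left h2 (by linarith)
    linarith
  · have h1 := size_few hd hY0 hnpos hnX (j := J) hJd (fun i hi => hpos i (by omega)) (hod J hKJ le_rfl)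
    set X₀ := 2 * X * Real.exp (-(lam η * J)) with hX₀
    have hX₀0 : 0 < X₀ := by positivity
    -- `X₀ ≤ z exp(-l/10)`
    have hX₀le : X₀ ≤ Real.exp (l + l / 100 - 0.11 * l + 1) := by
      have e1 : X ≤ Real.exp (l + l / 100) := by
        refine hX.trans (le_of_eq ?_)
        rw [hYe, Real.exp_add, hexp]
      have e2 : Real.exp (-(lam η * J)) ≤ Real.exp (-(0.11 * l) + 0.15) := by
        apply Real.exp_le_exp.2
        have h5 : l / Real.log 2 ≤ (J : ℝ) + 1 := by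
          rw [div_le_iff₀ (by linarith)]; exact hJl2
        have h6 : 1.4 * l ≤ l / Real.log 2 := by
          rw [le_div_iff₀ (by linarith)]; nlinarith
        have h7 := lam_le hη0.le
        have h8 : 0.083 * (J : ℝ) ≤ lam η * J := mul_le_mul_of_nonneg_right hlam (Nat.cast_nonneg _)
        linarith
      have e3 : (2 : ℝ) ≤ Real.exp 0.7 := by
        have : (2 : ℝ) = Real.exp (Real.log 2) := (Real.exp_log (by norm_num)).symm
        rw [this]
        exact Real.exp_le_exp.2 (by linarith)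
      calc X₀ ≤ Real.exp 0.7 * Real.exp (l + l / 100) * Real.exp (-(0.11 * l) + 0.15) := by
            rw [hX₀]
            apply mul_le_mul _ e2 (Real.exp_pos _).le (by positivity)
            exact mul_le_mul e3 e1 hX0.le (Real.exp_pos _).le
        _ = Real.exp (0.7 + (l + l / 100) + (-(0.11 * l) + 0.15)) := by
            rw [← Real.exp_add, ← Real.exp_add]
        _ ≤ _ := Real.exp_le_exp.2 (by linarith)
    have hX₀z : X₀ ≤ z := by
      rw [← hexp]
      exact hX₀le.trans (Real.exp_le_exp.2 (by linarith))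
    have hblk := block hd (Y := Y) (X₀ := X₀) (P := Y) hYbig (by
      refine le_trans ?_ hJd
      apply mul_le_mul_of_nonneg_right _ hd0
      have : Nat.log 2 ⌊X₀⌋₊ ≤ J := by
        rw [hJ]
        exact Nat.log_mono_right (Nat.floor_le_floor hX₀z)
      exact_mod_cast this) hdY (by linarith [(by norm_num : (1 : ℝ) ≤ 2 ^ 26)]) (by rw [hY100]; exact hX₀z)
      (j - J) ((Tz d)^[J] n) (by
        intro i hi
        rw [← Function.iterate_add_apply]
        exact hpos _ (by omega)) (by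
        intro i hi h
        rw [← Function.iterate_add_apply] at h
        exact hnHY ⟨i + J, h, fun i' hi' => hpos i' (by omega)⟩) h1
    rw [← Function.iterate_add_apply, Nat.sub_add_cancel hjJ.le] at hblk
    have hfin : 2 * Y * X₀ < z := by
      have e3 : (2 : ℝ) ≤ Real.exp 0.7 := by
        have : (2 : ℝ) = Real.exp (Real.log 2) := (Real.exp_log (by norm_num)).symm
        rw [this]
        exact Real.exp_le_exp.2 (by linarith)
      calc 2 * Y * X₀ ≤ Real.exp 0.7 * Real.exp (l / 100) * Real.exp (l + l / 100 - 0.11 * l + 1) := by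
            rw [hYe]
            apply mul_le_mul _ hX₀le hX₀0.le (by positivity)
            exact mul_le_mul_of_nonneg_right e3 (Real.exp_pos _).le
        _ = Real.exp (0.7 + l / 100 + (l + l / 100 - 0.11 * l + 1)) := by
            rw [← Real.exp_add, ← Real.exp_add]
        _ < Real.exp l := Real.exp_lt_exp.2 (by linarith)
        _ = z := hexp
    linarith

/-- the exceptional set is small -/
theorem bad_count {d : ℤ} (hd : Odd d) (hd3 : IsCoprime d 3) (B : ℕ) : ∃ z₀ C : ℝ, 2 ≤ z₀ ∧ 0 < C ∧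
    ∀ z : ℝ, z₀ ≤ z → ∀ η : ℝ, 0 < η → η ≤ 1 / 20 → ∀ (K : ℕ) (A : ℝ), z ≤ A →
      ct (Bad d z η K) A ≤ A * (C / (Real.log z) ^ B + 4 / η ^ 2 * Real.exp (-(2 * η ^ 2 * K))) := by
  classical
  have hd2 := Int.odd_iff.1 hd
  obtain ⟨l₁, hl₁, hthin⟩ := A0_thin hd2
  obtain ⟨l₀, C, hl₀, hC, hH⟩ := HY_count hd hd3 (γ := 1 / 4) (by norm_num) (by norm_num) B
  refine ⟨max 2 (Real.exp (100 * (max l₀ l₁))), 4 * C * 100 ^ B, le_max_left _ _, by positivity, ?_⟩
  intro z hz η hη0 hη K A hA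
  have hz2 : 2 ≤ z := (le_max_left _ _).trans hz
  have hz0 : 0 < z := by linarith
  set Y := z ^ (1 / 100 : ℝ) with hY
  have hY0 : 0 < Y := by rw [hY]; positivity
  have hlogY : Real.log Y = Real.log z / 100 := by
    rw [hY, Real.log_rpow hz0]; ring
  have hlz : 100 * (max l₀ l₁) ≤ Real.log z := by
    rw [Real.le_log_iff_exp_le hz0]; exact (le_max_right _ _).trans hz
  have hlY : max l₀ l₁ ≤ Real.log Y := by rw [hlogY]; linarith
  have hlY0 : 0 < Real.log Y := lt_of_lt_of_le hl₀ ((le_max_left _ _).trans hlY)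
  have hA0 : 0 < A := by linarith
  have h1 : ct (HY d (A0 d) Y) A ≤ A * (4 * C * 100 ^ B / (Real.log z) ^ B) := by
    have h2 := hH Y hY0 ((le_max_left _ _).trans hlY) (A0 d) (hthin Y hY0 ((le_max_right _ _).trans hlY))
      ⌈2 * A⌉₊
    have h3 : ct (HY d (A0 d) Y) A ≤ (((Icc (1 : ℤ) (⌈2 * A⌉₊ : ℕ)).filter (fun n => n ∈ HY d (A0 d) Y)).card : ℝ) := by
      unfold ct
      have : (Wn A).filter (fun n => n ∈ HY d (A0 d) Y)
          ⊆ (Icc (1 : ℤ) (⌈2 * A⌉₊ : ℕ)).filter (fun n => n ∈ HY d (A0 d) Y) := by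
        intro x hx
        rw [mem_filter, mem_Wn] at hx
        rw [mem_filter, Finset.mem_Icc]
        have e1 : (0 : ℝ) < x := by linarith [hx.1.1]
        have e2 : 0 < x := by exact_mod_cast e1
        have e3 : (x : ℝ) ≤ ((⌈2 * A⌉₊ : ℕ) : ℝ) := hx.1.2.le.trans (Nat.le_ceil _)
        exact ⟨⟨by omega, by exact_mod_cast e3⟩, hx.2⟩
      exact_mod_cast card_le_card this
    refine h3.trans (h2.trans ?_)
    have h4 : ((⌈2 * A⌉₊ : ℕ) : ℝ) ≤ 4 * A := by
      have := (Nat.ceil_lt_add_one (by linarith : 0 ≤ 2 * A)).le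
      linarith
    rw [hlogY, div_pow]
    calc C * ((⌈2 * A⌉₊ : ℕ) : ℝ) / (Real.log z ^ B / 100 ^ B)
        ≤ C * (4 * A) / (Real.log z ^ B / 100 ^ B) := by
          apply div_le_div_of_nonneg_right _ (by
            have : 0 < Real.log z := by rw [hlogY] at hlY0; linarith
            positivity)
          exact mul_le_mul_of_nonneg_left h4 hC.le
      _ = _ := by
          have : 0 < Real.log z := by rw [hlogY] at hlY0; linarith
          field_simp
  have hJA : (2 : ℝ) ^ Nat.log 2 ⌊z⌋₊ ≤ A := by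
    refine le_trans ?_ hA
    have hfl : 1 ≤ ⌊z⌋₊ := by rw [Nat.one_le_floor_iff]; linarith
    have h1 : 2 ^ Nat.log 2 ⌊z⌋₊ ≤ ⌊z⌋₊ := Nat.pow_log_le_self 2 (by omega)
    calc (2 : ℝ) ^ Nat.log 2 ⌊z⌋₊ = ((2 ^ Nat.log 2 ⌊z⌋₊ : ℕ) : ℝ) := by push_cast; rfl
      _ ≤ (⌊z⌋₊ : ℝ) := by exact_mod_cast h1
      _ ≤ z := Nat.floor_le hz0.le
  have h2 := badJ_count hd2 hη0 K (Nat.log 2 ⌊z⌋₊) hJA
  have h3 : 2 * A * ((1 + 1 / (2 * η ^ 2)) * Real.exp (-(2 * η ^ 2 * K)))
      ≤ A * (4 / η ^ 2 * Real.exp (-(2 * η ^ 2 * K))) := by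
    have e1 : 2 * (1 + 1 / (2 * η ^ 2)) ≤ 4 / η ^ 2 := by
      rw [le_div_iff₀ (by positivity)]
      have : 2 * (1 + 1 / (2 * η ^ 2)) * η ^ 2 = 2 * η ^ 2 + 1 := by field_simp
      rw [this]
      nlinarith
    calc 2 * A * ((1 + 1 / (2 * η ^ 2)) * Real.exp (-(2 * η ^ 2 * K)))
        = A * ((2 * (1 + 1 / (2 * η ^ 2))) * Real.exp (-(2 * η ^ 2 * K))) := by ring
      _ ≤ _ := by
          apply mul_le_mul_of_nonneg_left _ hA0.le
          exact mul_le_mul_of_nonneg_right e1 (Real.exp_pos _).le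
  have h4 : ct (Bad d z η K) A ≤ ct (HY d (A0 d) Y) A + ct (BadJ d η K (Nat.log 2 ⌊z⌋₊)) A := by
    unfold Bad
    exact ct_union _ _ A
  rw [mul_add]
  linarith

end Pool.Agent.R344.FP
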