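import Pool.Agent.R344.FP.E

/-! Densities of predecessor sets, part F: good targets. -/

set_option autoImplicit false

namespace Pool.Agent.R344.FP

open Finset Filter Topology MeasureTheory
open Pool.Agent.H320R2.PD Pool.Agent.H499R2.ND
open Pool.Agent.H499R2.CO (Tz)
open Pool.Agent.H499R2.HL
open Pool.Agent.R344.SP Pool.Agent.R344.TH

/-- integers visited from below `Y` -/
def Lo (d : ℤ) (Y : ℝ) : Set ℤ := {b : ℤ | ∃ x : ℤ, 0 < x ∧ (x : ℝ) < Y ∧ ∃ k : ℕ, (Tz d)^[k] x = b}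

/-- targets -/
def Ta (d : ℤ) (z : ℝ) : Set ℤ := {b : ℤ | (z ≤ (b : ℝ) ∧ (b : ℝ) < 2 * z) ∧ b ∉ Lo d (z ^ (1 / 100 : ℝ))}

/-- good targets -/
def Go (d : ℤ) (z : ℝ) (κ : ℕ) : Set ℤ := {b : ℤ | b ∈ Ta d z ∧ ∀ k, κ ≤ k → (Tz d)^[k] b ∉ Ta d z}

/-- the integers whose trajectory meets `b` -/
def Pre (d b : ℤ) : Set ℤ := {x : ℤ | ∃ k : ℕ, (Tz d)^[k] x = b}

theorem T_pos {d : ℤ} (hd : -1 ≤ d) {x : ℤ} (hx : 0 < x) : 0 < Tz d x := by
  unfold Tz
  split_ifs with h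
  · omega
  · have : 1 ≤ x := hx
    omega

theorem iter_pos {d : ℤ} (hd : -1 ≤ d) {x : ℤ} (hx : 0 < x) : ∀ k : ℕ, 0 < (Tz d)^[k] x
  | 0 => hx
  | k + 1 => by rw [Function.iterate_succ_apply']; exact T_pos hd (iter_pos hd hx k)

theorem above {d : ℤ} (hd : -1 ≤ d) {z : ℝ} {x : ℤ} (hx : 0 < x) {j : ℕ} (h : (Tz d)^[j] x ∈ Ta d z) :
    ∀ i ≤ j, z ^ (1 / 100 : ℝ) ≤ (((Tz d)^[i] x : ℤ) : ℝ) := by
  intro i hi
  by_contra hcon
  push Not at hcon
  apply h.2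
  refine ⟨(Tz d)^[i] x, iter_pos hd hx i, hcon, j - i, ?_⟩
  rw [← Function.iterate_add_apply, Nat.sub_add_cancel hi]

theorem iter_mul {f : ℤ → ℤ} {b : ℤ} {k : ℕ} (h : f^[k] b = b) : ∀ m : ℕ, f^[m * k] b = b
  | 0 => by simp
  | m + 1 => by rw [Nat.succ_mul, Function.iterate_add_apply, h, iter_mul h m]

theorem Go_np {d : ℤ} {z : ℝ} {κ : ℕ} {b : ℤ} (hb : b ∈ Go d z κ) {k : ℕ} (hk : 1 ≤ k) :
    (Tz d)^[k] b ≠ b := by
  intro h
  have h1 := iter_mul h κ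
  apply hb.2 (κ * k) (Nat.le_mul_of_pos_right κ hk)
  rw [h1]; exact hb.1

/-- the time of a visit is unique -/
theorem visit_unique {d : ℤ} {z : ℝ} {κ : ℕ} {b x : ℤ} (hb : b ∈ Go d z κ) {j j' : ℕ}
    (h : (Tz d)^[j] x = b) (h' : (Tz d)^[j'] x = b) : j = j' := by
  rcases lt_trichotomy j j' with h1 | h1 | h1
  · exfalso
    apply Go_np hb (k := j' - j) (by omega)
    rw [← h, ← Function.iterate_add_apply, Nat.sub_add_cancel h1.le, h', h]
  · exact h1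
  · exfalso
    apply Go_np hb (k := j - j') (by omega)
    rw [← h', ← Function.iterate_add_apply, Nat.sub_add_cancel h1.le, h, h']

open scoped Classical in
/-- the number of good targets visited -/
theorem visits_le {d : ℤ} {z : ℝ} {κ : ℕ} {E : Finset ℤ} (hE : ∀ b ∈ E, b ∈ Go d z κ) (x : ℤ) :
    (E.filter (fun b => x ∈ Pre d b)).card ≤ κ := by
  by_cases hex : ∃ j : ℕ, (Tz d)^[j] x ∈ Go d z κ
  · set j₀ := Nat.find hex with hj₀
    have h0 := Nat.find_spec hex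
    have hsub : E.filter (fun b => x ∈ Pre d b) ⊆ (range κ).image (fun i => (Tz d)^[j₀ + i] x) := by
      intro b hb
      rw [mem_filter] at hb
      obtain ⟨hbE, j, hj⟩ := hb
      have h1 : j₀ ≤ j := Nat.find_min' hex (by rw [hj]; exact hE b hbE)
      rw [mem_image]
      refine ⟨j - j₀, ?_, by rw [Nat.add_sub_cancel' h1]; exact hj⟩
      rw [mem_range]
      by_contra hcon
      push Not at hcon
      apply h0.2 (j - j₀) hcon
      rw [← Function.iterate_add_apply, Nat.sub_add_cancel h1, hj]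
      exact (hE b hbE).1
    refine (card_le_card hsub).trans (card_image_le.trans ?_)
    rw [card_range]
  · have : E.filter (fun b => x ∈ Pre d b) = ∅ := by
      rw [Finset.eq_empty_iff_forall_notMem]
      intro b hb
      rw [mem_filter] at hb
      obtain ⟨hbE, j, hj⟩ := hb
      exact hex ⟨j, by rw [hj]; exact hE b hbE⟩
    rw [this]; simp

theorem Pre_inv {d b : ℤ} {Z : ℝ} (hb : (b : ℝ) < Z) : InvA d Z (Pre d b) := by
  intro x hx
  constructor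
  · rintro ⟨k, hk⟩
    cases k with
    | zero =>
      exfalso
      rw [Function.iterate_zero, id] at hk
      rw [hk] at hx
      linarith
    | succ k => exact ⟨k, by rwa [Function.iterate_succ_apply] at hk⟩
  · rintro ⟨k, hk⟩
    exact ⟨k + 1, by rwa [Function.iterate_succ_apply]⟩

open scoped Classical in
/-- the integers which visit at least `j` elements of `E` -/
def Sj (d : ℤ) (E : Finset ℤ) (j : ℕ) : Set ℤ := {x : ℤ | j ≤ (E.filter (fun b => x ∈ Pre d b)).card}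

theorem Sj_inv {d : ℤ} {Z : ℝ} {E : Finset ℤ} (hE : ∀ b ∈ E, (b : ℝ) < Z) (j : ℕ) : InvA d Z (Sj d E j) := by
  classical
  intro x hx
  unfold Sj
  rw [Set.mem_setOf_eq, Set.mem_setOf_eq]
  have : E.filter (fun b => x ∈ Pre d b) = E.filter (fun b => Tz d x ∈ Pre d b) := by
    apply filter_congr
    intro b hb
    exact Pre_inv (hE b hb) x hx
  rw [this]

theorem win_id {d : ℤ} {κ : ℕ} {E : Finset ℤ} (hE : ∀ x : ℤ,
    (open scoped Classical in (E.filter (fun b => x ∈ Pre d b)).card) ≤ κ) (a b' : ℝ) :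
    ∑ j ∈ Icc 1 κ, ((wc (Sj d E j) a b' 1 0).card : ℝ) = ∑ b ∈ E, ((wc (Pre d b) a b' 1 0).card : ℝ) := by
  classical
  have hwc : ∀ S : Set ℤ, ((wc S a b' 1 0).card : ℝ) = ∑ x ∈ Ico ⌈a⌉ ⌈b'⌉, if x ∈ S then (1 : ℝ) else 0 := by
    intro S
    rw [← sum_filter, sum_const, nsmul_eq_mul, mul_one]
    congr 2
    ext x
    rw [mem_wc, mem_filter, mem_win]
    simp
  simp only [hwc]
  rw [sum_comm, sum_comm (s := E)]
  apply sum_congr rfl
  intro x _
  have h1 : ∑ b ∈ E, (if x ∈ Pre d b then (1 : ℝ) else 0) = (E.filter (fun b => x ∈ Pre d b)).card := by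
    rw [← sum_filter, sum_const, nsmul_eq_mul, mul_one]
  rw [h1]
  have h2 : ∑ j ∈ Icc 1 κ, (if x ∈ Sj d E j then (1 : ℝ) else 0)
      = ((Icc 1 κ).filter (fun j => j ≤ (E.filter (fun b => x ∈ Pre d b)).card)).card := by
    rw [← sum_filter, sum_const, nsmul_eq_mul, mul_one]
    congr 2
    apply filter_congr
    intro j _
    unfold Sj
    rw [Set.mem_setOf_eq]
  rw [h2]
  have h3 : (Icc 1 κ).filter (fun j => j ≤ (E.filter (fun b => x ∈ Pre d b)).card)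
      = Icc 1 (E.filter (fun b => x ∈ Pre d b)).card := by
    have h4 : (E.filter (fun b => x ∈ Pre d b)).card ≤ κ := by convert hE x
    ext j
    rw [mem_filter, mem_Icc, mem_Icc]
    omega
  rw [h3]
  simp

theorem Fd_id {d : ℤ} {κ : ℕ} {E : Finset ℤ} (hE : ∀ x : ℤ,
    (open scoped Classical in (E.filter (fun b => x ∈ Pre d b)).card) ≤ κ) (t : ℝ) :
    ∑ j ∈ Icc 1 κ, Fd (Sj d E j) t = ∑ b ∈ E, Fd (Pre d b) t := by
  have he := Real.exp_pos t
  have h1 := win_id hE (Real.exp t) (2 * Real.exp t)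
  have h2 : ∀ S : Set ℤ, Fd S t = ((wc S (Real.exp t) (2 * Real.exp t) 1 0).card : ℝ) / (3 * Real.exp t) := by
    intro S
    rw [← Fd_win, mul_div_assoc, div_self (by positivity), mul_one]
  simp only [h2]
  rw [← sum_div, ← sum_div, h1]

theorem Fd_intble (S : Set ℤ) (a b : ℝ) : IntervalIntegrable (Fd S) volume a b :=
  intble (Fd_meas S) (Fd_nonneg S) (Fd_le_one S) a b

/-- the densities of predecessor sets from logarithmic averages -/
theorem sumE {d : ℤ} (hd : Odd d) (hd3 : IsCoprime d 3) : ∃ K : ℝ, 0 < K ∧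
    ∀ z : ℝ, |(d : ℝ)| ≤ 2 * z → 1 ≤ z → ∀ κ : ℕ, ∀ E : Finset ℤ, (∀ b ∈ E, b ∈ Go d z κ) →
      ∀ l : ℤ → ℝ, (∀ b ∈ E, Tendsto (Fd (Pre d b)) atTop (𝓝 (l b))) →
      ∀ τ₀ R : ℝ, 1002 ≤ τ₀ → 0 ≤ R →
        |Real.log (4 / 3) * (∑ b ∈ E, (∫ t in (τ₀ + Real.log (2 * z))..(τ₀ + Real.log (2 * z) + R), Fd (Pre d b) t)
          - (∑ b ∈ E, l b) * R)| ≤ κ * (K * R / τ₀ + 4) := by
  obtain ⟨K, hK, hlim⟩ := lim_II hd hd3
  refine ⟨K, hK, ?_⟩
  intro z hdz hz1 κ E hE l hl τ₀ R hτ hR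
  classical
  have hE' : ∀ b ∈ E, (b : ℝ) < 2 * z := fun b hb => (hE b hb).1.1.2
  have hvis : ∀ x : ℤ, (E.filter (fun b => x ∈ Pre d b)).card ≤ κ := fun x => visits_le hE x
  choose lj hlj1 hlj2 using fun j : ℕ => hlim (2 * z) hdz (by linarith) (Sj d E j) (Sj_inv hE' j)
  set Λ := Real.log (2 * z) with hΛ
  have hsum : ∑ j ∈ Icc 1 κ, lj j = ∑ b ∈ E, l b := by
    have h1 : Tendsto (fun t => ∑ j ∈ Icc 1 κ, Fd (Sj d E j) t) atTop (𝓝 (∑ j ∈ Icc 1 κ, lj j)) :=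
      tendsto_finsetSum _ fun j _ => hlj1 j
    have h2 : Tendsto (fun t => ∑ b ∈ E, Fd (Pre d b) t) atTop (𝓝 (∑ b ∈ E, l b)) :=
      tendsto_finsetSum _ fun b hb => hl b hb
    have h3 : (fun t => ∑ j ∈ Icc 1 κ, Fd (Sj d E j) t) = fun t => ∑ b ∈ E, Fd (Pre d b) t := by
      funext t; exact Fd_id hvis t
    rw [h3] at h1
    exact tendsto_nhds_unique h1 h2
  have hint : ∑ b ∈ E, (∫ t in (τ₀ + Λ)..(τ₀ + Λ + R), Fd (Pre d b) t)
      = ∑ j ∈ Icc 1 κ, ∫ t in τ₀..(τ₀ + R), Fs (Sj d E j) (2 * z) t := by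
    have e1 : ∀ j, ∫ t in τ₀..(τ₀ + R), Fs (Sj d E j) (2 * z) t
        = ∫ t in (τ₀ + Λ)..(τ₀ + Λ + R), Fd (Sj d E j) t := by
      intro j
      unfold Fs
      rw [intervalIntegral.integral_comp_add_right (fun t => Fd (Sj d E j) t), ← hΛ]
      congr 1; ring
    simp only [e1]
    rw [← intervalIntegral.integral_finsetSum (fun b _ => Fd_intble _ _ _),
      ← intervalIntegral.integral_finsetSum (fun j _ => Fd_intble _ _ _)]
    congr 1
    funext t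
    exact (Fd_id hvis t).symm
  have hlog : Real.log (4 / 3) = Real.log 2 - Real.log (3 / 2) := by
    rw [← Real.log_div (by norm_num) (by norm_num)]; norm_num
  have hj : ∀ j ∈ Icc 1 κ, |Real.log (4 / 3) * ((∫ t in τ₀..(τ₀ + R), Fs (Sj d E j) (2 * z) t) - lj j * R)|
      ≤ K * R / τ₀ + 4 := by
    intro j _
    have h1 := log_avg (F := Fs (Sj d E j) (2 * z)) (Fs_meas _ _) (fun t => Fd_nonneg _ _)
      (fun t => Fd_le_one _ _) (l := lj j) (ε := K / τ₀) (τ₀ := τ₀) (τ₁ := τ₀ + R) (by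
        intro τ hτ'
        refine (hlj2 j τ (by linarith)).trans ?_
        exact div_le_div_of_nonneg_left hK.le (by linarith) hτ') (by linarith)
    rw [hlog]
    rw [add_sub_cancel_left] at h1
    refine h1.trans (le_of_eq ?_)
    ring
  rw [hint, ← hsum, sum_mul, ← sum_sub_distrib, mul_sum]
  refine (abs_sum_le_sum_abs _ _).trans ((sum_le_sum hj).trans (le_of_eq ?_))
  rw [sum_const, nsmul_eq_mul, Nat.card_Icc]
  simp

/-- the complement of the good targets -/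
theorem notGo {d : ℤ} (hd : d % 2 = 1) (hd1 : -1 ≤ d) : ∃ z₀ : ℝ, 2 ≤ z₀ ∧ ∀ z : ℝ, z₀ ≤ z → ∀ κ : ℕ, 50 ≤ κ →
    κ ≤ Nat.log 2 ⌊z⌋₊ → ∀ b : ℤ, b ∈ Ta d z → b ∉ Bad d z (1 / 20) κ → b ∈ Go d z κ := by
  obtain ⟨z₀, hz₀, hv⟩ := visit hd
  refine ⟨max z₀ (2 ^ 100), by
    refine le_trans ?_ (le_max_right _ _); norm_num, ?_⟩
  intro z hz κ hκ hκJ b hb hbad
  have hz1 : z₀ ≤ z := (le_max_left _ _).trans hz
  have hz2 : 2 ^ 100 ≤ z := (le_max_right _ _).trans hz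
  have hz0 : 0 < z := lt_of_lt_of_le (by positivity) hz2
  refine ⟨hb, fun k hk hT => ?_⟩
  have hbpos : 0 < b := by
    have : (0 : ℝ) < b := by linarith [hb.1.1]
    exact_mod_cast this
  have h2 : (2 : ℝ) ≤ z ^ (1 / 100 : ℝ) := by
    have : (2 : ℝ) = ((2 : ℝ) ^ 100) ^ (1 / 100 : ℝ) := by
      rw [← Real.rpow_natCast, ← Real.rpow_mul (by norm_num)]; norm_num
    rw [this]
    exact Real.rpow_le_rpow (by positivity) hz2 (by norm_num)
  have hlt := hv z hz1 (1 / 20) (by norm_num) le_rfl κ hκJ (2 * z) (by nlinarith) (by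
    have h3 : (4 : ℝ) < Real.exp (lam (1 / 20) * κ) := by
      have h4 := lam_ge (η := 1 / 20) le_rfl
      have h5 : (50 : ℝ) ≤ κ := by exact_mod_cast hκ
      have h6 : (4 : ℝ) ≤ lam (1 / 20) * κ := by nlinarith
      have h7 := Real.add_one_le_exp (lam (1 / 20) * κ)
      linarith
    nlinarith) b hb.1.2.le hbad k (above hd1 hbpos hT) hT.1.1
  omega

end Pool.Agent.R344.FP
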