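import Pool.Agent.R344.FP.F

/-! Densities of predecessor sets, part G: the 3-adic density. -/

set_option autoImplicit false

namespace Pool.Agent.R344.FP

open Finset
open Pool.Agent.H320R2.PD Pool.Agent.H499R2.ND
open Pool.Agent.H499R2.CO (Tz)
open Pool.Agent.R344.SP (Wo_cons cl mem_cl cl_card_le)

/-- the 3-adic density at the level `L` -/
noncomputable def gg (d : ℤ) : ℕ → ℤ → ℝ
  | 0, _ => 1
  | L + 1, b => 3 * ∑' e : ℕ, if (3 : ℤ) ∣ 2 ^ (e + 1) * b - d then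
      (1 / 2 : ℝ) ^ (e + 1) * gg d L ((2 ^ (e + 1) * b - d) / 3) else 0

/-- the word `w` leads to `b` from an integer -/
def Val (d : ℤ) (k : ℕ) (b : ℤ) (w : List ℕ) : Prop := (3 : ℤ) ^ k ∣ 2 ^ w.sum * b - d * Wo w

instance (d : ℤ) (k : ℕ) (b : ℤ) (w : List ℕ) : Decidable (Val d k b w) := by unfold Val; infer_instance

theorem val_cons {d : ℤ} {L : ℕ} {b : ℤ} {e : ℕ} {v : List ℕ} :
    Val d (L + 1) b (e :: v) ↔ (3 : ℤ) ∣ 2 ^ e * b - d ∧ Val d L ((2 ^ e * b - d) / 3) v := by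
  unfold Val
  rw [Wo_cons, List.sum_cons]
  push_cast
  have h0 : (2 : ℤ) ^ (e + v.sum) * b - d * (2 ^ v.sum + 3 * Wo v)
      = 2 ^ v.sum * (2 ^ e * b - d) - 3 * (d * Wo v) := by rw [pow_add]; ring
  rw [h0]
  constructor
  · intro h
    have h1 : (3 : ℤ) ∣ 2 ^ v.sum * (2 ^ e * b - d) := by
      have h2 : (3 : ℤ) ∣ 2 ^ v.sum * (2 ^ e * b - d) - 3 * (d * Wo v) :=
        (dvd_pow_self 3 (Nat.succ_ne_zero L)).trans h
      have h3 := dvd_add h2 (Dvd.intro (d * (Wo v : ℤ)) rfl)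
      rwa [sub_add_cancel] at h3
    have h4 : (3 : ℤ) ∣ 2 ^ e * b - d := (cop_two_pow v.sum).symm.dvd_of_dvd_mul_left h1
    refine ⟨h4, ?_⟩
    obtain ⟨Y, hY⟩ := h4
    rw [hY] at h ⊢
    rw [Int.mul_ediv_cancel_left _ (by norm_num)]
    have h5 : 2 ^ v.sum * (3 * Y) - 3 * (d * (Wo v : ℤ)) = 3 * (2 ^ v.sum * Y - d * Wo v) := by ring
    rw [h5, pow_succ, mul_comm ((3 : ℤ) ^ L)] at h
    exact (mul_dvd_mul_iff_left (by norm_num)).1 h
  · rintro ⟨⟨Y, hY⟩, h⟩
    rw [hY] at h ⊢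
    rw [Int.mul_ediv_cancel_left _ (by norm_num)] at h
    have h5 : 2 ^ v.sum * (3 * Y) - 3 * (d * (Wo v : ℤ)) = 3 * (2 ^ v.sum * Y - d * Wo v) := by ring
    rw [h5, pow_succ, mul_comm ((3 : ℤ) ^ L)]
    exact mul_dvd_mul_left 3 h

/-- the weight of the words leading to `b` -/
noncomputable def Gs (d : ℤ) (A L : ℕ) (b : ℤ) : ℝ := ∑ w ∈ FW A L, if Val d L b w then wwt w else 0

theorem Gs_succ (d : ℤ) (A L : ℕ) (b : ℤ) : Gs d A (L + 1) b
    = ∑ e ∈ Icc 1 A, if (3 : ℤ) ∣ 2 ^ e * b - d then (1 / 2 : ℝ) ^ e * Gs d A L ((2 ^ e * b - d) / 3) else 0 := by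
  unfold Gs
  rw [sum_FW_succ]
  apply sum_congr rfl
  intro e _
  split_ifs with h
  · rw [mul_sum]
    apply sum_congr rfl
    intro v _
    simp only [val_cons, h, true_and]
    split_ifs
    · unfold wwt; rw [List.sum_cons, pow_add]
    · simp
  · apply sum_eq_zero
    intro v _
    rw [if_neg]
    rw [val_cons]
    exact fun h' => h h'.1

theorem Gs_nonneg (d : ℤ) (A L : ℕ) (b : ℤ) : 0 ≤ Gs d A L b := by
  unfold Gs
  apply sum_nonneg
  intro w _
  split_ifs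
  · unfold wwt; positivity
  · exact le_rfl

theorem Gs_le_one (d : ℤ) (A L : ℕ) (b : ℤ) : Gs d A L b ≤ 1 := by
  refine le_trans ?_ (sum_wwt_le A L)
  unfold Gs
  apply sum_le_sum
  intro w _
  split_ifs
  · exact le_rfl
  · unfold wwt; positivity

theorem gg_bounds (d : ℤ) : ∀ (L : ℕ) (b : ℤ), 0 ≤ gg d L b ∧ gg d L b ≤ 3 ^ L ∧
    ∀ A : ℕ, 3 ^ L * Gs d A L b ≤ gg d L b ∧ gg d L b ≤ 3 ^ L * (Gs d A L b + L * (1 / 2) ^ A)
  | 0, b => by
    have h1 : ∀ A, Gs d A 0 b = 1 := by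
      intro A
      unfold Gs
      rw [sum_FW_zero, if_pos (by unfold Val; simp)]
      simp [wwt]
    refine ⟨by simp [gg], by simp [gg], fun A => ?_⟩
    rw [h1]
    simp [gg]
  | L + 1, b => by
    have ih := gg_bounds d L
    set f : ℕ → ℝ := fun e => if (3 : ℤ) ∣ 2 ^ (e + 1) * b - d then
      (1 / 2 : ℝ) ^ (e + 1) * gg d L ((2 ^ (e + 1) * b - d) / 3) else 0 with hf
    have hg : gg d (L + 1) b = 3 * ∑' e, f e := rfl
    have hf0 : ∀ e, 0 ≤ f e := by
      intro e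
      simp only [hf]
      split_ifs
      · exact mul_nonneg (by positivity) (ih _).1
      · exact le_rfl
    have hf1 : ∀ e, f e ≤ 3 ^ L * (1 / 2) ^ (e + 1) := by
      intro e
      simp only [hf]
      split_ifs
      · rw [mul_comm]
        exact mul_le_mul_of_nonneg_right (ih _).2.1 (by positivity)
      · positivity
    have hsg : Summable (fun e : ℕ => (3 : ℝ) ^ L * (1 / 2) ^ (e + 1)) := by
      have h1 : Summable (fun e : ℕ => (1 / 2 : ℝ) ^ e) := summable_geometric_two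
      have h2 := (summable_nat_add_iff 1).2 h1
      exact h2.mul_left _
    have hs : Summable f := Summable.of_nonneg_of_le hf0 hf1 hsg
    have htg : ∑' e : ℕ, (1 / 2 : ℝ) ^ (e + 1) = 1 := by
      have h1 : ∑' e : ℕ, (1 / 2 : ℝ) ^ (e + 1) = ∑' e : ℕ, (1 / 2 : ℝ) ^ e * (1 / 2) := by
        congr 1
      rw [h1, tsum_mul_right, tsum_geometric_two]; norm_num
    have hup : ∑' e, f e ≤ 3 ^ L := by
      calc ∑' e, f e ≤ ∑' e : ℕ, (3 : ℝ) ^ L * (1 / 2) ^ (e + 1) := hs.tsum_le_tsum hf1 hsg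
        _ = 3 ^ L := by rw [tsum_mul_left, htg, mul_one]
    refine ⟨?_, ?_, fun A => ?_⟩
    · rw [hg]; exact mul_nonneg (by norm_num) (tsum_nonneg hf0)
    · rw [hg, pow_succ]; linarith
    · have hshift : ∀ F : ℕ → ℝ, ∑ e ∈ Icc 1 A, F e = ∑ e ∈ range A, F (e + 1) := by
        intro F
        rw [Finset.range_eq_Ico, Finset.sum_Ico_add' F 0 A 1]
        rfl
      have hGs : Gs d A (L + 1) b = ∑ e ∈ range A, if (3 : ℤ) ∣ 2 ^ (e + 1) * b - d then
          (1 / 2 : ℝ) ^ (e + 1) * Gs d A L ((2 ^ (e + 1) * b - d) / 3) else 0 := by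
        rw [Gs_succ, hshift]
      constructor
      · rw [hg, hGs, pow_succ, mul_comm ((3 : ℝ) ^ L) 3, mul_assoc]
        apply mul_le_mul_of_nonneg_left _ (by norm_num)
        rw [mul_sum]
        refine le_trans ?_ (hs.sum_le_tsum (range A) (fun e _ => hf0 e))
        apply sum_le_sum
        intro e _
        simp only [hf]
        split_ifs with h
        · have := ((ih ((2 ^ (e + 1) * b - d) / 3)).2.2 A).1
          calc (3 : ℝ) ^ L * ((1 / 2) ^ (e + 1) * Gs d A L ((2 ^ (e + 1) * b - d) / 3))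
              = (1 / 2) ^ (e + 1) * (3 ^ L * Gs d A L ((2 ^ (e + 1) * b - d) / 3)) := by ring
            _ ≤ _ := mul_le_mul_of_nonneg_left this (by positivity)
        · simp
      · have hsplit := hs.sum_add_tsum_nat_add A
        have htail : ∑' e, f (e + A) ≤ 3 ^ L * (1 / 2) ^ A := by
          have h1 : ∀ e, f (e + A) ≤ 3 ^ L * (1 / 2) ^ A * (1 / 2) ^ (e + 1) := by
            intro e
            refine (hf1 (e + A)).trans (le_of_eq ?_)
            rw [show e + A + 1 = A + (e + 1) by ring, pow_add]; ring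
          have h2 : Summable (fun e : ℕ => (3 : ℝ) ^ L * (1 / 2) ^ A * (1 / 2) ^ (e + 1)) := by
            have h1 : Summable (fun e : ℕ => (1 / 2 : ℝ) ^ e) := summable_geometric_two
            have h2 := (summable_nat_add_iff 1).2 h1
            exact h2.mul_left _
          calc ∑' e, f (e + A) ≤ ∑' e : ℕ, (3 : ℝ) ^ L * (1 / 2) ^ A * (1 / 2) ^ (e + 1) :=
                ((summable_nat_add_iff A).2 hs).tsum_le_tsum h1 h2
            _ = _ := by rw [tsum_mul_left, htg, mul_one]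
        have hmain : ∑ e ∈ range A, f e ≤ 3 ^ L * Gs d A (L + 1) b + 3 ^ L * (L * (1 / 2) ^ A) := by
          rw [hGs, mul_sum]
          have h1 : ∀ e ∈ range A, f e ≤ 3 ^ L * (if (3 : ℤ) ∣ 2 ^ (e + 1) * b - d then
              (1 / 2 : ℝ) ^ (e + 1) * Gs d A L ((2 ^ (e + 1) * b - d) / 3) else 0)
                + (1 / 2) ^ (e + 1) * (3 ^ L * (L * (1 / 2) ^ A)) := by
            intro e _
            simp only [hf]
            split_ifs with h
            · have := ((ih ((2 ^ (e + 1) * b - d) / 3)).2.2 A).2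
              have h2 := mul_le_mul_of_nonneg_left this (by positivity : (0 : ℝ) ≤ (1 / 2) ^ (e + 1))
              refine h2.trans (le_of_eq ?_)
              ring
            · have : (0 : ℝ) ≤ (1 / 2) ^ (e + 1) * (3 ^ L * (L * (1 / 2) ^ A)) := by positivity
              linarith
          refine (sum_le_sum h1).trans ?_
          rw [sum_add_distrib, ← sum_mul]
          refine add_le_add le_rfl ?_
          have h3 : ∑ e ∈ range A, (1 / 2 : ℝ) ^ (e + 1) ≤ 1 := by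
            have h1 : Summable (fun e : ℕ => (1 / 2 : ℝ) ^ e) := summable_geometric_two
            have h2 := (summable_nat_add_iff 1).2 h1
            have h4 := h2.sum_le_tsum (range A) (fun e _ => by positivity)
            exact h4.trans (le_of_eq htg)
          calc (∑ e ∈ range A, (1 / 2 : ℝ) ^ (e + 1)) * (3 ^ L * (L * (1 / 2) ^ A))
              ≤ 1 * (3 ^ L * (L * (1 / 2) ^ A)) := mul_le_mul_of_nonneg_right h3 (by positivity)
            _ = _ := one_mul _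
        rw [hg, ← hsplit]
        calc 3 * (∑ i ∈ range A, f i + ∑' i, f (i + A))
            ≤ 3 * ((3 ^ L * Gs d A (L + 1) b + 3 ^ L * (L * (1 / 2) ^ A)) + 3 ^ L * (1 / 2) ^ A) := by
              linarith
          _ = _ := by push_cast; ring

/-- the condition at a lower level only depends on the first letters -/
theorem val_append {d : ℤ} {L : ℕ} {b : ℤ} {u v : List ℕ} (hu : u.length = L) :
    Val d L b (u ++ v) ↔ Val d L b u := by
  unfold Val
  rw [Wo_append, List.sum_append, hu]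
  push_cast
  have h0 : (2 : ℤ) ^ (u.sum + v.sum) * b - d * (2 ^ v.sum * Wo u + 3 ^ L * Wo v)
      = 2 ^ v.sum * (2 ^ u.sum * b - d * Wo u) - 3 ^ L * (d * Wo v) := by rw [pow_add]; ring
  rw [h0]
  have h3 : (3 : ℤ) ^ L ∣ 3 ^ L * (d * (Wo v : ℤ)) := Dvd.intro _ rfl
  rw [dvd_sub_left h3]
  have hc : IsCoprime ((3 : ℤ) ^ L) (2 ^ v.sum) := (IsCoprime.pow_right (cop_two_pow v.sum)).symm
  exact ⟨fun h => hc.dvd_of_dvd_mul_left h, fun h => h.mul_left _⟩

/-- weight of the words of length `k` at the level `L ≤ k` -/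
theorem sum_level (d : ℤ) (A k L : ℕ) (hL : L ≤ k) (b : ℤ) :
    ∑ w ∈ FW A k, (if Val d L b w then wwt w else 0) = Gs d A L b * ∑ v ∈ FW A (k - L), wwt v := by
  have h : k = L + (k - L) := by omega
  conv_lhs => rw [h]
  rw [sum_FW_add]
  unfold Gs
  rw [sum_mul]
  apply sum_congr rfl
  intro u hu
  rw [mul_sum]
  apply sum_congr rfl
  intro v _
  have h1 := (mem_FW.1 hu).1
  simp only [val_append h1]
  split_ifs
  · exact wwt_append u v
  · simp

theorem mass_ge (A k : ℕ) : 1 - (k : ℝ) * (1 / 2) ^ A ≤ ∑ w ∈ FW A k, wwt w := by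
  rw [sum_wwt]
  have := one_add_mul_le_pow (a := -(1 / 2 : ℝ) ^ A) (by
    have : (1 / 2 : ℝ) ^ A ≤ 1 := pow_le_one₀ (by norm_num) (by norm_num)
    linarith) k
  rw [← sub_eq_add_neg] at this
  linarith

/-- words with size in `Ts` at the level `M` -/
noncomputable def Am (d : ℤ) (A k M : ℕ) (Ts : Finset ℕ) (b : ℤ) : ℝ :=
  ∑ T ∈ Ts, ∑ w ∈ FWT A k T, if Val d M b w then wwt w else 0

theorem val_cnt {d : ℤ} (hdd : d * d = 1) {A k M T : ℕ} (b : ℤ) :
    (∑ w ∈ FWT A k T, if Val d M b w then wwt w else 0)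
      = cnt (FWT A k T) wwt (fun w => (Wo w : ℤ)) M (d * 2 ^ T * b) := by
  classical
  unfold cnt
  apply sum_congr rfl
  intro w hw
  have hT : w.sum = T := by unfold FWT at hw; exact (mem_filter.1 hw).2
  have hiff : Val d M b w ↔ (3 : ℤ) ^ M ∣ (Wo w : ℤ) - d * 2 ^ T * b := by
    unfold Val
    rw [hT]
    constructor
    · intro h
      have := h.mul_left (-d)
      have e : -d * (2 ^ T * b - d * (Wo w : ℤ)) = d * d * Wo w - d * 2 ^ T * b := by ring
      rw [e, hdd, one_mul] at this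
      exact this
    · intro h
      have := h.mul_left (-d)
      have e : -d * ((Wo w : ℤ) - d * 2 ^ T * b) = d * d * (2 ^ T * b) - d * Wo w := by ring
      rw [e, hdd, one_mul] at this
      exact this
  simp only [hiff]

/-- mixing on average over `b` -/
theorem mix_b {d : ℤ} (hdd : d * d = 1) (N : ℕ) : ∃ C : ℝ, 0 < C ∧ ∀ (A k L : ℕ), 1 ≤ L → L ≤ k → 3 * k ≤ A →
    ∀ Ts : Finset ℕ, Ts ⊆ range (k * A + 1) → ∀ z : ℝ, 0 ≤ z → ∀ E : Finset ℤ,
      (∀ b ∈ E, z ≤ (b : ℝ) ∧ (b : ℝ) < 2 * z) →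
      ∑ b ∈ E, |3 ^ k * Am d A k k Ts b - 3 ^ L * Am d A k L Ts b| ≤ (z + 3 ^ k) * (k * (C * (1 / (L : ℝ)) ^ N)) := by
  obtain ⟨C, hC, hmix⟩ := mix (N + 1)
  refine ⟨C, hC, ?_⟩
  intro A k L hL hLk hA Ts hTs z hz E hE
  have hd3 : IsCoprime d 3 := ⟨d, 0, by rw [hdd]; ring⟩
  have h1 : ∀ b : ℤ, |3 ^ k * Am d A k k Ts b - 3 ^ L * Am d A k L Ts b|
      ≤ 3 ^ k * ∑ T ∈ Ts, |cnt (FWT A k T) wwt (fun w => (Wo w : ℤ)) k (d * 2 ^ T * b)
          - cnt (FWT A k T) wwt (fun w => (Wo w : ℤ)) L (d * 2 ^ T * b) / 3 ^ (k - L)| := by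
    intro b
    unfold Am
    have e : 3 ^ k * (∑ T ∈ Ts, ∑ w ∈ FWT A k T, if Val d k b w then wwt w else 0)
        - 3 ^ L * (∑ T ∈ Ts, ∑ w ∈ FWT A k T, if Val d L b w then wwt w else 0)
        = 3 ^ k * ∑ T ∈ Ts, (cnt (FWT A k T) wwt (fun w => (Wo w : ℤ)) k (d * 2 ^ T * b)
          - cnt (FWT A k T) wwt (fun w => (Wo w : ℤ)) L (d * 2 ^ T * b) / 3 ^ (k - L)) := by
      simp only [val_cnt hdd]
      rw [sum_sub_distrib, mul_sub, ← sum_div]
      have h3 : (3 : ℝ) ^ k = 3 ^ L * 3 ^ (k - L) := by rw [← pow_add]; congr 1; omega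
      congr 1
      rw [h3]
      field_simp
    rw [e, abs_mul, abs_of_pos (by positivity : (0 : ℝ) < 3 ^ k)]
    exact mul_le_mul_of_nonneg_left (abs_sum_le_sum_abs _ _) (by positivity)
  refine (sum_le_sum fun b _ => h1 b).trans ?_
  rw [← mul_sum, sum_comm]
  have h2 : ∀ T ∈ Ts, ∑ b ∈ E, |cnt (FWT A k T) wwt (fun w => (Wo w : ℤ)) k (d * 2 ^ T * b)
          - cnt (FWT A k T) wwt (fun w => (Wo w : ℤ)) L (d * 2 ^ T * b) / 3 ^ (k - L)|
      ≤ (z / 3 ^ k + 1) * dev (FWT A k T) wwt (fun w => (Wo w : ℤ)) k L := by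
    intro T _
    unfold dev
    refine sum_periodic_le (W := E) (n := k) (e := fun b => d * 2 ^ T * b) (K := z / 3 ^ k + 1) ?_
      (g := fun c => |cnt (FWT A k T) wwt (fun w => (Wo w : ℤ)) k c
          - cnt (FWT A k T) wwt (fun w => (Wo w : ℤ)) L c / 3 ^ (k - L)|) (fun c => abs_nonneg _) ?_
    · intro r
      have h3 : E.filter (fun x => (3 : ℤ) ^ k ∣ d * 2 ^ T * x - r) ⊆ cl z (2 * z) k (d * 2 ^ T) r := by
        intro x hx
        rw [mem_filter] at hx
        rw [mem_cl]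
        exact ⟨hE x hx.1, hx.2⟩
      have h4 := cl_card_le (a := z) (b := 2 * z) (by linarith) k
        (u := d * 2 ^ T) (hd3.mul_left (cop_two_pow T)) r
      have h5 : ((E.filter (fun x => (3 : ℤ) ^ k ∣ d * 2 ^ T * x - r)).card : ℝ)
          ≤ ((cl z (2 * z) k (d * 2 ^ T) r).card : ℝ) := by exact_mod_cast card_le_card h3
      refine h5.trans (h4.trans (le_of_eq ?_))
      ring
    · intro c c' hcc
      have hcc' : (3 : ℤ) ^ L ∣ c - c' := (pow_dvd_pow 3 hLk).trans hcc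
      rw [cnt_congr _ _ hcc, cnt_congr _ _ hcc']
  have hm := hmix k 0 L A (by omega) hL hLk hA
  simp only [Nat.cast_zero, zero_div, add_zero] at hm
  have h3 : ∑ T ∈ Ts, dev (FWT A k T) wwt (fun w => (Wo w : ℤ)) k L
      ≤ ∑ T ∈ range (k * A + 1), dev (FWT A k T) wwt (fun w => (Wo w : ℤ)) k L :=
    sum_le_sum_of_subset_of_nonneg hTs (fun T _ _ => sum_nonneg fun _ _ => abs_nonneg _)
  have hL1 : (1 / (L : ℝ)) ^ (N + 1) ≤ (1 / (L : ℝ)) ^ N := by
    apply pow_le_pow_of_le_one (by positivity) _ (by omega)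
    rw [div_le_one (by exact_mod_cast hL)]
    exact_mod_cast hL
  calc 3 ^ k * ∑ T ∈ Ts, ∑ b ∈ E, |cnt (FWT A k T) wwt (fun w => (Wo w : ℤ)) k (d * 2 ^ T * b)
          - cnt (FWT A k T) wwt (fun w => (Wo w : ℤ)) L (d * 2 ^ T * b) / 3 ^ (k - L)|
      ≤ 3 ^ k * ∑ T ∈ Ts, (z / 3 ^ k + 1) * dev (FWT A k T) wwt (fun w => (Wo w : ℤ)) k L :=
        mul_le_mul_of_nonneg_left (sum_le_sum h2) (by positivity)
    _ = (z + 3 ^ k) * ∑ T ∈ Ts, dev (FWT A k T) wwt (fun w => (Wo w : ℤ)) k L := by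
        rw [← mul_sum, ← mul_assoc]
        congr 1
        field_simp
    _ ≤ (z + 3 ^ k) * (k * (C * (1 / (L : ℝ)) ^ N)) := by
        apply mul_le_mul_of_nonneg_left _ (by positivity)
        refine h3.trans (hm.trans ?_)
        have e0 : (0 : ℝ) ^ (N + 1) = 0 := by simp
        rw [e0, add_zero]
        apply mul_le_mul_of_nonneg_left _ (Nat.cast_nonneg _)
        exact mul_le_mul_of_nonneg_left hL1 hC.le

end Pool.Agent.R344.FP
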