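import Pool.Agent.R344.FP.G

/-! Densities of predecessor sets, part H: sums of reciprocals over predecessor sets. -/

set_option autoImplicit false

namespace Pool.Agent.R344.FP

open Finset
open Pool.Agent.H320R2.PD Pool.Agent.H499R2.ND
open Pool.Agent.H499R2.CO (Tz)
open Pool.Agent.R344.SP Pool.Agent.R344.TH

/-- the starting point of the word `w` leading to `b` -/
def Mw (d b : ℤ) (w : List ℕ) : ℤ := (2 ^ w.sum * b - d * Wo w) / 3 ^ w.length

theorem Mw_spec {d b : ℤ} {w : List ℕ} (h : Val d w.length b w) : Vw d w (Mw d b w) b := by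
  unfold Vw Mw
  rw [Int.mul_ediv_cancel' h]; ring

theorem Mw_odd {d b : ℤ} (hd : Odd d) {w : List ℕ} (hw : ∀ a ∈ w, 1 ≤ a) (hne : w ≠ [])
    (h : Val d w.length b w) : Odd (Mw d b w) := Vw_odd_left hd hw hne (Mw_spec h)

theorem Mw_wd {d b : ℤ} (hd : Odd d) {w : List ℕ} (hw : ∀ a ∈ w, 1 ≤ a) (hne : w ≠ [])
    (h : Val d w.length b w) : wd d (Mw d b w) w.sum = w := by
  apply wd_unique (Int.odd_iff.1 hd) (Int.odd_iff.1 (Mw_odd hd hw hne h)) _ _ hw rfl
  have := Mw_spec h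
  unfold Vw at this
  rw [this]; exact Dvd.intro _ rfl

theorem Mw_iter {d b : ℤ} (hd : Odd d) {w : List ℕ} (hw : ∀ a ∈ w, 1 ≤ a) (hne : w ≠ [])
    (h : Val d w.length b w) : (Tz d)^[w.sum] (Mw d b w) = b := by
  have h1 := wd_id (d := d) (M := Mw d b w) (Int.odd_iff.1 hd) w.sum (Int.odd_iff.1 (Mw_odd hd hw hne h))
  rw [Mw_wd hd hw hne h] at h1
  have h2 := Mw_spec h
  unfold Vw at h2
  rw [h2] at h1
  exact (mul_left_cancel₀ (by positivity) h1).symm

theorem geo_sum {M X : ℝ} (hM : 0 < M) (hMX : M < X) : ∃ I : ℕ, (∀ i < I, 2 ^ i * M < X) ∧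
    2 / M - 2 / X ≤ ∑ i ∈ range I, 1 / (2 ^ i * M) := by
  have hX : 0 < X := by linarith
  have hex : ∃ i : ℕ, X ≤ 2 ^ i * M := by
    obtain ⟨i, hi⟩ := pow_unbounded_of_one_lt (X / M) (by norm_num : (1 : ℝ) < 2)
    refine ⟨i, ?_⟩
    rw [div_lt_iff₀ hM] at hi
    exact hi.le
  refine ⟨Nat.find hex, fun i hi => not_le.1 (Nat.find_min hex hi), ?_⟩
  have h0 := Nat.find_spec hex
  set I := Nat.find hex
  have h1 : ∑ i ∈ range I, 1 / (2 ^ i * M) = (2 - 2 / 2 ^ I) / M := by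
    clear_value I
    clear h0
    induction I with
    | zero => simp
    | succ I ih =>
      rw [sum_range_succ, ih, pow_succ]
      field_simp
      ring
  rw [h1, sub_div]
  apply sub_le_sub_left
  rw [div_div]
  exact div_le_div_of_nonneg_left (by norm_num) hX h0

/-- lower bound for the sum of reciprocals over a predecessor set -/
theorem LB1 {d : ℤ} (hd : Odd d) {z : ℝ} {κ : ℕ} {b : ℤ} (hb : b ∈ Go d z κ) {X₁ X₂ : ℝ} (hX : 0 < X₁)
    (Wd : Finset (List ℕ)) (hW : ∀ w ∈ Wd, w ≠ [] ∧ (∀ a ∈ w, 1 ≤ a) ∧ Val d w.length b w ∧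
      X₁ ≤ (Mw d b w : ℝ) ∧ (Mw d b w : ℝ) < X₂) :
    ∑ w ∈ Wd, (2 / (Mw d b w : ℝ) - 2 / X₂) ≤ ∑ n ∈ wc (Pre d b) X₁ X₂ 1 0, 1 / (n : ℝ) := by
  classical
  have hpos : ∀ w ∈ Wd, (0 : ℝ) < Mw d b w := fun w hw => lt_of_lt_of_le hX (hW w hw).2.2.2.1
  have hI : ∀ w : List ℕ, ∃ I : ℕ, w ∈ Wd → (∀ i < I, 2 ^ i * (Mw d b w : ℝ) < X₂) ∧
      2 / (Mw d b w : ℝ) - 2 / X₂ ≤ ∑ i ∈ range I, 1 / (2 ^ i * (Mw d b w : ℝ)) := by
    intro w
    by_cases hw : w ∈ Wd
    · obtain ⟨I, h⟩ := geo_sum (hpos w hw) (hW w hw).2.2.2.2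
      exact ⟨I, fun _ => h⟩
    · exact ⟨0, fun h => absurd h hw⟩
  choose I hI using hI
  have h1 : ∑ w ∈ Wd, (2 / (Mw d b w : ℝ) - 2 / X₂)
      ≤ ∑ w ∈ Wd, ∑ i ∈ range (I w), 1 / (2 ^ i * (Mw d b w : ℝ)) :=
    sum_le_sum fun w hw => (hI w hw).2
  refine h1.trans ?_
  rw [sum_sigma']
  have hinj : Set.InjOn (fun p : (_ : List ℕ) × ℕ => (2 : ℤ) ^ p.2 * Mw d b p.1)
      (Wd.sigma fun w => range (I w)) := by
    rintro ⟨w, i⟩ hp ⟨w', i'⟩ hp' heq
    rw [mem_coe, mem_sigma] at hp hp'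
    simp only at heq hp hp'
    obtain ⟨e1, e2, e3, _⟩ := hW w hp.1
    obtain ⟨e1', e2', e3', _⟩ := hW w' hp'.1
    obtain ⟨h2, h3⟩ := pow_two_unique heq (Mw_odd hd e2 e1 e3) (Mw_odd hd e2' e1' e3')
    have h4 := Mw_iter hd e2 e1 e3
    have h4' := Mw_iter hd e2' e1' e3'
    rw [← h3] at h4'
    have h5 := visit_unique hb h4 h4'
    have h6 := Mw_wd hd e2 e1 e3
    have h6' := Mw_wd hd e2' e1' e3'
    rw [← h3, ← h5, h6] at h6'
    subst h6' h2
    rfl
  have h2 : ∑ p ∈ Wd.sigma fun w => range (I w), 1 / (2 ^ p.2 * (Mw d b p.1 : ℝ))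
      = ∑ n ∈ (Wd.sigma fun w => range (I w)).image (fun p => (2 : ℤ) ^ p.2 * Mw d b p.1), 1 / (n : ℝ) := by
    rw [sum_image hinj]
    apply sum_congr rfl
    intro p _
    push_cast; rfl
  rw [h2]
  apply sum_le_sum_of_subset_of_nonneg
  · intro n hn
    rw [mem_image] at hn
    obtain ⟨⟨w, i⟩, hp, rfl⟩ := hn
    rw [mem_sigma] at hp
    simp only [mem_range] at hp ⊢
    obtain ⟨e1, e2, e3, e4, _⟩ := hW w hp.1
    have h3 := Mw_iter hd e2 e1 e3
    rw [mem_wc]
    push_cast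
    refine ⟨⟨?_, (hI w hp.1).1 i hp.2⟩, ⟨w.sum + i, ?_⟩, one_dvd _⟩
    · refine e4.trans ?_
      exact le_mul_of_one_le_left (hpos w hp.1).le (one_le_pow₀ (by norm_num))
    · rw [Function.iterate_add_apply, iter_pow_two _ _ _ le_rfl, Nat.sub_self, pow_zero, one_mul]
      exact h3
  · intro n hn _
    rw [mem_wc] at hn
    have : (0 : ℝ) < n := by linarith [hn.1.1]
    positivity

theorem od_add (d : ℤ) (i t : ℕ) (n : ℤ) : od d (i + t) n = od d i n + od d t ((Tz d)^[i] n) := by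
  unfold od
  rw [sum_range_add]
  congr 1
  apply sum_congr rfl
  intro k _
  rw [← Function.iterate_add_apply, add_comm]

theorem sum_image_le' {α : Type*} [DecidableEq α] {β : Type*} (s : Finset β) (f : β → α) (g : α → ℝ)
    (hg : ∀ y ∈ s, 0 ≤ g (f y)) : ∑ x ∈ s.image f, g x ≤ ∑ y ∈ s, g (f y) := by
  classical
  induction s using Finset.induction_on with
  | empty => simp
  | insert a s ha ih =>
    rw [image_insert, sum_insert ha]
    have ih' := ih (fun y hy => hg y (mem_insert_of_mem hy))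
    by_cases h : f a ∈ s.image f
    · rw [insert_eq_of_mem h]
      have := hg a (mem_insert_self a s)
      linarith
    · rw [sum_insert h]; linarith

theorem sum_biUnion_le' {α : Type*} [DecidableEq α] {β : Type*} (s : Finset β) (t : β → Finset α) (f : α → ℝ)
    (hf : ∀ k ∈ s, ∀ w ∈ t k, 0 ≤ f w) : ∑ w ∈ s.biUnion t, f w ≤ ∑ k ∈ s, ∑ w ∈ t k, f w := by
  classical
  induction s using Finset.induction_on with
  | empty => simp
  | insert a s ha ih =>
    rw [biUnion_insert, sum_insert ha]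
    have ih' := ih (fun k hk => hf k (mem_insert_of_mem hk))
    have h1 := sum_union_inter (s₁ := t a) (s₂ := s.biUnion t) (f := f)
    have h2 : 0 ≤ ∑ w ∈ t a ∩ s.biUnion t, f w :=
      sum_nonneg fun w hw => hf a (mem_insert_self a s) w (mem_inter.1 hw).1
    linarith

theorem half_geo (I : ℕ) {M : ℝ} (hM : 0 < M) : ∑ i ∈ range I, 1 / (2 ^ i * M) ≤ 2 / M := by
  have h1 : ∑ i ∈ range I, 1 / (2 ^ i * M) = (2 - 2 / 2 ^ I) / M := by
    induction I with
    | zero => simp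
    | succ I ih =>
      rw [sum_range_succ, ih, pow_succ]
      field_simp
      ring
  rw [h1]
  apply div_le_div_of_nonneg_right _ hM.le
  have : (0 : ℝ) < 2 / 2 ^ I := by positivity
  linarith

/-- upper bound for the sum of reciprocals over a predecessor set -/
theorem UB1 {d : ℤ} (hd : Odd d) (hd1 : -1 ≤ d) : ∃ z₀ : ℝ, 2 ≤ z₀ ∧ ∀ z : ℝ, z₀ ≤ z → ∀ η : ℝ, 0 < η →
    η ≤ 1 / 20 → ∀ K₀ K₁ k₃ A : ℕ, K₀ ≤ K₁ → K₁ ≤ Nat.log 2 ⌊z⌋₊ → K₀ ≤ k₃ → (1 / 2 + η) * K₁ ≤ k₃ → K₁ ≤ A →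
    ∀ X₁ X₂ : ℝ, 2 * z ≤ X₁ → X₂ ≤ z * z ^ (1 / 100 : ℝ) → 2 * X₂ < z * Real.exp (lam η * K₁) →
    ∀ b : ℤ, b ∈ Ta d z → (open scoped Classical in
      ∑ n ∈ (wc (Pre d b) X₁ X₂ 1 0).filter (fun n => n ∉ Bad d z η K₀), 1 / (n : ℝ))
      ≤ 2 / X₁ + ∑ k ∈ Icc 1 k₃, ∑ w ∈ FW A k, if Val d k b w ∧ 0 < Mw d b w then 2 / (Mw d b w : ℝ) else 0 := by
  classical
  obtain ⟨z₀, hz₀, hv⟩ := visit (Int.odd_iff.1 hd)
  refine ⟨z₀, hz₀, ?_⟩
  intro z hz η hη0 hη K₀ K₁ k₃ A hK01 hKJ hK0 hk3 hKA X₁ X₂ hX1 hX2 hX2' b hb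
  have hz0 : 0 < z := by linarith
  have hX10 : 0 < X₁ := by linarith
  obtain ⟨I, hI⟩ := pow_unbounded_of_one_lt (X₂ + 1) (by norm_num : (1 : ℝ) < 2)
  have hbR : (0 : ℝ) < b := by linarith [hb.1.1]
  have hb0 : 0 < b := by exact_mod_cast hbR
  -- the two families
  set F₁ : Finset ℤ := ((range I).filter (fun j => X₁ ≤ 2 ^ j * (b : ℝ))).image (fun j => 2 ^ j * b) with hF₁
  set Ω : Finset (List ℕ) := (Icc 1 k₃).biUnion (fun k => (FW A k).filter
    (fun w => Val d k b w ∧ 0 < Mw d b w)) with hΩ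
  set F₂ : Finset ℤ := (Ω ×ˢ range I).image (fun p => 2 ^ p.2 * Mw d b p.1) with hF₂
  have hcover : (wc (Pre d b) X₁ X₂ 1 0).filter (fun n => n ∉ Bad d z η K₀) ⊆ F₁ ∪ F₂ := by
    intro n hn
    rw [mem_filter, mem_wc] at hn
    obtain ⟨⟨⟨h1, h2⟩, ⟨j, hj⟩, _⟩, hbad⟩ := hn
    have hnR : (0 : ℝ) < n := by linarith
    have hn0 : 0 < n := by exact_mod_cast hnR
    have habove := above hd1 (z := z) hn0 (j := j) (by rw [hj]; exact hb)
    have hbad1 : n ∉ Bad d z η K₁ := by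
      intro h
      apply hbad
      rcases h with h | ⟨i, h3, h4, h5⟩
      · exact Or.inl h
      · exact Or.inr ⟨i, hK01.trans h3, h4, h5⟩
    have hjK : j < K₁ := hv z hz η hη0 hη K₁ hKJ X₂ hX2 hX2' n h2.le hbad1 j habove (by rw [hj]; exact hb.1.1)
    have hodj : od d j n ≤ k₃ := by
      rcases le_or_gt K₀ j with h | h
      · have h3 : (od d j n : ℝ) ≤ (1 / 2 + η) * j := by
          by_contra hcon
          push Not at hcon
          exact hbad (Or.inr ⟨j, h, by omega, hcon.le⟩)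
        have h4 : (j : ℝ) ≤ K₁ := by exact_mod_cast hjK.le
        have h5 : (od d j n : ℝ) ≤ k₃ := h3.trans ((mul_le_mul_of_nonneg_left h4 (by linarith)).trans hk3)
        exact_mod_cast h5
      · exact (od_le d j n).trans (h.le.trans hK0)
    obtain ⟨i, M, hMo, hM0, hnM⟩ := odd_part hn0
    have hM1 : (1 : ℝ) ≤ M := by
      have : (1 : ℤ) ≤ M := by omega
      exact_mod_cast this
    have hnMR : (n : ℝ) = 2 ^ i * M := by exact_mod_cast hnM
    have hiI : i < I := by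
      by_contra hcon
      push Not at hcon
      have h3 : (2 : ℝ) ^ I ≤ 2 ^ i := pow_le_pow_right₀ (by norm_num) hcon
      have h4 : (2 : ℝ) ^ i ≤ n := by rw [hnMR]; exact le_mul_of_one_le_right (by positivity) hM1
      linarith
    rw [mem_union]
    rcases le_or_gt j i with hji | hji
    · left
      have hbe : b = 2 ^ (i - j) * M := by rw [← hj, hnM, iter_pow_two M j i hji]
      rw [hF₁, mem_image]
      refine ⟨j, ?_, ?_⟩
      · rw [mem_filter, mem_range]
        refine ⟨by omega, ?_⟩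
        have : (2 : ℝ) ^ j * b = n := by
          rw [hbe, hnMR]; push_cast
          rw [← mul_assoc, ← pow_add, Nat.add_sub_cancel' hji]
        rw [this]; exact h1
      · rw [hbe, hnM, ← mul_assoc, ← pow_add, Nat.add_sub_cancel' hji]
    · right
      obtain ⟨t, rfl⟩ : ∃ t, j = i + t := ⟨j - i, by omega⟩
      have ht1 : 1 ≤ t := by omega
      have hTi : (Tz d)^[i] n = M := by rw [hnM, iter_pow_two M i i le_rfl]; simp
      have hTt : (Tz d)^[t] M = b := by
        rw [← hTi, ← Function.iterate_add_apply, add_comm]; exact hj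
      have hM2 : M % 2 = 1 := Int.odd_iff.1 hMo
      have hmem := wd_mem (d := d) hM2 (c := A) (t := t) (by omega)
      have hpos := wd_pos d M t
      have hne := wd_ne_nil (d := d) hM2 t ht1
      have hid := wd_id (d := d) (Int.odd_iff.1 hd) t hM2
      have hlen := wd_length (d := d) (M := M) t
      have hsum := wd_sum (d := d) hM2 t
      rw [hTt] at hid
      set w := wd d M t with hw
      have hval : Val d (od d t M) b w := by
        unfold Val
        rw [hsum, ← hlen, ← hid]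
        exact ⟨M, by ring⟩
      have hMw : Mw d b w = M := by
        unfold Mw
        rw [hsum, ← hid, show 3 ^ w.length * M + d * (Wo w : ℤ) - d * Wo w = 3 ^ w.length * M by ring,
          Int.mul_ediv_cancel_left _ (by positivity)]
      rw [hF₂, mem_image]
      refine ⟨(w, i), ?_, by simp only; rw [hMw, hnM]⟩
      rw [mem_product, mem_range]
      refine ⟨?_, hiI⟩
      rw [hΩ, mem_biUnion]
      refine ⟨od d t M, ?_, ?_⟩
      · rw [mem_Icc]
        constructor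
        · rw [← hlen]
          exact List.length_pos_iff.2 hne
        · have := od_add d i t n
          rw [hTi] at this
          omega
      · rw [mem_filter]
        unfold FWT at hmem
        exact ⟨(mem_filter.1 hmem).1, hval, by rw [hMw]; exact hM0⟩
  have hposU : ∀ n ∈ F₁ ∪ F₂, (0 : ℝ) ≤ 1 / (n : ℝ) := by
    intro n hn
    rw [mem_union] at hn
    rcases hn with hn | hn
    · rw [hF₁, mem_image] at hn
      obtain ⟨j, _, rfl⟩ := hn
      push_cast; positivity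
    · rw [hF₂, mem_image] at hn
      obtain ⟨⟨w, i⟩, hp, rfl⟩ := hn
      rw [mem_product, hΩ, mem_biUnion] at hp
      obtain ⟨⟨k, _, hk⟩, _⟩ := hp
      rw [mem_filter] at hk
      have : (0 : ℝ) < Mw d b w := by exact_mod_cast hk.2.2
      push_cast; positivity
  refine (sum_le_sum_of_subset_of_nonneg hcover (fun n hn _ => hposU n hn)).trans ?_
  have hun : ∑ n ∈ F₁ ∪ F₂, 1 / (n : ℝ) ≤ ∑ n ∈ F₁, 1 / (n : ℝ) + ∑ n ∈ F₂, 1 / (n : ℝ) := by
    rw [← sum_union_inter]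
    have : 0 ≤ ∑ n ∈ F₁ ∩ F₂, 1 / (n : ℝ) :=
      sum_nonneg fun n hn => hposU n (mem_union_left _ (mem_inter.1 hn).1)
    linarith
  refine hun.trans (add_le_add ?_ ?_)
  · rw [hF₁]
    refine (sum_image_le' _ _ (fun n : ℤ => 1 / (n : ℝ)) (fun y _ => by push_cast; positivity)).trans ?_
    by_cases hex : ∃ j : ℕ, X₁ ≤ 2 ^ j * (b : ℝ)
    · set j₀ := Nat.find hex
      have h0 := Nat.find_spec hex
      have hsub : (range I).filter (fun j => X₁ ≤ 2 ^ j * (b : ℝ)) ⊆ (range I).image (fun i => j₀ + i) := by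
        intro j hj
        rw [mem_filter, mem_range] at hj
        have h1 : j₀ ≤ j := Nat.find_min' hex hj.2
        rw [mem_image]
        exact ⟨j - j₀, mem_range.2 (by omega), by omega⟩
      calc ∑ y ∈ (range I).filter (fun j => X₁ ≤ 2 ^ j * (b : ℝ)), 1 / (((2 : ℤ) ^ y * b : ℤ) : ℝ)
          ≤ ∑ y ∈ (range I).image (fun i => j₀ + i), 1 / (((2 : ℤ) ^ y * b : ℤ) : ℝ) :=
            sum_le_sum_of_subset_of_nonneg hsub (fun _ _ _ => by push_cast; positivity)
        _ ≤ ∑ i ∈ range I, 1 / (((2 : ℤ) ^ (j₀ + i) * b : ℤ) : ℝ) :=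
            sum_image_le' _ _ (fun y : ℕ => 1 / (((2 : ℤ) ^ y * b : ℤ) : ℝ)) (fun _ _ => by push_cast; positivity)
        _ = ∑ i ∈ range I, 1 / (2 ^ i * (2 ^ j₀ * (b : ℝ))) := by
            apply sum_congr rfl
            intro i _
            push_cast
            rw [pow_add]
            congr 1
            ring
        _ ≤ 2 / (2 ^ j₀ * (b : ℝ)) := half_geo I (by positivity)
        _ ≤ 2 / X₁ := div_le_div_of_nonneg_left (by norm_num) hX10 h0
    · have : (range I).filter (fun j => X₁ ≤ 2 ^ j * (b : ℝ)) = ∅ := by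
        rw [Finset.eq_empty_iff_forall_notMem]
        intro j hj
        exact hex ⟨j, (mem_filter.1 hj).2⟩
      rw [this, sum_empty]
      positivity
  · rw [hF₂]
    have hΩpos : ∀ w ∈ Ω, (0 : ℝ) < Mw d b w := by
      intro w hw
      rw [hΩ, mem_biUnion] at hw
      obtain ⟨k, _, hk⟩ := hw
      rw [mem_filter] at hk
      exact_mod_cast hk.2.2
    refine (sum_image_le' _ _ (fun n : ℤ => 1 / (n : ℝ)) (fun y hy => by
      rw [mem_product] at hy
      have := hΩpos _ hy.1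
      push_cast; positivity)).trans ?_
    rw [sum_product]
    have h1 : ∀ w ∈ Ω, ∑ i ∈ range I, 1 / (((2 : ℤ) ^ i * Mw d b w : ℤ) : ℝ) ≤ 2 / (Mw d b w : ℝ) := by
      intro w hw
      refine le_trans (le_of_eq ?_) (half_geo I (hΩpos w hw))
      apply sum_congr rfl
      intro i _
      push_cast; rfl
    refine (sum_le_sum h1).trans ?_
    rw [hΩ]
    refine (sum_biUnion_le' _ _ _ ?_).trans ?_
    · intro k _ w hw
      rw [mem_filter] at hw
      have : (0 : ℝ) < Mw d b w := by exact_mod_cast hw.2.2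
      positivity
    · apply sum_le_sum
      intro k _
      rw [sum_filter]

end Pool.Agent.R344.FP
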