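import Pool.Agent.R344.FP.H

/-! Densities of predecessor sets, part I: sizes, and bounds of the integrals for each target. -/

set_option autoImplicit false

namespace Pool.Agent.R344.FP

open Finset MeasureTheory
open Pool.Agent.H320R2.PD Pool.Agent.H499R2.ND
open Pool.Agent.H499R2.CO (Tz)
open Pool.Agent.R344.SP Pool.Agent.R344.TH

theorem Mw_cast {d b : ℤ} {w : List ℕ} (h : Val d w.length b w) :
    (3 : ℝ) ^ w.length * (Mw d b w : ℝ) = 2 ^ w.sum * b - d * (Wo w : ℝ) := by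
  have h1 := Mw_spec h
  unfold Vw at h1
  have h2 : (3 : ℤ) ^ w.length * Mw d b w = 2 ^ w.sum * b - d * Wo w := by linarith
  exact_mod_cast h2

theorem Mw_size {d b : ℤ} (hdd : |(d : ℝ)| ≤ 1) {z ξ : ℝ} (hz : 0 < z) (hb : z ≤ b) {w : List ℕ}
    (hw : ∀ a ∈ w, 1 ≤ a) (hξ : (3 / 2 : ℝ) ^ w.length / z ≤ ξ) (h : Val d w.length b w) :
    (1 - ξ) * (2 ^ w.sum * b / 3 ^ w.length) ≤ (Mw d b w : ℝ) ∧
      (Mw d b w : ℝ) ≤ (1 + ξ) * (2 ^ w.sum * b / 3 ^ w.length) := by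
  have h1 := Mw_cast h
  have h2 := Wo_le hw
  have h3 : (0 : ℝ) < 3 ^ w.length := by positivity
  have h4 : (0 : ℝ) < 2 ^ w.sum := by positivity
  have h5 : |(d : ℝ) * (Wo w : ℝ)| ≤ 2 ^ w.sum * (ξ * b) := by
    have hWo0 : (0 : ℝ) ≤ (Wo w : ℝ) := Nat.cast_nonneg _
    rw [abs_mul, abs_of_nonneg hWo0]
    have h6 : (3 / 2 : ℝ) ^ w.length ≤ ξ * z := by rwa [div_le_iff₀ hz] at hξ
    have hξ0 : 0 ≤ ξ := le_trans (by positivity) hξ
    have h7 : ξ * z ≤ ξ * b := mul_le_mul_of_nonneg_left hb hξ0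
    calc |(d : ℝ)| * (Wo w : ℝ) ≤ 1 * (Wo w : ℝ) := mul_le_mul_of_nonneg_right hdd hWo0
      _ ≤ 2 ^ w.sum * ((3 / 2 : ℝ) ^ w.length - 1) := by rw [one_mul]; exact h2
      _ ≤ 2 ^ w.sum * (ξ * b) := by
        apply mul_le_mul_of_nonneg_left _ h4.le
        linarith
  rw [abs_le] at h5
  constructor
  · rw [mul_div_assoc', div_le_iff₀ h3]
    nlinarith [h5.2, h1]
  · rw [mul_div_assoc', le_div_iff₀ h3]
    nlinarith [h5.1, h1]

theorem inv_size {Q ξ M : ℝ} (hQ : 0 < Q) (hξ0 : 0 ≤ ξ) (hξ : ξ ≤ 1 / 4) (h1 : (1 - ξ) * Q ≤ M)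
    (h2 : M ≤ (1 + ξ) * Q) : 0 < M ∧ (1 - ξ) * (2 / Q) ≤ 2 / M ∧ 2 / M ≤ (1 + 2 * ξ) * (2 / Q) := by
  have hM : 0 < M := lt_of_lt_of_le (mul_pos (by linarith) hQ) h1
  refine ⟨hM, ?_, ?_⟩
  · rw [mul_div_assoc', div_le_div_iff₀ hQ hM]
    have : (1 - ξ) * M ≤ (1 - ξ) * ((1 + ξ) * Q) := mul_le_mul_of_nonneg_left h2 (by linarith)
    nlinarith [mul_nonneg (mul_nonneg hξ0 hξ0) hQ.le]
  · rw [mul_div_assoc', div_le_div_iff₀ hM hQ]
    have : (1 + 2 * ξ) * ((1 - ξ) * Q) ≤ (1 + 2 * ξ) * M := mul_le_mul_of_nonneg_left h1 (by linarith)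
    nlinarith [mul_nonneg (mul_nonneg hξ0 (by linarith : (0 : ℝ) ≤ 1 - 2 * ξ)) hQ.le]

theorem two_div_Q {b : ℤ} (hb : (0 : ℝ) < b) (w : List ℕ) (k : ℕ) :
    2 / (2 ^ w.sum * (b : ℝ) / 3 ^ k) = 2 / b * (3 ^ k * wwt w) := by
  unfold wwt
  have h4 : (0 : ℝ) < 2 ^ w.sum := by positivity
  rw [one_div, inv_pow]
  field_simp

/-- sizes of the words of length `k` close to the mean -/
noncomputable def Tk (η : ℝ) (A k : ℕ) : Finset ℕ := (range (k * A + 1)).filter (fun T => |(T : ℝ) - 2 * k| < η * k)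

theorem Tk_sub (η : ℝ) (A k : ℕ) : Tk η A k ⊆ range (k * A + 1) := filter_subset _ _

theorem Am_eq (d : ℤ) (A k M : ℕ) (Ts : Finset ℕ) (b : ℤ) :
    Am d A k M Ts b = ∑ w ∈ (FW A k).filter (fun w => w.sum ∈ Ts), if Val d M b w then wwt w else 0 := by
  classical
  unfold Am
  rw [← sum_fiberwise_of_maps_to (s := (FW A k).filter (fun w => w.sum ∈ Ts)) (t := Ts) (g := fun w => w.sum)
    (fun w hw => (mem_filter.1 hw).2)]
  apply sum_congr rfl
  intro T hT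
  unfold FWT
  rw [filter_filter]
  apply sum_congr _ (fun _ _ => rfl)
  apply filter_congr
  intro w _
  constructor
  · intro h; exact ⟨by rw [h]; exact hT, h⟩
  · exact fun h => h.2

theorem sum_lt {A k : ℕ} {w : List ℕ} (hw : w ∈ FW A k) : w.sum < k * A + 1 := by
  have h := mem_FW.1 hw
  have := List.sum_le_card_nsmul w A (fun x hx => (h.2 x hx).2)
  rw [h.1] at this
  simp only [smul_eq_mul] at this
  omega

theorem mem_Tk_sum {η : ℝ} {A k : ℕ} {w : List ℕ} (hw : w ∈ FW A k) :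
    w.sum ∈ Tk η A k ↔ |(w.sum : ℝ) - 2 * k| < η * k := by
  unfold Tk
  rw [mem_filter, mem_range]
  exact ⟨fun h => h.2, fun h => ⟨sum_lt hw, h⟩⟩

theorem Am_all (d : ℤ) (A k M : ℕ) (b : ℤ) :
    Am d A k M (range (k * A + 1)) b = ∑ w ∈ FW A k, if Val d M b w then wwt w else 0 := by
  rw [Am_eq, filter_true_of_mem]
  intro w hw
  exact mem_range.2 (sum_lt hw)

theorem exp_log_pow {T k : ℕ} {x : ℝ} (h : x ≤ T * Real.log 2 - k * Real.log 3) :
    Real.exp x ≤ 2 ^ T / 3 ^ k := by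
  have : (2 : ℝ) ^ T / 3 ^ k = Real.exp (T * Real.log 2 - k * Real.log 3) := by
    rw [Real.exp_sub, mul_comm, Real.exp_mul, mul_comm (k : ℝ), Real.exp_mul, Real.exp_log (by norm_num),
      Real.exp_log (by norm_num), Real.rpow_natCast, Real.rpow_natCast]
  rw [this]
  exact Real.exp_le_exp.2 h

theorem exp_log_pow' {T k : ℕ} {x : ℝ} (h : T * Real.log 2 - k * Real.log 3 ≤ x) :
    2 ^ T / 3 ^ k ≤ Real.exp x := by
  have : (2 : ℝ) ^ T / 3 ^ k = Real.exp (T * Real.log 2 - k * Real.log 3) := by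
    rw [Real.exp_sub, mul_comm, Real.exp_mul, mul_comm (k : ℝ), Real.exp_mul, Real.exp_log (by norm_num),
      Real.exp_log (by norm_num), Real.rpow_natCast, Real.rpow_natCast]
  rw [this]
  exact Real.exp_le_exp.2 h

/-- lower bound for one target -/
theorem LB2 {d : ℤ} (hd : Odd d) (hdd : |(d : ℝ)| ≤ 1) {z η ξ τ₀ R : ℝ} {κ k₁ k₂ A : ℕ} {b : ℤ}
    (hb : b ∈ Go d z κ) (hz : 1 ≤ z) (hη : 0 < η) (hη1 : η ≤ 1 / 20) (hξ : (3 / 2 : ℝ) ^ k₂ / z ≤ ξ) (hξ4 : ξ ≤ 1 / 4)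
    (hτ : 1 ≤ τ₀) (hR : 0 ≤ R) (hk : 1 ≤ k₁) (h1 : τ₀ + 3 ≤ k₁ * (Real.log (4 / 3) - η * Real.log 2))
    (h2 : k₂ * (Real.log (4 / 3) + η * Real.log 2) ≤ R) :
    (1 - 2 * Real.exp (-τ₀)) * (1 - ξ) * (2 / b * ∑ k ∈ Icc k₁ k₂, 3 ^ k * Am d A k k (Tk η A k) b)
      ≤ 3 * ∫ t in (τ₀ + Real.log (2 * z))..(τ₀ + Real.log (2 * z) + R), Fd (Pre d b) t := by
  classical
  have hz0 : 0 < z := by linarith
  have hbz : z ≤ (b : ℝ) := hb.1.1.1
  have hb2 : (b : ℝ) < 2 * z := hb.1.1.2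
  have hb0 : (0 : ℝ) < b := by linarith
  have hξ0 : 0 ≤ ξ := le_trans (by positivity) hξ
  have hl2 : 0 < Real.log 2 := Real.log_pos (by norm_num)
  have hl2' := Real.log_two_lt_d9
  have hl43 := log43_ge
  refine le_trans ?_ (le_int_Fd (Pre d b) (a := τ₀ + Real.log (2 * z)) (by linarith))
  have hexp1 : Real.exp (τ₀ + Real.log (2 * z)) = Real.exp τ₀ * (2 * z) := by
    rw [Real.exp_add, Real.exp_log (by positivity)]
  have hexp2 : Real.exp (τ₀ + Real.log (2 * z) + R) = Real.exp τ₀ * (2 * z) * Real.exp R := by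
    rw [Real.exp_add, hexp1]
  rw [hexp1, hexp2]
  set X₁ := 2 * (Real.exp τ₀ * (2 * z)) with hX₁
  set X₂ := Real.exp τ₀ * (2 * z) * Real.exp R with hX₂
  have hX1 : 0 < X₁ := by positivity
  have hX2 : 0 < X₂ := by positivity
  set Wd : Finset (List ℕ) := (Icc k₁ k₂).biUnion (fun k => (FW A k).filter
    (fun w => w.sum ∈ Tk η A k ∧ Val d k b w)) with hWd
  have he2 : (2 : ℝ) ≤ Real.exp τ₀ := by linarith [Real.add_one_le_exp τ₀]
  -- sizes
  have key : ∀ k ∈ Icc k₁ k₂, ∀ w ∈ FW A k, w.sum ∈ Tk η A k → Val d k b w →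
      w ≠ [] ∧ (∀ a ∈ w, 1 ≤ a) ∧ Val d w.length b w ∧ X₁ ≤ (Mw d b w : ℝ) ∧ (Mw d b w : ℝ) < X₂ ∧
      (1 - 2 * Real.exp (-τ₀)) * (1 - ξ) * (2 / b * (3 ^ k * wwt w)) ≤ 2 / (Mw d b w : ℝ) - 2 / X₂ := by
    intro k hk w hw hT hV
    rw [mem_Icc] at hk
    have hm := mem_FW.1 hw
    have hpos : ∀ a ∈ w, 1 ≤ a := fun a ha => (hm.2 a ha).1
    have hV' : Val d w.length b w := by rw [hm.1]; exact hV
    have hkR : (k₁ : ℝ) ≤ k ∧ (k : ℝ) ≤ k₂ := ⟨by exact_mod_cast hk.1, by exact_mod_cast hk.2⟩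
    have hξk : (3 / 2 : ℝ) ^ w.length / z ≤ ξ := by
      refine le_trans ?_ hξ
      rw [hm.1]
      exact div_le_div_of_nonneg_right (pow_le_pow_right₀ (by norm_num) hk.2) hz0.le
    obtain ⟨hs1, hs2⟩ := Mw_size hdd hz0 hbz hpos hξk hV'
    rw [mem_Tk_sum hw, abs_lt] at hT
    rw [hm.1] at hs1 hs2
    have hQ : 0 < 2 ^ w.sum * (b : ℝ) / 3 ^ k := by positivity
    obtain ⟨hM0, hs3, _⟩ := inv_size hQ hξ0 hξ4 hs1 hs2
    rw [two_div_Q hb0] at hs3
    have hlo : Real.exp (τ₀ + 3) ≤ 2 ^ w.sum / 3 ^ k := by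
      apply exp_log_pow
      have e1 : (2 * k - η * k) * Real.log 2 ≤ w.sum * Real.log 2 :=
        mul_le_mul_of_nonneg_right (by linarith [hT.1]) hl2.le
      have e2 : (k₁ : ℝ) * (Real.log (4 / 3) - η * Real.log 2) ≤ k * (Real.log (4 / 3) - η * Real.log 2) := by
        apply mul_le_mul_of_nonneg_right hkR.1
        nlinarith
      rw [log43] at e2 h1
      nlinarith
    have hup : (2 : ℝ) ^ w.sum / 3 ^ k ≤ Real.exp R := by
      apply exp_log_pow'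
      have e1 : w.sum * Real.log 2 ≤ (2 * k + η * k) * Real.log 2 :=
        mul_le_mul_of_nonneg_right (by linarith [hT.2]) hl2.le
      have e2 : (k : ℝ) * (Real.log (4 / 3) + η * Real.log 2) ≤ k₂ * (Real.log (4 / 3) + η * Real.log 2) := by
        apply mul_le_mul_of_nonneg_right hkR.2
        nlinarith
      rw [log43] at e2 h2
      nlinarith
    have hMlo : X₁ ≤ (Mw d b w : ℝ) := by
      have e3 : (8 : ℝ) ≤ Real.exp 3 := by
        have := Real.quadratic_le_exp_of_nonneg (x := 3) (by norm_num)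
        linarith
      have e4 : Real.exp τ₀ * 8 ≤ 2 ^ w.sum / 3 ^ k := by
        rw [Real.exp_add] at hlo
        exact (mul_le_mul_of_nonneg_left e3 (Real.exp_pos _).le).trans hlo
      have e5 : (3 / 4 : ℝ) * (Real.exp τ₀ * 8 * z) ≤ (1 - ξ) * (2 ^ w.sum * b / 3 ^ k) := by
        have e6 : Real.exp τ₀ * 8 * z ≤ 2 ^ w.sum * b / 3 ^ k := by
          rw [mul_div_right_comm]
          exact mul_le_mul e4 hbz hz0.le (by positivity)
        exact mul_le_mul (by linarith) e6 (by positivity) (by linarith)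
      have e7 : X₁ = Real.exp τ₀ * 4 * z := by rw [hX₁]; ring
      rw [e7]
      nlinarith [mul_pos (Real.exp_pos τ₀) hz0]
    have hMup : (Mw d b w : ℝ) ≤ 5 / 4 * (2 * z * Real.exp R) := by
      refine hs2.trans ?_
      have e6 : 2 ^ w.sum * (b : ℝ) / 3 ^ k ≤ 2 * z * Real.exp R := by
        rw [mul_div_right_comm, mul_comm (2 * z)]
        exact mul_le_mul hup hb2.le hb0.le (Real.exp_pos _).le
      exact mul_le_mul (by linarith) e6 hQ.le (by norm_num)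
    have hzR : 0 < 2 * z * Real.exp R := by positivity
    have hMX : (Mw d b w : ℝ) < X₂ := by
      have : X₂ = Real.exp τ₀ * (2 * z * Real.exp R) := by rw [hX₂]; ring
      rw [this]
      nlinarith
    refine ⟨?_, hpos, hV', hMlo, hMX, ?_⟩
    · intro h
      rw [h] at hm
      have := hm.1
      simp at this
      omega
    · have e8 : 2 / X₂ ≤ 2 * Real.exp (-τ₀) * (2 / (Mw d b w : ℝ)) := by
        have : X₂ = Real.exp τ₀ * (2 * z * Real.exp R) := by rw [hX₂]; ring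
        rw [this, Real.exp_neg, mul_div_assoc', div_le_div_iff₀ (by positivity) hM0]
        have e9 : 2 * (Real.exp τ₀)⁻¹ * 2 * (Real.exp τ₀ * (2 * z * Real.exp R)) = 4 * (2 * z * Real.exp R) := by
          field_simp; ring
        rw [e9]
        linarith
      have e10 : (1 - 2 * Real.exp (-τ₀)) * ((1 - ξ) * (2 / b * (3 ^ k * wwt w)))
          ≤ (1 - 2 * Real.exp (-τ₀)) * (2 / (Mw d b w : ℝ)) := by
        apply mul_le_mul_of_nonneg_left hs3
        have : Real.exp (-τ₀) ≤ 1 / 2 := by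
          rw [Real.exp_neg, inv_eq_one_div]
          exact one_div_le_one_div_of_le (by norm_num) he2
        linarith
      rw [mul_assoc]
      linarith
  have hW : ∀ w ∈ Wd, w ≠ [] ∧ (∀ a ∈ w, 1 ≤ a) ∧ Val d w.length b w ∧
      X₁ ≤ (Mw d b w : ℝ) ∧ (Mw d b w : ℝ) < X₂ := by
    intro w hw
    rw [hWd, mem_biUnion] at hw
    obtain ⟨k, hk, hw⟩ := hw
    rw [mem_filter] at hw
    obtain ⟨a1, a2, a3, a4, a5, _⟩ := key k hk w hw.1 hw.2.1 hw.2.2
    exact ⟨a1, a2, a3, a4, a5⟩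
  refine le_trans ?_ (LB1 hd hb hX1 Wd hW)
  rw [hWd, sum_biUnion]
  · rw [mul_sum, mul_sum]
    apply sum_le_sum
    intro k hk
    rw [Am_eq, ← sum_filter, filter_filter, mul_sum, mul_sum, mul_sum]
    apply sum_le_sum
    intro w hw
    rw [mem_filter] at hw
    exact (key k hk w hw.1 hw.2.1 hw.2.2).2.2.2.2.2
  · intro k _ k' _ hne
    rw [Function.onFun, Finset.disjoint_left]
    intro w hw hw'
    rw [mem_filter] at hw hw'
    apply hne
    rw [← (mem_FW.1 hw.1).1, ← (mem_FW.1 hw'.1).1]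

end Pool.Agent.R344.FP
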