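import Pool.Agent.R344.FP.I

/-! Densities of predecessor sets, part J: upper bound. -/

set_option autoImplicit false

namespace Pool.Agent.R344.FP

open Finset MeasureTheory
open Pool.Agent.H320R2.PD Pool.Agent.H499R2.ND
open Pool.Agent.H499R2.CO (Tz)
open Pool.Agent.R344.SP Pool.Agent.R344.TH

theorem blocks {S : Set ℤ} {ρ X₁ : ℝ} (hX : 0 < X₁) (h : ∀ A : ℝ, X₁ ≤ A → ct S A ≤ A * ρ) :
    ∀ J : ℕ, ∑ n ∈ wc S X₁ (2 ^ J * X₁) 1 0, 1 / (n : ℝ) ≤ J * ρ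
  | 0 => by
    have : wc S X₁ (2 ^ 0 * X₁) 1 0 = ∅ := by
      rw [Finset.eq_empty_iff_forall_notMem]
      intro n hn
      rw [mem_wc] at hn
      linarith [hn.1.1, hn.1.2]
    rw [this]; simp
  | J + 1 => by
    classical
    have ih := blocks hX h J
    have hp : (1 : ℝ) ≤ 2 ^ J := one_le_pow₀ (by norm_num)
    have hA : X₁ ≤ 2 ^ J * X₁ := le_mul_of_one_le_left hX.le hp
    have hA0 : 0 < 2 ^ J * X₁ := by positivity
    have hsub : wc S X₁ (2 ^ (J + 1) * X₁) 1 0 ⊆ wc S X₁ (2 ^ J * X₁) 1 0 ∪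
        (Wn (2 ^ J * X₁)).filter (fun n => n ∈ S) := by
      intro n hn
      rw [mem_wc] at hn
      rw [mem_union, mem_wc, mem_filter, mem_Wn]
      rcases lt_or_ge (n : ℝ) (2 ^ J * X₁) with h1 | h1
      · exact Or.inl ⟨⟨hn.1.1, h1⟩, hn.2⟩
      · refine Or.inr ⟨⟨h1, ?_⟩, hn.2.1⟩
        have := hn.1.2
        rw [pow_succ] at this
        linarith
    have hpos : ∀ n ∈ wc S X₁ (2 ^ J * X₁) 1 0 ∪ (Wn (2 ^ J * X₁)).filter (fun n => n ∈ S), (0 : ℝ) ≤ 1 / (n : ℝ) := by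
      intro n hn
      rw [mem_union, mem_wc, mem_filter, mem_Wn] at hn
      have : (0 : ℝ) < n := by
        rcases hn with hn | hn
        · linarith [hn.1.1]
        · linarith [hn.1.1]
      positivity
    refine (sum_le_sum_of_subset_of_nonneg hsub (fun n hn _ => hpos n hn)).trans ?_
    have h1 := sum_union_inter (s₁ := wc S X₁ (2 ^ J * X₁) 1 0)
      (s₂ := (Wn (2 ^ J * X₁)).filter (fun n => n ∈ S)) (f := fun n : ℤ => 1 / (n : ℝ))
    have h2 : 0 ≤ ∑ n ∈ wc S X₁ (2 ^ J * X₁) 1 0 ∩ (Wn (2 ^ J * X₁)).filter (fun n => n ∈ S), 1 / (n : ℝ) :=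
      sum_nonneg fun n hn => hpos n (mem_union_left _ (mem_inter.1 hn).1)
    have h3 : ∑ n ∈ (Wn (2 ^ J * X₁)).filter (fun n => n ∈ S), 1 / (n : ℝ) ≤ ρ := by
      have h4 : ∀ n ∈ (Wn (2 ^ J * X₁)).filter (fun n => n ∈ S), 1 / (n : ℝ) ≤ 1 / (2 ^ J * X₁) := by
        intro n hn
        rw [mem_filter, mem_Wn] at hn
        exact one_div_le_one_div_of_le hA0 hn.1.1
      refine (sum_le_sum h4).trans ?_
      rw [sum_const, nsmul_eq_mul]
      have h5 := h _ hA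
      unfold ct at h5
      calc (((Wn (2 ^ J * X₁)).filter (fun n => n ∈ S)).card : ℝ) * (1 / (2 ^ J * X₁))
          ≤ (2 ^ J * X₁ * ρ) * (1 / (2 ^ J * X₁)) := mul_le_mul_of_nonneg_right h5 (by positivity)
        _ = ρ := by field_simp
    push_cast
    linarith

/-- upper bound for the sum over targets -/
theorem UB2 {d : ℤ} (hd : Odd d) (hd3 : IsCoprime d 3) (hdd : |(d : ℝ)| ≤ 1) (N : ℕ) : ∃ z₀ C : ℝ, 2 ≤ z₀ ∧ 0 < C ∧
    ∀ z : ℝ, z₀ ≤ z → ∀ η : ℝ, 0 < η → η ≤ 1 / 20 → ∀ K₀ K₁ k₃ A : ℕ, K₀ ≤ K₁ → K₁ ≤ Nat.log 2 ⌊z⌋₊ → K₀ ≤ k₃ →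
    (1 / 2 + η) * K₁ ≤ k₃ → K₁ ≤ A → ∀ τ₀ R ξ : ℝ, 0 ≤ τ₀ → 0 ≤ R → 4 * Real.exp (τ₀ + R) ≤ z ^ (1 / 100 : ℝ) →
    8 * Real.exp (τ₀ + R) < Real.exp (lam η * K₁) → (3 / 2 : ℝ) ^ k₃ / z ≤ ξ → ξ ≤ 1 / 4 →
    ∀ κ : ℕ, ∀ E : Finset ℤ, (∀ b ∈ E, b ∈ Go d z κ) →
    ∑ b ∈ E, 3 * (∫ t in (τ₀ + Real.log (2 * z))..(τ₀ + Real.log (2 * z) + R), Fd (Pre d b) t)
      ≤ κ * ((2 * R + 2) * (C / (Real.log z) ^ N + 4 / η ^ 2 * Real.exp (-(2 * η ^ 2 * K₀)))) + 2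
        + (1 + 2 * ξ) * ∑ b ∈ E, 2 / b * ∑ k ∈ Icc 1 k₃, 3 ^ k * Gs d A k b := by
  classical
  have hd1 : -1 ≤ d := by
    have : (-1 : ℝ) ≤ d := by linarith [(abs_le.1 hdd).1]
    exact_mod_cast this
  obtain ⟨z₁, hz₁, hUB⟩ := UB1 hd hd1
  obtain ⟨z₂, C, hz₂, hC, hbad⟩ := bad_count hd hd3 N
  refine ⟨max z₁ z₂, C, le_trans hz₁ (le_max_left _ _), hC, ?_⟩
  intro z hz η hη0 hη K₀ K₁ k₃ A hK01 hKJ hK0 hk3 hKA τ₀ R ξ hτ hR hw1 hw2 hξ hξ4 κ E hE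
  have hzz₁ : z₁ ≤ z := (le_max_left _ _).trans hz
  have hzz₂ : z₂ ≤ z := (le_max_right _ _).trans hz
  have hz2 : 2 ≤ z := hz₁.trans hzz₁
  have hz0 : 0 < z := by linarith
  have hξ0 : 0 ≤ ξ := le_trans (by positivity) hξ
  have hexp1 : Real.exp (τ₀ + Real.log (2 * z)) = Real.exp τ₀ * (2 * z) := by
    rw [Real.exp_add, Real.exp_log (by positivity)]
  have hexp2 : 2 * Real.exp (τ₀ + Real.log (2 * z) + R) = z * (4 * Real.exp (τ₀ + R)) := by
    rw [Real.exp_add, hexp1, Real.exp_add]; ring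
  set X₁ := Real.exp τ₀ * (2 * z) with hX₁
  set X₂ := z * (4 * Real.exp (τ₀ + R)) with hX₂
  have he1 : 1 ≤ Real.exp τ₀ := by linarith [Real.add_one_le_exp τ₀]
  have hX1 : 2 * z ≤ X₁ := by rw [hX₁]; nlinarith
  have hX10 : 0 < X₁ := by linarith
  set ρ := C / (Real.log z) ^ N + 4 / η ^ 2 * Real.exp (-(2 * η ^ 2 * K₀)) with hρ
  have hlz : 0 < Real.log z := Real.log_pos (by linarith)
  have hρ0 : 0 ≤ ρ := by rw [hρ]; positivity
  -- the number of blocks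
  obtain ⟨J, hJ1, hJ2⟩ : ∃ J : ℕ, X₂ ≤ 2 ^ J * X₁ ∧ (J : ℝ) ≤ 2 * R + 2 := by
    refine ⟨⌈2 * R⌉₊ + 1, ?_, ?_⟩
    · have h1 : X₂ = 2 * Real.exp R * X₁ := by rw [hX₂, hX₁, Real.exp_add]; ring
      rw [h1]
      apply mul_le_mul_of_nonneg_right _ hX10.le
      have h2 : Real.exp R ≤ 2 ^ ⌈2 * R⌉₊ := by
        have h3 : (2 : ℝ) ^ ⌈2 * R⌉₊ = Real.exp (Real.log 2 * ⌈2 * R⌉₊) := by
          rw [Real.exp_mul, Real.exp_log (by norm_num), Real.rpow_natCast]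
        rw [h3]
        apply Real.exp_le_exp.2
        have h4 := Nat.le_ceil (2 * R)
        have h5 := Real.log_two_gt_d9
        nlinarith
      rw [pow_succ]; linarith
    · push_cast
      have := Nat.ceil_lt_add_one (by positivity : 0 ≤ 2 * R)
      linarith
  -- bad part
  have hbadmass : ∑ n ∈ wc (Bad d z η K₀) X₁ X₂ 1 0, 1 / (n : ℝ) ≤ (2 * R + 2) * ρ := by
    have h1 := blocks (S := Bad d z η K₀) (ρ := ρ) hX10 (fun A hA => hbad z hzz₂ η hη0 hη K₀ A (by linarith)) J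
    refine le_trans ?_ (h1.trans (mul_le_mul_of_nonneg_right hJ2 hρ0))
    apply sum_le_sum_of_subset_of_nonneg
    · intro n hn
      rw [mem_wc] at hn ⊢
      exact ⟨⟨hn.1.1, hn.1.2.trans_le hJ1⟩, hn.2⟩
    · intro n hn _
      rw [mem_wc] at hn
      have : (0 : ℝ) < n := by linarith [hn.1.1]
      positivity
  have h1 : ∀ b ∈ E, 3 * (∫ t in (τ₀ + Real.log (2 * z))..(τ₀ + Real.log (2 * z) + R), Fd (Pre d b) t)
      ≤ ∑ n ∈ (wc (Pre d b) X₁ X₂ 1 0).filter (fun n => n ∈ Bad d z η K₀), 1 / (n : ℝ)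
        + (2 / X₁ + (1 + 2 * ξ) * (2 / b * ∑ k ∈ Icc 1 k₃, 3 ^ k * Gs d A k b)) := by
    intro b hb
    have h2 := int_Fd_le (Pre d b) (a := τ₀ + Real.log (2 * z)) (b := τ₀ + Real.log (2 * z) + R) (by linarith)
    rw [hexp1, hexp2] at h2
    rw [← sum_filter_add_sum_filter_not (wc (Pre d b) X₁ X₂ 1 0) (fun n => n ∈ Bad d z η K₀)] at h2
    refine h2.trans (add_le_add le_rfl ?_)
    refine (hUB z hzz₁ η hη0 hη K₀ K₁ k₃ A hK01 hKJ hK0 hk3 hKA X₁ X₂ hX1 ?_ ?_ b (hE b hb).1).trans ?_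
    · rw [hX₂]; exact mul_le_mul_of_nonneg_left hw1 hz0.le
    · rw [hX₂]
      have : 2 * (z * (4 * Real.exp (τ₀ + R))) = z * (8 * Real.exp (τ₀ + R)) := by ring
      rw [this]
      exact mul_lt_mul_of_pos_left hw2 hz0
    · refine add_le_add le_rfl ?_
      have hbz : z ≤ (b : ℝ) := (hE b hb).1.1.1
      have hb0 : (0 : ℝ) < b := by linarith
      rw [mul_sum, mul_sum]
      apply sum_le_sum
      intro k hk
      rw [mem_Icc] at hk
      unfold Gs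
      rw [mul_sum, mul_sum, mul_sum]
      apply sum_le_sum
      intro w hw
      have hm := mem_FW.1 hw
      have hpos : ∀ a ∈ w, 1 ≤ a := fun a ha => (hm.2 a ha).1
      by_cases hV : Val d k b w
      · have hV' : Val d w.length b w := by rw [hm.1]; exact hV
        have hξk : (3 / 2 : ℝ) ^ w.length / z ≤ ξ := by
          refine le_trans ?_ hξ
          rw [hm.1]
          exact div_le_div_of_nonneg_right (pow_le_pow_right₀ (by norm_num) hk.2) hz0.le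
        obtain ⟨hs1, hs2⟩ := Mw_size hdd hz0 hbz hpos hξk hV'
        rw [hm.1] at hs1 hs2
        have hQ : 0 < 2 ^ w.sum * (b : ℝ) / 3 ^ k := by positivity
        obtain ⟨hM0, _, hs3⟩ := inv_size hQ hξ0 hξ4 hs1 hs2
        rw [two_div_Q hb0] at hs3
        have hM0' : 0 < Mw d b w := by exact_mod_cast hM0
        rw [if_pos ⟨hV, hM0'⟩, if_pos hV]
        exact hs3
      · rw [if_neg (fun h => hV h.1), if_neg hV]; simp
  refine (sum_le_sum h1).trans ?_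
  rw [sum_add_distrib, sum_add_distrib, sum_const, nsmul_eq_mul, ← mul_sum, ← add_assoc]
  refine add_le_add (add_le_add ?_ ?_) le_rfl
  · -- bad part
    have h2 : ∑ b ∈ E, ∑ n ∈ (wc (Pre d b) X₁ X₂ 1 0).filter (fun n => n ∈ Bad d z η K₀), 1 / (n : ℝ)
        = ∑ n ∈ wc (Bad d z η K₀) X₁ X₂ 1 0, ((E.filter (fun b => n ∈ Pre d b)).card : ℝ) * (1 / (n : ℝ)) := by
      have h3 : ∀ b ∈ E, ∑ n ∈ (wc (Pre d b) X₁ X₂ 1 0).filter (fun n => n ∈ Bad d z η K₀), 1 / (n : ℝ)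
          = ∑ n ∈ wc (Bad d z η K₀) X₁ X₂ 1 0, if n ∈ Pre d b then 1 / (n : ℝ) else 0 := by
        intro b _
        rw [← sum_filter]
        apply sum_congr _ (fun _ _ => rfl)
        ext n
        rw [mem_filter, mem_filter, mem_wc, mem_wc]
        tauto
      rw [sum_congr rfl h3, sum_comm]
      apply sum_congr rfl
      intro n _
      rw [← sum_filter, sum_const, nsmul_eq_mul]
    rw [h2]
    calc ∑ n ∈ wc (Bad d z η K₀) X₁ X₂ 1 0, ((E.filter (fun b => n ∈ Pre d b)).card : ℝ) * (1 / (n : ℝ))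
        ≤ ∑ n ∈ wc (Bad d z η K₀) X₁ X₂ 1 0, (κ : ℝ) * (1 / (n : ℝ)) := by
          apply sum_le_sum
          intro n hn
          rw [mem_wc] at hn
          have hn0 : (0 : ℝ) < n := by linarith [hn.1.1]
          apply mul_le_mul_of_nonneg_right _ (by positivity)
          have := visits_le hE n
          exact_mod_cast this
      _ = κ * ∑ n ∈ wc (Bad d z η K₀) X₁ X₂ 1 0, 1 / (n : ℝ) := by rw [mul_sum]
      _ ≤ κ * ((2 * R + 2) * ρ) := mul_le_mul_of_nonneg_left hbadmass (Nat.cast_nonneg _)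
  · have hcard : (E.card : ℝ) ≤ z + 1 := by
      have hsub : E ⊆ Wn z := by
        intro b hb
        rw [mem_Wn]
        exact (hE b hb).1.1
      have h3 : (E.card : ℝ) ≤ ((Wn z).card : ℝ) := by exact_mod_cast card_le_card hsub
      exact h3.trans (Wn_card hz0.le)
    have h4 : 2 / X₁ ≤ 2 / (2 * z) := div_le_div_of_nonneg_left (by norm_num) (by linarith) hX1
    calc (E.card : ℝ) * (2 / X₁) ≤ (z + 1) * (2 / (2 * z)) :=
          mul_le_mul hcard h4 (by positivity) (by linarith)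
      _ ≤ 2 := by
        rw [mul_div_assoc', div_le_iff₀ (by linarith)]
        nlinarith

end Pool.Agent.R344.FP
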