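import Pool.Agent.R344.FP.J

/-! Densities of predecessor sets, part K: sums of the 3-adic density over targets. -/

set_option autoImplicit false

namespace Pool.Agent.R344.FP

open Finset MeasureTheory
open Pool.Agent.H320R2.PD Pool.Agent.H499R2.ND
open Pool.Agent.H499R2.CO (Tz)
open Pool.Agent.R344.SP Pool.Agent.R344.TH

theorem E_card {z : ℝ} (hz : 0 ≤ z) {E : Finset ℤ} (hE : ∀ b ∈ E, z ≤ (b : ℝ) ∧ (b : ℝ) < 2 * z) :
    (E.card : ℝ) ≤ z + 1 := by
  have hsub : E ⊆ Wn z := by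
    intro b hb
    rw [mem_Wn]
    exact hE b hb
  have h3 : (E.card : ℝ) ≤ ((Wn z).card : ℝ) := by exact_mod_cast card_le_card hsub
  exact h3.trans (Wn_card hz)

theorem gg_nonneg (d : ℤ) (L : ℕ) (b : ℤ) : 0 ≤ gg d L b := (gg_bounds d L b).1

theorem Gs_sum {d : ℤ} {z : ℝ} (hz : 0 < z) (A L : ℕ) {E : Finset ℤ}
    (hE : ∀ b ∈ E, z ≤ (b : ℝ) ∧ (b : ℝ) < 2 * z) : ∑ b ∈ E, Gs d A L b ≤ z / 3 ^ L + 1 := by
  classical
  unfold Gs
  rw [sum_comm]
  have h1 : ∀ w ∈ FW A L, ∑ b ∈ E, (if Val d L b w then wwt w else 0) ≤ wwt w * (z / 3 ^ L + 1) := by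
    intro w _
    rw [← sum_filter, sum_const, nsmul_eq_mul, mul_comm]
    have hw0 : 0 ≤ wwt w := by unfold wwt; positivity
    apply mul_le_mul_of_nonneg_left _ hw0
    have h3 : E.filter (fun b => Val d L b w) ⊆ cl z (2 * z) L (2 ^ w.sum) (d * Wo w) := by
      intro x hx
      rw [mem_filter] at hx
      rw [mem_cl]
      exact ⟨hE x hx.1, hx.2⟩
    have h4 := cl_card_le (a := z) (b := 2 * z) (by linarith) L (u := 2 ^ w.sum) (cop_two_pow w.sum) (d * Wo w)
    have h5 : ((E.filter (fun b => Val d L b w)).card : ℝ) ≤ ((cl z (2 * z) L (2 ^ w.sum) (d * Wo w)).card : ℝ) := by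
      exact_mod_cast card_le_card h3
    refine h5.trans (h4.trans (le_of_eq ?_))
    ring
  refine (sum_le_sum h1).trans ?_
  rw [← sum_mul]
  calc (∑ w ∈ FW A L, wwt w) * (z / 3 ^ L + 1) ≤ 1 * (z / 3 ^ L + 1) :=
        mul_le_mul_of_nonneg_right (sum_wwt_le A L) (by positivity)
    _ = _ := one_mul _

theorem gg_sum {d : ℤ} {z : ℝ} (hz : 1 ≤ z) {L : ℕ} (hL : (3 : ℝ) ^ L ≤ z) {E : Finset ℤ}
    (hE : ∀ b ∈ E, z ≤ (b : ℝ) ∧ (b : ℝ) < 2 * z) : ∑ b ∈ E, gg d L b / b ≤ 4 := by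
  have hz0 : 0 < z := by linarith
  have h1 : ∀ b ∈ E, gg d L b / b ≤ (1 / z) * (3 ^ L * Gs d (4 * L) L b + 3 ^ L * (L * (1 / 2) ^ (4 * L))) := by
    intro b hb
    have hb0 : z ≤ (b : ℝ) := (hE b hb).1
    have h2 := ((gg_bounds d L b).2.2 (4 * L)).2
    calc gg d L b / b ≤ gg d L b / z := div_le_div_of_nonneg_left (gg_nonneg d L b) hz0 hb0
      _ = (1 / z) * gg d L b := by ring
      _ ≤ (1 / z) * (3 ^ L * (Gs d (4 * L) L b + L * (1 / 2) ^ (4 * L))) :=
        mul_le_mul_of_nonneg_left h2 (by positivity)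
      _ = _ := by ring
  refine (sum_le_sum h1).trans ?_
  rw [← mul_sum, sum_add_distrib, ← mul_sum, sum_const, nsmul_eq_mul]
  have h3 := Gs_sum (d := d) hz0 (4 * L) L hE
  have h4 := E_card hz0.le hE
  have h5 : (3 : ℝ) ^ L * (L * (1 / 2) ^ (4 * L)) ≤ 1 := by
    have h6 : (L : ℝ) ≤ 2 ^ L := by exact_mod_cast Nat.lt_two_pow_self.le
    calc (3 : ℝ) ^ L * (L * (1 / 2) ^ (4 * L)) ≤ 3 ^ L * (2 ^ L * (1 / 2) ^ (4 * L)) :=
          mul_le_mul_of_nonneg_left (mul_le_mul_of_nonneg_right h6 (by positivity)) (by positivity)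
      _ = (3 * (2 * (1 / 2) ^ 4)) ^ L := by rw [mul_pow, mul_pow, ← pow_mul]
      _ ≤ 1 := pow_le_one₀ (by norm_num) (by norm_num)
  have h7 : 3 ^ L * ∑ b ∈ E, Gs d (4 * L) L b ≤ z + z := by
    calc 3 ^ L * ∑ b ∈ E, Gs d (4 * L) L b ≤ 3 ^ L * (z / 3 ^ L + 1) :=
          mul_le_mul_of_nonneg_left h3 (by positivity)
      _ = z + 3 ^ L := by field_simp
      _ ≤ z + z := by linarith
  have h8 : (E.card : ℝ) * (3 ^ L * (L * (1 / 2) ^ (4 * L))) ≤ (z + 1) * 1 :=
    mul_le_mul h4 h5 (by positivity) (by linarith)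
  rw [div_mul_eq_mul_div, one_mul, div_le_iff₀ hz0]
  linarith

/-- upper bound for each length -/
theorem up_k {d : ℤ} (hdd : d * d = 1) (N : ℕ) : ∃ C : ℝ, 0 < C ∧ ∀ (A k L : ℕ), 1 ≤ L → 3 * k ≤ A →
    ∀ z : ℝ, 1 ≤ z → (3 : ℝ) ^ L ≤ z → (3 : ℝ) ^ k ≤ z → ∀ E : Finset ℤ, (∀ b ∈ E, z ≤ (b : ℝ) ∧ (b : ℝ) < 2 * z) →
      ∑ b ∈ E, 2 / b * (3 ^ k * Gs d A k b) ≤ (if k < L then 8 else 0) + 2 * ∑ b ∈ E, gg d L b / b
        + C * (k * (1 / (L : ℝ)) ^ N) := by
  obtain ⟨C, hC, hmix⟩ := mix_b hdd N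
  refine ⟨4 * C, by positivity, ?_⟩
  intro A k L hL hA z hz hzL hzk E hE
  have hz0 : 0 < z := by linarith
  have hgg0 : 0 ≤ ∑ b ∈ E, gg d L b / b := sum_nonneg fun b hb =>
    div_nonneg (gg_nonneg _ _ _) (by linarith [(hE b hb).1])
  split_ifs with hkL
  · have h1 : ∀ b ∈ E, 2 / b * (3 ^ k * Gs d A k b) ≤ 2 * (gg d k b / b) := by
      intro b hb
      have hb0 : (0 : ℝ) < b := by linarith [(hE b hb).1]
      have h2 := ((gg_bounds d k b).2.2 A).1
      calc 2 / b * (3 ^ k * Gs d A k b) ≤ 2 / b * gg d k b := mul_le_mul_of_nonneg_left h2 (by positivity)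
        _ = _ := by ring
    have h3 := gg_sum (d := d) hz hzk hE
    have h4 : 0 ≤ 4 * C * (k * (1 / (L : ℝ)) ^ N) := by positivity
    refine (sum_le_sum h1).trans ?_
    rw [← mul_sum]
    linarith
  · push Not at hkL
    have hm := hmix A k L hL hkL hA (range (k * A + 1)) (Subset.refl _) z hz0.le E hE
    have h1 : ∀ b ∈ E, 2 / b * (3 ^ k * Gs d A k b) ≤ 2 * (gg d L b / b)
        + 2 / z * |3 ^ k * Am d A k k (range (k * A + 1)) b - 3 ^ L * Am d A k L (range (k * A + 1)) b| := by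
      intro b hb
      have hbz : z ≤ (b : ℝ) := (hE b hb).1
      have hb0 : (0 : ℝ) < b := by linarith
      have e1 : Am d A k k (range (k * A + 1)) b = Gs d A k b := by rw [Am_all]; rfl
      have e2 : 3 ^ L * Am d A k L (range (k * A + 1)) b ≤ gg d L b := by
        rw [Am_all, sum_level d A k L hkL b]
        have h2 := ((gg_bounds d L b).2.2 A).1
        have h3 : Gs d A L b * ∑ v ∈ FW A (k - L), wwt v ≤ Gs d A L b * 1 :=
          mul_le_mul_of_nonneg_left (sum_wwt_le A (k - L)) (Gs_nonneg d A L b)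
        have h4 := mul_le_mul_of_nonneg_left h3 (by positivity : (0 : ℝ) ≤ 3 ^ L)
        rw [mul_one] at h4
        linarith
      rw [e1]
      set D := |3 ^ k * Gs d A k b - 3 ^ L * Am d A k L (range (k * A + 1)) b| with hD
      have h5 : 3 ^ k * Gs d A k b ≤ gg d L b + D := by
        have := le_abs_self (3 ^ k * Gs d A k b - 3 ^ L * Am d A k L (range (k * A + 1)) b)
        linarith
      have hD0 : 0 ≤ D := abs_nonneg _
      calc 2 / b * (3 ^ k * Gs d A k b) ≤ 2 / b * (gg d L b + D) := mul_le_mul_of_nonneg_left h5 (by positivity)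
        _ = 2 * (gg d L b / b) + 2 / b * D := by ring
        _ ≤ 2 * (gg d L b / b) + 2 / z * D := by
          have h6 : 2 / (b : ℝ) ≤ 2 / z := div_le_div_of_nonneg_left (by norm_num) hz0 hbz
          have := mul_le_mul_of_nonneg_right h6 hD0
          linarith
    refine (sum_le_sum h1).trans ?_
    rw [sum_add_distrib, ← mul_sum, ← mul_sum, zero_add]
    refine add_le_add le_rfl ?_
    calc 2 / z * ∑ b ∈ E, |3 ^ k * Am d A k k (range (k * A + 1)) b - 3 ^ L * Am d A k L (range (k * A + 1)) b|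
        ≤ 2 / z * ((z + 3 ^ k) * (k * (C * (1 / (L : ℝ)) ^ N))) := mul_le_mul_of_nonneg_left hm (by positivity)
      _ ≤ 2 / z * ((z + z) * (k * (C * (1 / (L : ℝ)) ^ N))) := by
        apply mul_le_mul_of_nonneg_left _ (by positivity)
        apply mul_le_mul_of_nonneg_right _ (by positivity)
        linarith
      _ = _ := by field_simp; ring

/-- lower bound for each length -/
theorem lo_k {d : ℤ} (hdd : d * d = 1) (N : ℕ) : ∃ C : ℝ, 0 < C ∧ ∀ (A k L : ℕ), 1 ≤ L → L ≤ k → 3 * k ≤ A →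
    ∀ z : ℝ, 1 ≤ z → (3 : ℝ) ^ k ≤ z → ∀ η : ℝ, 0 < η → η ≤ 1 →
    ∀ E : Finset ℤ, (∀ b ∈ E, z ≤ (b : ℝ) ∧ (b : ℝ) < 2 * z) →
      2 * ∑ b ∈ E, gg d L b / b - C * (k * (1 / (L : ℝ)) ^ N)
        - 4 * (3 ^ L * ((L + k) * (1 / 2) ^ A + 2 * Real.exp (-(η ^ 2 * k / 32))))
      ≤ ∑ b ∈ E, 2 / b * (3 ^ k * Am d A k k (Tk η A k) b) := by
  classical
  obtain ⟨C, hC, hmix⟩ := mix_b hdd N
  refine ⟨4 * C, by positivity, ?_⟩
  intro A k L hL hkL hA z hz hzk η hη hη1 E hE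
  have hz0 : 0 < z := by linarith
  have hm := hmix A k L hL hkL hA (Tk η A k) (Tk_sub η A k) z hz0.le E hE
  set err : ℝ := 3 ^ L * ((L + k) * (1 / 2) ^ A + 2 * Real.exp (-(η ^ 2 * k / 32))) with herr
  have herr0 : 0 ≤ err := by rw [herr]; positivity
  have h0 : ∀ b : ℤ, gg d L b - err ≤ 3 ^ L * Am d A k L (Tk η A k) b := by
    intro b
    have h2 := ((gg_bounds d L b).2.2 A).2
    have h3 : Gs d A L b * ∑ v ∈ FW A (k - L), wwt v - 2 * Real.exp (-(η ^ 2 * k / 32))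
        ≤ Am d A k L (Tk η A k) b := by
      rw [← sum_level d A k L hkL b, Am_eq]
      have ht := tail A k hη hη1
      have h4 := sum_filter_add_sum_filter_not (FW A k) (fun w => w.sum ∈ Tk η A k)
        (fun w => if Val d L b w then wwt w else 0)
      have h5 : ∑ w ∈ (FW A k).filter (fun w => ¬ w.sum ∈ Tk η A k), (if Val d L b w then wwt w else 0)
          ≤ ∑ w ∈ (FW A k).filter (fun w => η * k ≤ |(w.sum : ℝ) - 2 * k|), wwt w := by
        have h6 : (FW A k).filter (fun w => ¬ w.sum ∈ Tk η A k)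
            = (FW A k).filter (fun w => η * k ≤ |(w.sum : ℝ) - 2 * k|) := by
          apply filter_congr
          intro w hw
          rw [mem_Tk_sum hw, not_lt]
        rw [h6]
        apply sum_le_sum
        intro w _
        split_ifs
        · exact le_rfl
        · unfold wwt; positivity
      linarith
    have h7 : Gs d A L b - k * (1 / 2) ^ A ≤ Gs d A L b * ∑ v ∈ FW A (k - L), wwt v := by
      have h8 := mass_ge A (k - L)
      have h9 : ((k - L : ℕ) : ℝ) ≤ k := by exact_mod_cast Nat.sub_le _ _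
      have h10 : ((k - L : ℕ) : ℝ) * (1 / 2 : ℝ) ^ A ≤ k * (1 / 2) ^ A := mul_le_mul_of_nonneg_right h9 (by positivity)
      have h11 : Gs d A L b * (1 - k * (1 / 2) ^ A) ≤ Gs d A L b * ∑ v ∈ FW A (k - L), wwt v :=
        mul_le_mul_of_nonneg_left (by linarith) (Gs_nonneg d A L b)
      have h12 : Gs d A L b * (k * (1 / 2) ^ A) ≤ 1 * (k * (1 / 2) ^ A) :=
        mul_le_mul_of_nonneg_right (Gs_le_one d A L b) (by positivity)
      nlinarith
    have h13 : 3 ^ L * (Gs d A L b - k * (1 / 2) ^ A - 2 * Real.exp (-(η ^ 2 * k / 32)))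
        ≤ 3 ^ L * Am d A k L (Tk η A k) b := mul_le_mul_of_nonneg_left (by linarith) (by positivity)
    rw [herr]
    have e : 3 ^ L * (Gs d A L b - k * (1 / 2) ^ A - 2 * Real.exp (-(η ^ 2 * k / 32)))
        = 3 ^ L * (Gs d A L b + L * (1 / 2) ^ A)
          - 3 ^ L * ((L + k) * (1 / 2) ^ A + 2 * Real.exp (-(η ^ 2 * k / 32))) := by ring
    rw [e] at h13
    linarith
  have h1 : ∀ b ∈ E, 2 * (gg d L b / b) - 2 / z * |3 ^ k * Am d A k k (Tk η A k) b - 3 ^ L * Am d A k L (Tk η A k) b|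
      - 2 / z * err ≤ 2 / b * (3 ^ k * Am d A k k (Tk η A k) b) := by
    intro b hb
    have hbz : z ≤ (b : ℝ) := (hE b hb).1
    have hb0 : (0 : ℝ) < b := by linarith
    set D := |3 ^ k * Am d A k k (Tk η A k) b - 3 ^ L * Am d A k L (Tk η A k) b| with hD
    have hD0 : 0 ≤ D := abs_nonneg _
    have h5 : gg d L b - err - D ≤ 3 ^ k * Am d A k k (Tk η A k) b := by
      have h6 := neg_abs_le (3 ^ k * Am d A k k (Tk η A k) b - 3 ^ L * Am d A k L (Tk η A k) b)
      have := h0 b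
      linarith
    have h6 : 2 / (b : ℝ) ≤ 2 / z := div_le_div_of_nonneg_left (by norm_num) hz0 hbz
    have h7 := mul_le_mul_of_nonneg_right h6 (add_nonneg hD0 herr0)
    calc 2 * (gg d L b / b) - 2 / z * D - 2 / z * err ≤ 2 * (gg d L b / b) - 2 / b * (D + err) := by linarith
      _ = 2 / b * (gg d L b - err - D) := by ring
      _ ≤ _ := mul_le_mul_of_nonneg_left h5 (by positivity)
  refine le_trans ?_ (sum_le_sum h1)
  rw [sum_sub_distrib, sum_sub_distrib, ← mul_sum, ← mul_sum, sum_const, nsmul_eq_mul]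
  have h2 : 2 / z * ∑ b ∈ E, |3 ^ k * Am d A k k (Tk η A k) b - 3 ^ L * Am d A k L (Tk η A k) b|
      ≤ 4 * C * (k * (1 / (L : ℝ)) ^ N) := by
    calc 2 / z * ∑ b ∈ E, |3 ^ k * Am d A k k (Tk η A k) b - 3 ^ L * Am d A k L (Tk η A k) b|
        ≤ 2 / z * ((z + 3 ^ k) * (k * (C * (1 / (L : ℝ)) ^ N))) := mul_le_mul_of_nonneg_left hm (by positivity)
      _ ≤ 2 / z * ((z + z) * (k * (C * (1 / (L : ℝ)) ^ N))) := by
        apply mul_le_mul_of_nonneg_left _ (by positivity)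
        apply mul_le_mul_of_nonneg_right _ (by positivity)
        linarith
      _ = _ := by field_simp; ring
  have h3 : (E.card : ℝ) * (2 / z * err) ≤ 4 * err := by
    have h4 := E_card hz0.le hE
    calc (E.card : ℝ) * (2 / z * err) ≤ (z + 1) * (2 / z * err) :=
          mul_le_mul_of_nonneg_right h4 (by positivity)
      _ ≤ (2 * z) * (2 / z * err) := mul_le_mul_of_nonneg_right (by linarith) (by positivity)
      _ = 4 * err := by field_simp; ring
  linarith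

end Pool.Agent.R344.FP
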