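import Pool.Agent.R344.FP.K

/-! Densities of predecessor sets, part M: choice of the ranges. -/

set_option autoImplicit false

namespace Pool.Agent.R344.FP

open Finset MeasureTheory Filter Topology
open Pool.Agent.H320R2.PD Pool.Agent.H499R2.ND
open Pool.Agent.H499R2.CO (Tz)
open Pool.Agent.R344.SP Pool.Agent.R344.TH

theorem pow_le_of_log {z x c : ℝ} {K : ℕ} (hz : 0 < z) (hc : 0 < c) (h : K * Real.log c ≤ x) (hx : x ≤ Real.log z) :
    c ^ K ≤ z := by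
  have h1 : c ^ K = Real.exp (K * Real.log c) := by
    rw [mul_comm, Real.exp_mul, Real.exp_log hc, Real.rpow_natCast]
  rw [h1, ← Real.exp_log hz]
  exact Real.exp_le_exp.2 (h.trans hx)

theorem theta_bounds : 0.277 ≤ Real.log (4 / 3) ∧ Real.log (4 / 3) ≤ 0.289 := ⟨log43_ge, log43_le⟩

/-- the upper bound -/
theorem Ucore {d : ℤ} (hd : Odd d) (hd3 : IsCoprime d 3) (hdd : d * d = 1) (hda : |(d : ℝ)| ≤ 1) (N : ℕ) :
    ∃ z₀ C : ℝ, 2 ≤ z₀ ∧ 0 < C ∧ ∀ z : ℝ, z₀ ≤ z → ∀ η τ₀ R : ℝ, 0 < η → η ≤ 1 / 20 → 1002 ≤ τ₀ → τ₀ ≤ R →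
      400 * R ≤ Real.log z → ∀ κ L : ℕ, 1 ≤ κ → 1 ≤ L → (L : ℝ) ≤ τ₀ → ∀ E : Finset ℤ, (∀ b ∈ E, b ∈ Go d z κ) →
      ∑ b ∈ E, 3 * (∫ t in (τ₀ + Real.log (2 * z))..(τ₀ + Real.log (2 * z) + R), Fd (Pre d b) t)
        ≤ 2 / Real.log (4 / 3) * (∑ b ∈ E, gg d L b / b) * R
          + C * R * (η + τ₀ / R + R * (1 / (L : ℝ)) ^ N + κ / (Real.log z) ^ N
            + κ * (1 / η ^ 2 * Real.exp (-(2 * η ^ 2 * τ₀)))) := by
  obtain ⟨z₀, C₁, hz₀, hC₁, hUB⟩ := UB2 hd hd3 hda N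
  obtain ⟨C₂, hC₂, hup⟩ := up_k hdd N
  refine ⟨z₀, 1000 + 3 * C₁ + 12 + 512 * C₂, hz₀, by positivity, ?_⟩
  intro z hz η τ₀ R hη0 hη hτ hτR hlz κ L hκ hL hLτ E hE
  have hz2 : 2 ≤ z := hz₀.trans hz
  have hz0 : 0 < z := by linarith
  obtain ⟨hθ1, hθ2⟩ := theta_bounds
  set θ := Real.log (4 / 3) with hθ
  have hlam1 := lam_ge hη
  have hlam2 := lam_le hη0.le
  have hl3 := log3_up
  have hl30 : 0 ≤ Real.log 3 := Real.log_nonneg (by norm_num)
  have hl2 := Real.log_two_lt_d9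
  have hl20 : 0 ≤ Real.log 2 := Real.log_nonneg (by norm_num)
  have hR : 1002 ≤ R := hτ.trans hτR
  have hR0 : 0 < R := by linarith
  have hlam0 : 0 < lam η := by linarith
  set K₀ : ℕ := ⌈τ₀⌉₊ with hK₀
  have hK01 : τ₀ ≤ K₀ := Nat.le_ceil _
  have hK02 : (K₀ : ℝ) < τ₀ + 1 := Nat.ceil_lt_add_one (by linarith)
  set K₁ : ℕ := ⌈(τ₀ + R + 5) / lam η⌉₊ with hK₁
  have hK11 : (τ₀ + R + 5) / lam η ≤ K₁ := Nat.le_ceil _
  have hK12 : (K₁ : ℝ) < (τ₀ + R + 5) / lam η + 1 := Nat.ceil_lt_add_one (by positivity)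
  have hK13 : τ₀ + R + 5 ≤ lam η * K₁ := by
    rw [div_le_iff₀ hlam0] at hK11; linarith
  have hq : (τ₀ + R + 5) / lam η ≤ (τ₀ + R + 5) / 0.083 :=
    div_le_div_of_nonneg_left (by linarith) (by norm_num) hlam1
  have hK14 : (K₁ : ℝ) ≤ 25 * R := by
    have : (τ₀ + R + 5) / 0.083 ≤ 24.5 * R := by
      rw [div_le_iff₀ (by norm_num)]; linarith
    linarith
  have hK15 : (K₀ : ℝ) ≤ K₁ := by
    have : τ₀ + R + 5 ≤ 0.15 * K₁ := hK13.trans (mul_le_mul_of_nonneg_right hlam2 (Nat.cast_nonneg _))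
    linarith
  set k₃ : ℕ := ⌈(1 / 2 + η) * K₁⌉₊ + K₀ with hk₃
  have hk31 : (1 / 2 + η) * K₁ ≤ k₃ := by
    rw [hk₃]; push_cast
    have := Nat.le_ceil ((1 / 2 + η) * (K₁ : ℝ))
    have h0 : (0 : ℝ) ≤ K₀ := Nat.cast_nonneg _
    linarith
  have hk32 : (k₃ : ℝ) ≤ (1 / 2 + η) * K₁ + 1 + (τ₀ + 1) := by
    rw [hk₃]; push_cast
    have := Nat.ceil_lt_add_one (a := (1 / 2 + η) * (K₁ : ℝ)) (by positivity)
    linarith
  have hk33 : (k₃ : ℝ) ≤ 16 * R := by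
    have : (1 / 2 + η) * K₁ ≤ 0.55 * (25 * R) :=
      mul_le_mul (by linarith) hK14 (Nat.cast_nonneg _) (by norm_num)
    linarith
  have hk34 : (k₃ : ℝ) ≤ R / θ + 61 * η * R + 8 * τ₀ := by
    have h1 : (1 / 2 + η) / lam η ≤ 1 / θ + 61 * η := by
      rw [div_le_iff₀ hlam0]
      have h2 : (1 / θ + 61 * η) * lam η = 1 / 2 - η * Real.log 3 / θ + 61 * η * lam η := by
        unfold lam
        rw [← hθ]
        field_simp
      rw [h2]
      have h3 : η * Real.log 3 / θ ≤ η * 4.01 := by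
        rw [mul_div_assoc]
        apply mul_le_mul_of_nonneg_left _ hη0.le
        rw [div_le_iff₀ (by linarith)]
        nlinarith
      have h4 : 61 * η * 0.083 ≤ 61 * η * lam η := mul_le_mul_of_nonneg_left hlam1 (by positivity)
      linarith
    have h2 : (1 / 2 + η) * K₁ ≤ (1 / θ + 61 * η) * (τ₀ + R + 5) + 1 := by
      have h3 : (1 / 2 + η) * K₁ ≤ (1 / 2 + η) * ((τ₀ + R + 5) / lam η + 1) :=
        mul_le_mul_of_nonneg_left hK12.le (by positivity)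
      have h4 : (1 / 2 + η) * ((τ₀ + R + 5) / lam η + 1) = (1 / 2 + η) / lam η * (τ₀ + R + 5) + (1 / 2 + η) := by ring
      have h5 : (1 / 2 + η) / lam η * (τ₀ + R + 5) ≤ (1 / θ + 61 * η) * (τ₀ + R + 5) :=
        mul_le_mul_of_nonneg_right h1 (by positivity)
      linarith
    have h3 : 1 / θ + 61 * η ≤ 6.7 := by
      have : 1 / θ ≤ 1 / 0.277 := one_div_le_one_div_of_le (by norm_num) hθ1
      have h4 : (1 : ℝ) / 0.277 ≤ 3.62 := by norm_num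
      linarith
    have h4 : (1 / θ + 61 * η) * (τ₀ + 5) ≤ 6.7 * (τ₀ + 5) := mul_le_mul_of_nonneg_right h3 (by linarith)
    have h5 : (1 / θ + 61 * η) * (τ₀ + R + 5) = R / θ + 61 * η * R + (1 / θ + 61 * η) * (τ₀ + 5) := by ring
    linarith
  have hz3 : (3 : ℝ) ^ k₃ ≤ z := by
    apply pow_le_of_log hz0 (by norm_num) (x := 400 * R) _ hlz
    have : (k₃ : ℝ) * Real.log 3 ≤ 16 * R * 1.11 := mul_le_mul hk33 hl3 hl30 (by positivity)
    linarith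
  have hξ : (3 / 2 : ℝ) ^ k₃ / z ≤ Real.exp (-R) := by
    rw [div_le_iff₀ hz0]
    have h1 : (3 / 2 : ℝ) ^ k₃ ≤ 3 ^ k₃ := pow_le_pow_left₀ (by norm_num) (by norm_num) _
    have h2 : (3 : ℝ) ^ k₃ ≤ Real.exp (399 * R) := by
      apply pow_le_of_log (Real.exp_pos _) (by norm_num) (x := 399 * R) _ (by rw [Real.log_exp])
      have : (k₃ : ℝ) * Real.log 3 ≤ 16 * R * 1.11 := mul_le_mul hk33 hl3 hl30 (by positivity)
      linarith
    have h3 : Real.exp (399 * R) ≤ Real.exp (-R) * z := by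
      rw [← Real.exp_log hz0, ← Real.exp_add]
      apply Real.exp_le_exp.2
      linarith
    linarith
  have hξR : Real.exp (-R) * R ≤ 1 := by
    rw [Real.exp_neg, inv_mul_le_iff₀ (Real.exp_pos _)]
    linarith [Real.add_one_le_exp R]
  have hξ4 : Real.exp (-R) ≤ 1 / 4 := by
    have : Real.exp (-R) * 4 ≤ Real.exp (-R) * R := mul_le_mul_of_nonneg_left (by linarith) (Real.exp_pos _).le
    linarith
  set A : ℕ := K₁ + 3 * k₃ with hA
  have hlog2 : K₁ ≤ Nat.log 2 ⌊z⌋₊ := by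
    apply Nat.le_log_of_pow_le (by norm_num)
    apply Nat.le_floor
    push_cast
    apply pow_le_of_log hz0 (by norm_num) (x := 400 * R) _ hlz
    have : (K₁ : ℝ) * Real.log 2 ≤ 25 * R * 1 := mul_le_mul hK14 (by linarith) hl20 (by positivity)
    linarith
  have hU := hUB z hz η hη0 hη K₀ K₁ k₃ A (by exact_mod_cast hK15) hlog2 (by omega) hk31 (by omega) τ₀ R
    (Real.exp (-R)) (by linarith) hR0.le ?_ ?_ hξ hξ4 κ E hE
  rotate_left
  · have h1 : z ^ (1 / 100 : ℝ) = Real.exp (Real.log z * (1 / 100)) := by rw [Real.rpow_def_of_pos hz0]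
    rw [h1]
    have h2 : (4 : ℝ) ≤ Real.exp 2 := by
      have := Real.quadratic_le_exp_of_nonneg (x := 2) (by norm_num)
      linarith
    calc 4 * Real.exp (τ₀ + R) ≤ Real.exp 2 * Real.exp (τ₀ + R) := mul_le_mul_of_nonneg_right h2 (Real.exp_pos _).le
      _ = Real.exp (2 + (τ₀ + R)) := by rw [← Real.exp_add]
      _ ≤ _ := Real.exp_le_exp.2 (by linarith)
  · have h2 : (8 : ℝ) < Real.exp 5 := by
      have := Real.quadratic_le_exp_of_nonneg (x := 5) (by norm_num)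
      linarith
    calc 8 * Real.exp (τ₀ + R) < Real.exp 5 * Real.exp (τ₀ + R) := mul_lt_mul_of_pos_right h2 (Real.exp_pos _)
      _ = Real.exp (5 + (τ₀ + R)) := by rw [← Real.exp_add]
      _ ≤ _ := Real.exp_le_exp.2 (by linarith)
  have hE' : ∀ b ∈ E, z ≤ (b : ℝ) ∧ (b : ℝ) < 2 * z := fun b hb => (hE b hb).1.1
  have hLz : (3 : ℝ) ^ L ≤ z := by
    apply pow_le_of_log hz0 (by norm_num) (x := 400 * R) _ hlz
    have : (L : ℝ) * Real.log 3 ≤ R * 1.11 := mul_le_mul (hLτ.trans hτR) hl3 hl30 (by positivity)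
    linarith
  set Γ := ∑ b ∈ E, gg d L b / b with hΓ
  have hΓ4 : Γ ≤ 4 := gg_sum (by linarith) hLz hE'
  have hΓ0 : 0 ≤ Γ := sum_nonneg fun b hb => div_nonneg (gg_nonneg _ _ _) (by linarith [(hE' b hb).1])
  have hL0 : (0 : ℝ) < (1 / (L : ℝ)) ^ N := by
    have : (0 : ℝ) < L := by exact_mod_cast hL
    positivity
  set δ := (1 / (L : ℝ)) ^ N with hδ
  have hsum : ∑ b ∈ E, 2 / (b : ℝ) * ∑ k ∈ Icc 1 k₃, 3 ^ k * Gs d A k b
      ≤ 8 * L + 2 * Γ * k₃ + C₂ * (k₃ * (k₃ * δ)) := by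
    have h1 : ∑ b ∈ E, 2 / (b : ℝ) * ∑ k ∈ Icc 1 k₃, 3 ^ k * Gs d A k b
        = ∑ k ∈ Icc 1 k₃, ∑ b ∈ E, 2 / (b : ℝ) * (3 ^ k * Gs d A k b) := by
      rw [sum_comm]
      apply sum_congr rfl
      intro b _
      rw [mul_sum]
    rw [h1]
    have h2 : ∀ k ∈ Icc 1 k₃, ∑ b ∈ E, 2 / (b : ℝ) * (3 ^ k * Gs d A k b)
        ≤ (if k < L then 8 else 0) + (2 * Γ + C₂ * (k₃ * δ)) := by
      intro k hk
      rw [mem_Icc] at hk
      have hkk : (3 : ℝ) ^ k ≤ z := (pow_le_pow_right₀ (by norm_num) hk.2).trans hz3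
      have h3 := hup A k L hL (by omega) z (by linarith) hLz hkk E hE'
      have h4 : (k : ℝ) * δ ≤ k₃ * δ := mul_le_mul_of_nonneg_right (by exact_mod_cast hk.2) hL0.le
      have h5 := mul_le_mul_of_nonneg_left h4 hC₂.le
      linarith
    refine (sum_le_sum h2).trans ?_
    rw [sum_add_distrib, sum_const, nsmul_eq_mul, Nat.card_Icc, Nat.add_sub_cancel]
    have h3 : ∑ k ∈ Icc 1 k₃, (if k < L then (8 : ℝ) else 0) ≤ 8 * L := by
      rw [← sum_filter, sum_const, nsmul_eq_mul, mul_comm]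
      apply mul_le_mul_of_nonneg_left _ (by norm_num)
      have : (Icc 1 k₃).filter (fun k => k < L) ⊆ Finset.range L := by
        intro k hk
        rw [mem_filter] at hk
        exact mem_range.2 hk.2
      have := card_le_card this
      rw [card_range] at this
      exact_mod_cast this
    have h4 : (k₃ : ℝ) * (2 * Γ + C₂ * (k₃ * δ)) = 2 * Γ * k₃ + C₂ * (k₃ * (k₃ * δ)) := by ring
    linarith
  refine hU.trans ?_
  have hbracket0 : 0 ≤ 8 * (L : ℝ) + 2 * Γ * k₃ + C₂ * (k₃ * (k₃ * δ)) := by positivity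
  have hξ0 := Real.exp_pos (-R)
  have hstep : (1 + 2 * Real.exp (-R)) * ∑ b ∈ E, 2 / (b : ℝ) * ∑ k ∈ Icc 1 k₃, 3 ^ k * Gs d A k b
      ≤ (1 + 2 * Real.exp (-R)) * (8 * L + 2 * Γ * k₃ + C₂ * (k₃ * (k₃ * δ))) :=
    mul_le_mul_of_nonneg_left hsum (by linarith)
  -- pieces
  have p1 : (1 + 2 * Real.exp (-R)) * (8 * L + 2 * Γ * k₃ + C₂ * (k₃ * (k₃ * δ)))
      ≤ 2 * (8 * L) + (2 * Γ * k₃ + 2 * Real.exp (-R) * (8 * k₃)) + 2 * (C₂ * (k₃ * (k₃ * δ))) := by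
    have a1 : 2 * Real.exp (-R) * (8 * (L : ℝ)) ≤ 1 * (8 * L) :=
      mul_le_mul_of_nonneg_right (by linarith) (by positivity)
    have a2 : 2 * Real.exp (-R) * (C₂ * (k₃ * (k₃ * δ))) ≤ 1 * (C₂ * (k₃ * (k₃ * δ))) :=
      mul_le_mul_of_nonneg_right (by linarith) (by positivity)
    have a3 : 2 * Real.exp (-R) * (2 * Γ * k₃) ≤ 2 * Real.exp (-R) * (8 * k₃) := by
      apply mul_le_mul_of_nonneg_left _ (by positivity)
      apply mul_le_mul_of_nonneg_right _ (Nat.cast_nonneg _)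
      linarith
    linarith
  have p2 : 2 * Real.exp (-R) * (8 * k₃) ≤ 256 := by
    have : 2 * Real.exp (-R) * (8 * k₃) ≤ 2 * Real.exp (-R) * (8 * (16 * R)) := by
      apply mul_le_mul_of_nonneg_left _ (by positivity)
      linarith
    linarith
  have p3 : 2 * Γ * k₃ ≤ 2 / θ * Γ * R + 488 * η * R + 64 * τ₀ := by
    have : 2 * Γ * k₃ ≤ 2 * Γ * (R / θ + 61 * η * R + 8 * τ₀) := mul_le_mul_of_nonneg_left hk34 (by positivity)
    have e : 2 * Γ * (R / θ + 61 * η * R + 8 * τ₀) = 2 / θ * Γ * R + 2 * Γ * (61 * η * R + 8 * τ₀) := by ring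
    have h2 : 2 * Γ * (61 * η * R + 8 * τ₀) ≤ 8 * (61 * η * R + 8 * τ₀) :=
      mul_le_mul_of_nonneg_right (by linarith) (by positivity)
    linarith
  have p4 : 2 * (C₂ * (k₃ * (k₃ * δ))) ≤ 512 * C₂ * R * (R * δ) := by
    have h1 : (k₃ : ℝ) * (k₃ * δ) ≤ 16 * R * (16 * R * δ) :=
      mul_le_mul hk33 (mul_le_mul_of_nonneg_right hk33 hL0.le) (by positivity) (by positivity)
    have h2 := mul_le_mul_of_nonneg_left h1 hC₂.le
    have e : C₂ * (16 * R * (16 * R * δ)) = 256 * (C₂ * R * (R * δ)) := by ring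
    linarith
  have hlz0 : 0 < Real.log z := by linarith
  have p5 : κ * ((2 * R + 2) * (C₁ / (Real.log z) ^ N + 4 / η ^ 2 * Real.exp (-(2 * η ^ 2 * K₀))))
      ≤ 3 * C₁ * R * (κ / (Real.log z) ^ N) + 12 * R * (κ * (1 / η ^ 2 * Real.exp (-(2 * η ^ 2 * τ₀)))) := by
    have h1 : Real.exp (-(2 * η ^ 2 * K₀)) ≤ Real.exp (-(2 * η ^ 2 * τ₀)) := by
      apply Real.exp_le_exp.2
      have := mul_le_mul_of_nonneg_left hK01 (by positivity : 0 ≤ 2 * η ^ 2)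
      linarith
    have h2 : C₁ / (Real.log z) ^ N + 4 / η ^ 2 * Real.exp (-(2 * η ^ 2 * K₀))
        ≤ C₁ / (Real.log z) ^ N + 4 / η ^ 2 * Real.exp (-(2 * η ^ 2 * τ₀)) :=
      add_le_add le_rfl (mul_le_mul_of_nonneg_left h1 (by positivity))
    have h3 : (2 * R + 2) * (C₁ / (Real.log z) ^ N + 4 / η ^ 2 * Real.exp (-(2 * η ^ 2 * K₀)))
        ≤ 3 * R * (C₁ / (Real.log z) ^ N + 4 / η ^ 2 * Real.exp (-(2 * η ^ 2 * τ₀))) :=
      mul_le_mul (by linarith) h2 (by positivity) (by positivity)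
    refine (mul_le_mul_of_nonneg_left h3 (Nat.cast_nonneg κ)).trans (le_of_eq ?_)
    ring
  have hκ0 : (0 : ℝ) < κ := by exact_mod_cast hκ
  set e6 := (κ : ℝ) / (Real.log z) ^ N with he6
  set e7 := (κ : ℝ) * (1 / η ^ 2 * Real.exp (-(2 * η ^ 2 * τ₀))) with he7
  have h60 : 0 ≤ e6 := by rw [he6]; positivity
  have h70 : 0 ≤ e7 := by rw [he7]; positivity
  have e3 : R * (τ₀ / R) = τ₀ := by field_simp
  have hfin : (1000 + 3 * C₁ + 12 + 512 * C₂) * R * (η + τ₀ / R + R * δ + e6 + e7)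
      = 1000 * R * η + 1000 * (R * (τ₀ / R)) + 512 * C₂ * R * (R * δ) + 3 * C₁ * R * e6 + 12 * R * e7
        + ((3 * C₁ + 12 + 512 * C₂) * R * η + (3 * C₁ + 12 + 512 * C₂) * (R * (τ₀ / R))
        + (1000 + 3 * C₁ + 12) * R * (R * δ) + (1000 + 12 + 512 * C₂) * R * e6
        + (1000 + 3 * C₁ + 512 * C₂) * R * e7) := by ring
  have hrest : 0 ≤ (3 * C₁ + 12 + 512 * C₂) * R * η + (3 * C₁ + 12 + 512 * C₂) * (R * (τ₀ / R))
        + (1000 + 3 * C₁ + 12) * R * (R * δ) + (1000 + 12 + 512 * C₂) * R * e6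
        + (1000 + 3 * C₁ + 512 * C₂) * R * e7 := by positivity
  rw [hfin, e3]
  rw [e3] at hrest
  have hRη : 0 ≤ R * η := by positivity
  nlinarith [hstep, p1, p2, p3, p4, p5]

end Pool.Agent.R344.FP
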