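import Pool.Agent.R344.FP.M

/-! Densities of predecessor sets, part O: the lower bound, and the two bounds together. -/

set_option autoImplicit false

namespace Pool.Agent.R344.FP

open Finset MeasureTheory Filter Topology
open Pool.Agent.H320R2.PD Pool.Agent.H499R2.ND
open Pool.Agent.H499R2.CO (Tz)
open Pool.Agent.R344.SP Pool.Agent.R344.TH

/-- the lower bound -/
theorem Lcore {d : ℤ} (hd : Odd d) (hdd : d * d = 1) (hda : |(d : ℝ)| ≤ 1) (N : ℕ) :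
    ∃ C : ℝ, 0 < C ∧ ∀ z : ℝ, 2 ≤ z → ∀ η τ₀ R : ℝ, 0 < η → η ≤ 1 / 20 → 1002 ≤ τ₀ → τ₀ ≤ R →
      400 * R ≤ Real.log z → ∀ κ L : ℕ, 1 ≤ κ → 1 ≤ L → (L : ℝ) ≤ τ₀ → ∀ E : Finset ℤ, (∀ b ∈ E, b ∈ Go d z κ) →
      2 / Real.log (4 / 3) * (∑ b ∈ E, gg d L b / b) * R
          - C * R * (κ / τ₀ + η + τ₀ / R + R * (1 / (L : ℝ)) ^ N + 3 ^ L * Real.exp (-(η ^ 2 * τ₀ / 10))) ≤
      ∑ b ∈ E, 3 * (∫ t in (τ₀ + Real.log (2 * z))..(τ₀ + Real.log (2 * z) + R), Fd (Pre d b) t) := by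
  obtain ⟨C₂, hC₂, hlo⟩ := lo_k hdd N
  refine ⟨200 + 20 * C₂, by positivity, ?_⟩
  intro z hz2 η τ₀ R hη0 hη hτ hτR hlz κ L hκ hL hLτ E hE
  have hz0 : 0 < z := by linarith
  obtain ⟨hθ1, hθ2⟩ := theta_bounds
  set θ := Real.log (4 / 3) with hθ
  have hl3 := log3_up
  have hl30 : 0 ≤ Real.log 3 := Real.log_nonneg (by norm_num)
  have hl2 := Real.log_two_lt_d9
  have hl20 : 0 ≤ Real.log 2 := Real.log_nonneg (by norm_num)
  have hR : 1002 ≤ R := hτ.trans hτR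
  have hR0 : 0 < R := by linarith
  have hηl : η * Real.log 2 ≤ 0.035 := by
    have : η * Real.log 2 ≤ 1 / 20 * 0.7 := mul_le_mul hη (by linarith) hl20 (by norm_num)
    linarith
  have hηl0 : 0 ≤ η * Real.log 2 := by positivity
  have hden1 : 0.242 ≤ θ - η * Real.log 2 := by linarith
  have hden2 : 0 < θ + η * Real.log 2 := by linarith
  set k₁ : ℕ := ⌈(τ₀ + 3) / (θ - η * Real.log 2)⌉₊ with hk₁
  set k₂ : ℕ := ⌊R / (θ + η * Real.log 2)⌋₊ with hk₂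
  have hk11 : (τ₀ + 3) / (θ - η * Real.log 2) ≤ k₁ := Nat.le_ceil _
  have hk12 : (k₁ : ℝ) < (τ₀ + 3) / (θ - η * Real.log 2) + 1 :=
    Nat.ceil_lt_add_one (div_nonneg (by linarith) (by linarith))
  have hk13 : τ₀ + 3 ≤ k₁ * (θ - η * Real.log 2) := by
    rwa [div_le_iff₀ (by linarith)] at hk11
  have hk14 : 3.4 * τ₀ ≤ k₁ := by
    have : (k₁ : ℝ) * (θ - η * Real.log 2) ≤ k₁ * 0.289 := mul_le_mul_of_nonneg_left (by linarith) (Nat.cast_nonneg _)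
    linarith
  have hk15 : (k₁ : ℝ) ≤ 4.14 * (τ₀ + 3) + 1 := by
    have h1 : (τ₀ + 3) / (θ - η * Real.log 2) ≤ (τ₀ + 3) / 0.242 :=
      div_le_div_of_nonneg_left (by linarith) (by norm_num) hden1
    have h2 : (τ₀ + 3) / 0.242 ≤ 4.14 * (τ₀ + 3) := by
      rw [div_le_iff₀ (by norm_num)]; linarith
    linarith
  have hk21 : (k₂ : ℝ) ≤ R / (θ + η * Real.log 2) := Nat.floor_le (by positivity)
  have hk22 : R / (θ + η * Real.log 2) < k₂ + 1 := Nat.lt_floor_add_one _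
  have hk23 : k₂ * (θ + η * Real.log 2) ≤ R := by
    rwa [le_div_iff₀ hden2] at hk21
  have hk24 : (k₂ : ℝ) ≤ 4 * R := by
    have : (k₂ : ℝ) * 0.277 ≤ k₂ * (θ + η * Real.log 2) := mul_le_mul_of_nonneg_left (by linarith) (Nat.cast_nonneg _)
    linarith
  have hk25 : R / θ - 10 * η * R ≤ R / (θ + η * Real.log 2) := by
    rw [le_div_iff₀ hden2]
    have h1 : R / θ * η * Real.log 2 ≤ 10 * η * R * θ := by
      have h2 : R / θ ≤ R / 0.277 := div_le_div_of_nonneg_left hR0.le (by norm_num) hθ1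
      have h3 : R / 0.277 ≤ 3.62 * R := by rw [div_le_iff₀ (by norm_num)]; linarith
      have h4 : R / θ * (η * Real.log 2) ≤ 3.62 * R * (η * 0.7) :=
        mul_le_mul (h2.trans h3) (mul_le_mul_of_nonneg_left (by linarith) hη0.le) hηl0 (by positivity)
      have h5 : 10 * (η * R) * 0.277 ≤ 10 * (η * R) * θ := mul_le_mul_of_nonneg_left hθ1 (by positivity)
      have h6 : 0 ≤ η * R := by positivity
      linarith
    have h2 : (R / θ - 10 * η * R) * (θ + η * Real.log 2)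
        = R + R / θ * η * Real.log 2 - 10 * η * R * θ - 10 * η * R * (η * Real.log 2) := by
      field_simp
      ring
    rw [h2]
    have h3 : 0 ≤ 10 * η * R * (η * Real.log 2) := by positivity
    linarith
  have hz3 : (3 : ℝ) ^ k₂ ≤ z := by
    apply pow_le_of_log hz0 (by norm_num) (x := 400 * R) _ hlz
    have : (k₂ : ℝ) * Real.log 3 ≤ 4 * R * 1.11 := mul_le_mul hk24 hl3 hl30 (by positivity)
    linarith
  have hξ : (3 / 2 : ℝ) ^ k₂ / z ≤ Real.exp (-R) := by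
    rw [div_le_iff₀ hz0]
    have h1 : (3 / 2 : ℝ) ^ k₂ ≤ 3 ^ k₂ := pow_le_pow_left₀ (by norm_num) (by norm_num) _
    have h2 : (3 : ℝ) ^ k₂ ≤ Real.exp (399 * R) := by
      apply pow_le_of_log (Real.exp_pos _) (by norm_num) (x := 399 * R) _ (by rw [Real.log_exp])
      have : (k₂ : ℝ) * Real.log 3 ≤ 4 * R * 1.11 := mul_le_mul hk24 hl3 hl30 (by positivity)
      linarith
    have h3 : Real.exp (399 * R) ≤ Real.exp (-R) * z := by
      rw [← Real.exp_log hz0, ← Real.exp_add]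
      apply Real.exp_le_exp.2
      linarith
    linarith
  have hξR : Real.exp (-R) * R ≤ 1 := by
    rw [Real.exp_neg, inv_mul_le_iff₀ (Real.exp_pos _)]
    linarith [Real.add_one_le_exp R]
  have hξ4 : Real.exp (-R) ≤ 1 / 4 := by
    have : Real.exp (-R) * 4 ≤ Real.exp (-R) * R := mul_le_mul_of_nonneg_left (by linarith) (Real.exp_pos _).le
    linarith
  have hζ : Real.exp (-τ₀) ≤ 1 / τ₀ := by
    rw [Real.exp_neg, inv_eq_one_div]
    exact one_div_le_one_div_of_le (by linarith) (by linarith [Real.add_one_le_exp τ₀])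
  have hζ4 : Real.exp (-τ₀) ≤ 1 / 4 := by
    refine hζ.trans (one_div_le_one_div_of_le (by norm_num) (by linarith))
  have hE' : ∀ b ∈ E, z ≤ (b : ℝ) ∧ (b : ℝ) < 2 * z := fun b hb => (hE b hb).1.1
  have hLz : (3 : ℝ) ^ L ≤ z := by
    apply pow_le_of_log hz0 (by norm_num) (x := 400 * R) _ hlz
    have : (L : ℝ) * Real.log 3 ≤ R * 1.11 := mul_le_mul (hLτ.trans hτR) hl3 hl30 (by positivity)
    linarith
  have hLk : (L : ℝ) ≤ k₁ := by linarith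
  have hLk' : L ≤ k₁ := by exact_mod_cast hLk
  set Γ := ∑ b ∈ E, gg d L b / b with hΓ
  have hΓ4 : Γ ≤ 4 := gg_sum (by linarith) hLz hE'
  have hΓ0 : 0 ≤ Γ := sum_nonneg fun b hb => div_nonneg (gg_nonneg _ _ _) (by linarith [(hE' b hb).1])
  have hL0 : (0 : ℝ) < (1 / (L : ℝ)) ^ N := by
    have : (0 : ℝ) < L := by exact_mod_cast hL
    positivity
  set δ := (1 / (L : ℝ)) ^ N with hδ
  -- the cap
  obtain ⟨A₁, hA₁⟩ : ∃ A₁ : ℕ, 3 ^ L * ((L + k₂) * (1 / 2 : ℝ) ^ A₁) ≤ 1 / R := by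
    obtain ⟨m, hm⟩ := exists_pow_lt_of_lt_one (show (0 : ℝ) < 1 / (R * (3 ^ L * (L + k₂ + 1))) by positivity)
      (by norm_num : (1 / 2 : ℝ) < 1)
    refine ⟨m, ?_⟩
    rw [lt_div_iff₀ (by positivity)] at hm
    rw [le_div_iff₀ hR0]
    have h1 : 0 ≤ (1 / 2 : ℝ) ^ m * (R * 3 ^ L) := by positivity
    have e : (1 / 2 : ℝ) ^ m * (R * (3 ^ L * (L + k₂ + 1)))
        = 3 ^ L * ((L + k₂) * (1 / 2 : ℝ) ^ m) * R + (1 / 2 : ℝ) ^ m * (R * 3 ^ L) := by ring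
    linarith
  set A : ℕ := A₁ + 3 * k₂ with hA
  have hA2 : 3 ^ L * ((L + k₂) * (1 / 2 : ℝ) ^ A) ≤ 1 / R := by
    refine le_trans ?_ hA₁
    apply mul_le_mul_of_nonneg_left _ (by positivity)
    apply mul_le_mul_of_nonneg_left _ (by positivity)
    exact pow_le_pow_of_le_one (by norm_num) (by norm_num) (by omega)
  set e5 := 3 ^ L * Real.exp (-(η ^ 2 * τ₀ / 10)) with he5
  have h50 : 0 ≤ e5 := by rw [he5]; positivity
  have hsum : (k₂ - k₁ + 1) * (2 * Γ) - (4 * R + 1) * (C₂ * (4 * R * δ) + 4 * (1 / R + 2 * e5))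
      ≤ ∑ b ∈ E, 2 / (b : ℝ) * ∑ k ∈ Icc k₁ k₂, 3 ^ k * Am d A k k (Tk η A k) b := by
    have h1 : ∑ b ∈ E, 2 / (b : ℝ) * ∑ k ∈ Icc k₁ k₂, 3 ^ k * Am d A k k (Tk η A k) b
        = ∑ k ∈ Icc k₁ k₂, ∑ b ∈ E, 2 / (b : ℝ) * (3 ^ k * Am d A k k (Tk η A k) b) := by
      rw [sum_comm]
      apply sum_congr rfl
      intro b _
      rw [mul_sum]
    rw [h1]
    have h2 : ∀ k ∈ Icc k₁ k₂, 2 * Γ - (C₂ * (4 * R * δ) + 4 * (1 / R + 2 * e5))
        ≤ ∑ b ∈ E, 2 / (b : ℝ) * (3 ^ k * Am d A k k (Tk η A k) b) := by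
      intro k hk
      rw [mem_Icc] at hk
      have hkk : (3 : ℝ) ^ k ≤ z := (pow_le_pow_right₀ (by norm_num) hk.2).trans hz3
      have hkR1 : (k₁ : ℝ) ≤ k := by exact_mod_cast hk.1
      have hkR2 : (k : ℝ) ≤ k₂ := by exact_mod_cast hk.2
      have h3 := hlo A k L hL (by omega) (by omega) z (by linarith) hkk η hη0 (by linarith) E hE'
      have h4 : (k : ℝ) * δ ≤ 4 * R * δ := mul_le_mul_of_nonneg_right (hkR2.trans hk24) hL0.le
      have h5 := mul_le_mul_of_nonneg_left h4 hC₂.le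
      have h6 : 3 ^ L * (((L : ℝ) + k) * (1 / 2) ^ A) ≤ 1 / R := by
        refine le_trans ?_ hA2
        apply mul_le_mul_of_nonneg_left _ (by positivity)
        apply mul_le_mul_of_nonneg_right _ (by positivity)
        linarith
      have h7 : 3 ^ L * Real.exp (-(η ^ 2 * k / 32)) ≤ e5 := by
        rw [he5]
        apply mul_le_mul_of_nonneg_left _ (by positivity)
        apply Real.exp_le_exp.2
        have : η ^ 2 * (3.4 * τ₀) ≤ η ^ 2 * k := mul_le_mul_of_nonneg_left (by linarith) (by positivity)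
        have h0 : 0 ≤ η ^ 2 * τ₀ := by positivity
        linarith
      have e : 3 ^ L * (((L : ℝ) + k) * (1 / 2) ^ A + 2 * Real.exp (-(η ^ 2 * k / 32)))
          = 3 ^ L * (((L : ℝ) + k) * (1 / 2) ^ A) + 2 * (3 ^ L * Real.exp (-(η ^ 2 * k / 32))) := by ring
      rw [e] at h3
      linarith
    refine le_trans ?_ (sum_le_sum h2)
    rw [sum_const, nsmul_eq_mul, Nat.card_Icc]
    have hbr : 0 ≤ C₂ * (4 * R * δ) + 4 * (1 / R + 2 * e5) := by positivity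
    have h3 : ((k₂ : ℝ) - k₁ + 1) ≤ ((k₂ + 1 - k₁ : ℕ) : ℝ) := by
      have : (k₂ : ℤ) - k₁ + 1 ≤ ((k₂ + 1 - k₁ : ℕ) : ℤ) := by omega
      exact_mod_cast this
    have h4 : ((k₂ + 1 - k₁ : ℕ) : ℝ) ≤ 4 * R + 1 := by
      have : ((k₂ + 1 - k₁ : ℕ) : ℝ) ≤ k₂ + 1 := by exact_mod_cast Nat.sub_le _ _
      linarith
    have h5 : ((k₂ : ℝ) - k₁ + 1) * (2 * Γ) ≤ ((k₂ + 1 - k₁ : ℕ) : ℝ) * (2 * Γ) :=
      mul_le_mul_of_nonneg_right h3 (by linarith)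
    have h6 : ((k₂ + 1 - k₁ : ℕ) : ℝ) * (C₂ * (4 * R * δ) + 4 * (1 / R + 2 * e5))
        ≤ (4 * R + 1) * (C₂ * (4 * R * δ) + 4 * (1 / R + 2 * e5)) := mul_le_mul_of_nonneg_right h4 hbr
    linarith
  have hSb : ∑ b ∈ E, 2 / (b : ℝ) * ∑ k ∈ Icc k₁ k₂, 3 ^ k * Am d A k k (Tk η A k) b
      ≥ (R / θ - 10 * η * R - 5 * τ₀) * (2 * Γ) - (4 * R + 1) * (C₂ * (4 * R * δ) + 4 * (1 / R + 2 * e5)) := by
    have h1 : R / θ - 10 * η * R - 5 * τ₀ ≤ k₂ - k₁ + 1 := by linarith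
    have := mul_le_mul_of_nonneg_right h1 (by linarith : 0 ≤ 2 * Γ)
    linarith
  set S0 := ∑ b ∈ E, 2 / (b : ℝ) * ∑ k ∈ Icc k₁ k₂, 3 ^ k * Am d A k k (Tk η A k) b with hS0
  have hI : (1 - 2 * Real.exp (-τ₀)) * (1 - Real.exp (-R)) * S0
      ≤ ∑ b ∈ E, 3 * (∫ t in (τ₀ + Real.log (2 * z))..(τ₀ + Real.log (2 * z) + R), Fd (Pre d b) t) := by
    rw [hS0, mul_sum]
    apply sum_le_sum
    intro b hb
    exact LB2 hd hda (hE b hb) (by linarith) hη0 hη hξ hξ4 (by linarith) hR0.le (by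
      have : (1 : ℝ) ≤ k₁ := by linarith
      exact_mod_cast this) hk13 hk23
  refine le_trans ?_ hI
  have hζ0 := Real.exp_pos (-τ₀)
  have hξ0 := Real.exp_pos (-R)
  set V := (R / θ - 10 * η * R - 5 * τ₀) * (2 * Γ) - (4 * R + 1) * (C₂ * (4 * R * δ) + 4 * (1 / R + 2 * e5)) with hV
  have hm0 : 0 ≤ (1 - 2 * Real.exp (-τ₀)) * (1 - Real.exp (-R)) := mul_nonneg (by linarith) (by linarith)
  have hm1 : (1 - 2 * Real.exp (-τ₀)) * (1 - Real.exp (-R)) * V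
      ≤ (1 - 2 * Real.exp (-τ₀)) * (1 - Real.exp (-R)) * S0 := mul_le_mul_of_nonneg_left hSb hm0
  refine le_trans ?_ hm1
  -- `V ≤ 32 R`
  have hRθ : R / θ ≤ 4 * R := by
    have h2 : R / θ ≤ R / 0.277 := div_le_div_of_nonneg_left hR0.le (by norm_num) hθ1
    have h3 : R / 0.277 ≤ 4 * R := by rw [div_le_iff₀ (by norm_num)]; linarith
    linarith
  have herr0 : 0 ≤ (4 * R + 1) * (C₂ * (4 * R * δ) + 4 * (1 / R + 2 * e5)) := by positivity
  have hVup : V ≤ 32 * R := by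
    have h1 : (R / θ - 10 * η * R - 5 * τ₀) * (2 * Γ) ≤ (4 * R) * (2 * Γ) := by
      apply mul_le_mul_of_nonneg_right _ (by linarith)
      have : 0 ≤ 10 * η * R := by positivity
      linarith
    have h2 : (4 * R) * (2 * Γ) ≤ (4 * R) * 8 := mul_le_mul_of_nonneg_left (by linarith) (by linarith)
    linarith
  have hmV : V - 64 * R * Real.exp (-τ₀) - 32 * R * Real.exp (-R) ≤
      (1 - 2 * Real.exp (-τ₀)) * (1 - Real.exp (-R)) * V := by
    have e : (1 - 2 * Real.exp (-τ₀)) * (1 - Real.exp (-R)) * V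
        = V - (1 - (1 - 2 * Real.exp (-τ₀)) * (1 - Real.exp (-R))) * V := by ring
    rw [e]
    have hab : 0 ≤ Real.exp (-τ₀) * Real.exp (-R) := by positivity
    have hab' : Real.exp (-τ₀) * Real.exp (-R) ≤ Real.exp (-τ₀) * (1 / 4) :=
      mul_le_mul_of_nonneg_left hξ4 hζ0.le
    have eab : 1 - (1 - 2 * Real.exp (-τ₀)) * (1 - Real.exp (-R))
        = 2 * Real.exp (-τ₀) + Real.exp (-R) - 2 * (Real.exp (-τ₀) * Real.exp (-R)) := by ring
    have h1 : 0 ≤ 1 - (1 - 2 * Real.exp (-τ₀)) * (1 - Real.exp (-R)) := by rw [eab]; linarith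
    have h2 : 1 - (1 - 2 * Real.exp (-τ₀)) * (1 - Real.exp (-R)) ≤ 2 * Real.exp (-τ₀) + Real.exp (-R) := by
      rw [eab]; linarith
    have h3 := mul_le_mul_of_nonneg_left hVup h1
    have h4 := mul_le_mul_of_nonneg_right h2 (by linarith : 0 ≤ 32 * R)
    linarith
  refine le_trans ?_ hmV
  have hκ1 : (1 : ℝ) ≤ κ := by exact_mod_cast hκ
  have hτ0 : 0 < τ₀ := by linarith
  have e1 : R * Real.exp (-τ₀) ≤ R * (κ / τ₀) := by
    apply mul_le_mul_of_nonneg_left _ hR0.le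
    refine hζ.trans (div_le_div_of_nonneg_right hκ1 hτ0.le)
  have e3 : R * (τ₀ / R) = τ₀ := by field_simp
  have e4 : (R / θ - 10 * η * R - 5 * τ₀) * (2 * Γ) ≥ 2 / θ * Γ * R - 80 * (R * η) - 40 * τ₀ := by
    have e : (R / θ - 10 * η * R - 5 * τ₀) * (2 * Γ) = 2 / θ * Γ * R - (10 * η * R + 5 * τ₀) * (2 * Γ) := by ring
    rw [e]
    have : (10 * η * R + 5 * τ₀) * (2 * Γ) ≤ (10 * η * R + 5 * τ₀) * 8 :=
      mul_le_mul_of_nonneg_left (by linarith) (by positivity)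
    linarith
  have e6 : (4 * R + 1) * (C₂ * (4 * R * δ) + 4 * (1 / R + 2 * e5))
      ≤ 16 * C₂ * (R * (R * δ)) + 4 * C₂ * (R * δ) + 20 + 40 * (R * e5) := by
    have h1 : (4 * R + 1) * (C₂ * (4 * R * δ) + 4 * (1 / R + 2 * e5))
        = 16 * C₂ * (R * (R * δ)) + 4 * C₂ * (R * δ) + (16 + 4 * (1 / R)) + 32 * (R * e5) + 8 * e5 := by
      field_simp
      ring
    rw [h1]
    have h2 : 1 / R ≤ 1 := by rw [div_le_one hR0]; linarith
    have h3 : e5 ≤ R * e5 := le_mul_of_one_le_left h50 (by linarith)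
    linarith
  have e7 : R * δ ≤ 1 * (R * (R * δ)) := by
    rw [one_mul]
    exact le_mul_of_one_le_left (by positivity) (by linarith)
  have e8 : C₂ * (R * δ) * 1002 ≤ C₂ * (R * (R * δ)) := by
    have : R * δ * 1002 ≤ R * δ * R := mul_le_mul_of_nonneg_left hR (by positivity)
    have h2 := mul_le_mul_of_nonneg_left this hC₂.le
    linarith
  have hrest : 0 ≤ C₂ * (R * (κ / τ₀)) + C₂ * (R * η) + C₂ * τ₀ + R * (R * δ) + C₂ * (R * e5)
      ∧ 0 ≤ C₂ * (R * (κ / τ₀)) ∧ 0 ≤ C₂ * (R * η) ∧ 0 ≤ C₂ * τ₀ ∧ 0 ≤ R * (R * δ) ∧ 0 ≤ C₂ * (R * e5)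
      ∧ 0 ≤ R * (κ / τ₀) ∧ 0 ≤ R * η ∧ 0 ≤ R * e5 ∧ 0 ≤ C₂ * (R * (R * δ)) := by
    refine ⟨?_, ?_, ?_, ?_, ?_, ?_, ?_, ?_, ?_, ?_⟩ <;> positivity
  obtain ⟨r0, r1, r2, r3, r4, r5, r6, r7, r8, r9⟩ := hrest
  have hfin : (200 + 20 * C₂) * R * (κ / τ₀ + η + τ₀ / R + R * δ + e5)
      = 200 * (R * (κ / τ₀)) + 200 * (R * η) + 200 * τ₀ + 200 * (R * (R * δ)) + 200 * (R * e5)
        + 20 * (C₂ * (R * (κ / τ₀))) + 20 * (C₂ * (R * η)) + 20 * (C₂ * τ₀) + 20 * (C₂ * (R * (R * δ)))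
        + 20 * (C₂ * (R * e5)) := by
    field_simp
    ring
  rw [hfin, hV]
  linarith

end Pool.Agent.R344.FP
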