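import Pool.Agent.R344.FP.O

/-! Densities of predecessor sets, part Q: the choice of the parameters. -/

set_option autoImplicit false

namespace Pool.Agent.R344.FP

open Finset MeasureTheory Filter Topology
open Pool.Agent.H320R2.PD Pool.Agent.H499R2.ND
open Pool.Agent.H499R2.CO (Tz)
open Pool.Agent.R344.SP Pool.Agent.R344.TH

theorem core {d : ℤ} (hd : Odd d) (hd3 : IsCoprime d 3) (hdd : d * d = 1) (hda : |(d : ℝ)| ≤ 1) (N : ℕ) :
    ∃ z₀ C : ℝ, 2 ≤ z₀ ∧ 0 < C ∧ ∀ z : ℝ, z₀ ≤ z → ∀ η τ₀ R : ℝ, 0 < η → η ≤ 1 / 20 → 1002 ≤ τ₀ → τ₀ ≤ R →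
      400 * R ≤ Real.log z → ∀ κ L : ℕ, 1 ≤ κ → 1 ≤ L → (L : ℝ) ≤ τ₀ → ∀ E : Finset ℤ, (∀ b ∈ E, b ∈ Go d z κ) →
      ∀ l : ℤ → ℝ, (∀ b ∈ E, Tendsto (Fd (Pre d b)) atTop (𝓝 (l b))) →
      |∑ b ∈ E, (3 * l b - 2 / Real.log (4 / 3) * (gg d L b / b))|
        ≤ C * ((κ / τ₀ + η + τ₀ / R + R * (1 / (L : ℝ)) ^ N + 3 ^ L * Real.exp (-(η ^ 2 * τ₀ / 10)))
            + (κ / (Real.log z) ^ N + κ * (1 / η ^ 2 * Real.exp (-(2 * η ^ 2 * τ₀))))) := by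
  obtain ⟨z₀, C₁, hz₀, hC₁, hU⟩ := Ucore hd hd3 hdd hda N
  obtain ⟨C₂, hC₂, hL⟩ := Lcore hd hdd hda N
  obtain ⟨K, hK, hS⟩ := sumE hd hd3
  refine ⟨z₀, C₁ + C₂ + 11 * (K + 4), hz₀, by positivity, ?_⟩
  intro z hz η τ₀ R hη0 hη hτ hτR hlz κ L hκ hL1 hLτ E hE l hl
  have hz2 : 2 ≤ z := hz₀.trans hz
  have hR0 : 0 < R := by linarith
  have hτ0 : 0 < τ₀ := by linarith
  obtain ⟨hθ1, hθ2⟩ := theta_bounds
  have h1 := hU z hz η τ₀ R hη0 hη hτ hτR hlz κ L hκ hL1 hLτ E hE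
  have h2 := hL z hz2 η τ₀ R hη0 hη hτ hτR hlz κ L hκ hL1 hLτ E hE
  have h3 := hS z (by linarith) (by linarith) κ E hE l hl τ₀ R hτ hR0.le
  set θ := Real.log (4 / 3) with hθ
  set Γ := ∑ b ∈ E, gg d L b / b with hΓ
  rw [← mul_sum] at h1 h2
  set I := ∑ b ∈ E, (∫ t in (τ₀ + Real.log (2 * z))..(τ₀ + Real.log (2 * z) + R), Fd (Pre d b) t) with hI
  have hsum : ∑ b ∈ E, (3 * l b - 2 / θ * (gg d L b / b)) = 3 * (∑ b ∈ E, l b) - 2 / θ * Γ := by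
    rw [sum_sub_distrib, ← mul_sum, ← mul_sum]
  rw [hsum]
  set Λ := ∑ b ∈ E, l b with hΛ
  have hlz0 : 0 < Real.log z := by linarith
  set e1 := (κ : ℝ) / τ₀ with he1
  set e4 := R * (1 / (L : ℝ)) ^ N with he4
  set e5 := 3 ^ L * Real.exp (-(η ^ 2 * τ₀ / 10)) with he5
  set e6 := (κ : ℝ) / (Real.log z) ^ N with he6
  set e7 := (κ : ℝ) * (1 / η ^ 2 * Real.exp (-(2 * η ^ 2 * τ₀))) with he7
  have h10 : 0 ≤ e1 := by rw [he1]; positivity
  have h30 : 0 ≤ τ₀ / R := by positivity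
  have h40 : 0 ≤ e4 := by rw [he4]; positivity
  have h50 : 0 ≤ e5 := by rw [he5]; positivity
  have h60 : 0 ≤ e6 := by rw [he6]; positivity
  have h70 : 0 ≤ e7 := by rw [he7]; positivity
  -- the link
  have h4 : |3 * I - 3 * Λ * R| ≤ 11 * (K + 4) * (R * e1) := by
    have hθ0 : 0 < θ := by linarith
    rw [abs_mul, abs_of_pos hθ0] at h3
    have h5 : κ * (K * R / τ₀ + 4) ≤ (K + 4) * (R * e1) := by
      have h6 : (κ : ℝ) * 4 ≤ 4 * (R * e1) := by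
        have h7 : (κ : ℝ) ≤ R * e1 := by
          rw [he1, mul_div_assoc', le_div_iff₀ hτ0, mul_comm]
          exact mul_le_mul_of_nonneg_right hτR (Nat.cast_nonneg _)
        linarith
      have e : (κ : ℝ) * (K * R / τ₀ + 4) = K * (R * e1) + κ * 4 := by rw [he1]; ring
      rw [e]; linarith
    have h6 : 0.277 * |I - Λ * R| ≤ θ * |I - Λ * R| := mul_le_mul_of_nonneg_right hθ1 (abs_nonneg _)
    have h7 : |3 * I - 3 * Λ * R| = 3 * |I - Λ * R| := by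
      rw [show 3 * I - 3 * Λ * R = 3 * (I - Λ * R) by ring, abs_mul, abs_of_pos (by norm_num : (0 : ℝ) < 3)]
    rw [h7]
    have h8 : 0 ≤ (K + 4) * (R * e1) := by positivity
    linarith
  rw [abs_le] at h4
  have hR' : R * |3 * Λ - 2 / θ * Γ| = |3 * Λ * R - 2 / θ * Γ * R| := by
    rw [show 3 * Λ * R - 2 / θ * Γ * R = R * (3 * Λ - 2 / θ * Γ) by ring, abs_mul, abs_of_pos hR0]
  refine le_of_mul_le_mul_left ?_ hR0
  rw [hR', abs_le]
  have q1 : 0 ≤ C₂ * R * e6 := by positivity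
  have q2 : 0 ≤ C₂ * R * e7 := by positivity
  have q3 : 0 ≤ C₁ * R * e1 := by positivity
  have q4 : 0 ≤ C₁ * R * e5 := by positivity
  have q5 : 0 ≤ C₂ * R * (e1 + η + τ₀ / R + e4 + e5) := by positivity
  have q6 : 0 ≤ C₁ * R * (η + τ₀ / R + e4 + e6 + e7) := by positivity
  have q7 : 0 ≤ 11 * (K + 4) * R * (η + τ₀ / R + e4 + e5 + e6 + e7) := by positivity
  have e : R * ((C₁ + C₂ + 11 * (K + 4)) * ((e1 + η + τ₀ / R + e4 + e5) + (e6 + e7)))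
      = C₁ * R * (η + τ₀ / R + e4 + e6 + e7) + C₁ * R * e1 + C₁ * R * e5
        + C₂ * R * (e1 + η + τ₀ / R + e4 + e5) + C₂ * R * e6 + C₂ * R * e7
        + 11 * (K + 4) * (R * e1) + 11 * (K + 4) * R * (η + τ₀ / R + e4 + e5 + e6 + e7) := by ring
  rw [e]
  constructor
  · linarith [h4.1, h4.2]
  · linarith [h4.1, h4.2]

theorem decay {c : ℝ} (hc : 0 < c) (q : ℕ) : ∃ C : ℝ, 0 < C ∧ ∀ L : ℕ, 1 ≤ L →
    3 ^ L * Real.exp (-(c * L ^ 3)) ≤ C / L ^ q := by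
  set a := 1 + Real.log 3 with ha
  have hl30 : 0 ≤ Real.log 3 := Real.log_nonneg (by norm_num)
  have ha0 : 0 < a := by linarith
  refine ⟨Real.exp (a * (a / c)) * (q.factorial : ℝ), by positivity, ?_⟩
  intro L hL
  have hL1 : (1 : ℝ) ≤ L := by exact_mod_cast hL
  have hL0 : (0 : ℝ) < L := by linarith
  have h1 : a * L ≤ c * L ^ 3 + a * (a / c) := by
    rcases le_or_gt (a / c) ((L : ℝ) ^ 2) with h | h
    · have h2 : a ≤ c * L ^ 2 := by rwa [div_le_iff₀' hc] at h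
      have h3 := mul_le_mul_of_nonneg_right h2 hL0.le
      have h4 : 0 ≤ a * (a / c) := by positivity
      have e : c * (L : ℝ) ^ 2 * L = c * L ^ 3 := by ring
      linarith
    · have h2 : (L : ℝ) ≤ L ^ 2 := by nlinarith
      have h3 : a * L ≤ a * (a / c) := mul_le_mul_of_nonneg_left (by linarith) ha0.le
      have h4 : 0 ≤ c * (L : ℝ) ^ 3 := by positivity
      linarith
  have h2 : (3 : ℝ) ^ L = Real.exp (L * Real.log 3) := by
    rw [mul_comm, Real.exp_mul, Real.exp_log (by norm_num), Real.rpow_natCast]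
  rw [h2, ← Real.exp_add]
  have h3 : Real.exp (L * Real.log 3 + -(c * L ^ 3)) ≤ Real.exp (a * (a / c)) * Real.exp (-(L : ℝ)) := by
    rw [← Real.exp_add]
    apply Real.exp_le_exp.2
    rw [ha] at h1 ⊢
    linarith
  refine h3.trans ?_
  rw [mul_div_assoc]
  apply mul_le_mul_of_nonneg_left _ (Real.exp_pos _).le
  rw [le_div_iff₀ (by positivity), Real.exp_neg, inv_mul_le_iff₀ (Real.exp_pos _)]
  have h4 := Real.pow_div_factorial_le_exp (L : ℝ) hL0.le q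
  rw [div_le_iff₀ (by positivity)] at h4
  exact h4

/-- sums over the good targets -/
theorem core2 {d : ℤ} (hd : Odd d) (hd3 : IsCoprime d 3) (hdd : d * d = 1) (hda : |(d : ℝ)| ≤ 1) (p : ℕ) (hp : 1 ≤ p) :
    ∃ C : ℝ, 1 ≤ C ∧ ∀ L : ℕ, 1 ≤ L → ∀ z : ℝ, 0 < z → C * (L : ℝ) ^ (3 * p + 3) ≤ Real.log z →
      ∀ E : Finset ℤ, (∀ b ∈ E, b ∈ Go d z (L + 50)) →
      ∀ l : ℤ → ℝ, (∀ b ∈ E, Tendsto (Fd (Pre d b)) atTop (𝓝 (l b))) →
      |∑ b ∈ E, (3 * l b - 2 / Real.log (4 / 3) * (gg d L b / b))| ≤ C / L ^ p := by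
  obtain ⟨z₀, C₁, hz₀, hC₁, hcore⟩ := core hd hd3 hdd hda (4 * p + 3)
  obtain ⟨C₂, hC₂, hdec⟩ := decay (c := 1 / 4) (by norm_num) p
  obtain ⟨C₃, hC₃, hdec'⟩ := decay (c := 5) (by norm_num) (3 * p + 1)
  refine ⟨max 1 (max (max 0 (Real.log z₀)) (max (400 * 1002) (C₁ * (1200 + C₂ + 51 * 400 * C₃)))), le_max_left _ _, ?_⟩
  intro L hL z hz hlz E hE l hl
  set C := max 1 (max (max 0 (Real.log z₀)) (max (400 * 1002) (C₁ * (1200 + C₂ + 51 * 400 * C₃)))) with hC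
  have hC1 : (1 : ℝ) ≤ C := le_max_left _ _
  have hCz : Real.log z₀ ≤ C := (le_max_right _ _).trans ((le_max_left _ _).trans (le_max_right _ _))
  have hCR : 400 * 1002 ≤ C := (le_max_left _ _).trans ((le_max_right _ _).trans (le_max_right _ _))
  have hCC : C₁ * (1200 + C₂ + 51 * 400 * C₃) ≤ C :=
    (le_max_right _ _).trans ((le_max_right _ _).trans (le_max_right _ _))
  have hL1 : (1 : ℝ) ≤ L := by exact_mod_cast hL
  have hL0 : (0 : ℝ) < L := by linarith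
  have hLp : ∀ m : ℕ, (1 : ℝ) ≤ (L : ℝ) ^ m := fun m => one_le_pow₀ hL1
  have hlogL : (L : ℝ) ≤ Real.log z := by
    have h1 : (L : ℝ) ≤ L ^ (3 * p + 3) := by
      calc (L : ℝ) = L ^ 1 := (pow_one _).symm
        _ ≤ L ^ (3 * p + 3) := pow_le_pow_right₀ hL1 (by omega)
    have h2 : (L : ℝ) ^ (3 * p + 3) ≤ C * L ^ (3 * p + 3) := le_mul_of_one_le_left (by positivity) hC1
    linarith
  have hzz : z₀ ≤ z := by
    have hz00 : 0 < z₀ := by linarith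
    rw [← Real.log_le_log_iff hz00 hz]
    have h2 : C * 1 ≤ C * (L : ℝ) ^ (3 * p + 3) := mul_le_mul_of_nonneg_left (hLp _) (by linarith)
    linarith
  set η : ℝ := 1 / (20 * L ^ p) with hη
  set τ₀ : ℝ := 1002 * L ^ (2 * p + 3) with hτ₀
  set R : ℝ := 1002 * L ^ (3 * p + 3) with hR
  have hη0 : 0 < η := by positivity
  have hη1 : η ≤ 1 / 20 := by
    rw [hη]
    apply one_div_le_one_div_of_le (by norm_num)
    linarith [hLp p]
  have hτ1 : 1002 ≤ τ₀ := by rw [hτ₀]; linarith [hLp (2 * p + 3)]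
  have hτR : τ₀ ≤ R := by
    rw [hτ₀, hR]
    apply mul_le_mul_of_nonneg_left _ (by norm_num)
    exact pow_le_pow_right₀ hL1 (by omega)
  have hRz : 400 * R ≤ Real.log z := by
    refine le_trans ?_ hlz
    rw [hR, ← mul_assoc]
    exact mul_le_mul_of_nonneg_right hCR (by positivity)
  have hLτ : (L : ℝ) ≤ τ₀ := by
    have h1 : (L : ℝ) ≤ L ^ (2 * p + 3) := by
      calc (L : ℝ) = L ^ 1 := (pow_one _).symm
        _ ≤ L ^ (2 * p + 3) := pow_le_pow_right₀ hL1 (by omega)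
    rw [hτ₀]
    have : (0 : ℝ) ≤ L ^ (2 * p + 3) := by positivity
    linarith
  have h := hcore z hzz η τ₀ R hη0 hη1 hτ1 hτR hRz (L + 50) L (by omega) hL hLτ E hE l hl
  refine h.trans ?_
  have hκ : ((L + 50 : ℕ) : ℝ) ≤ 51 * L := by push_cast; linarith
  have hκ0 : (0 : ℝ) ≤ ((L + 50 : ℕ) : ℝ) := Nat.cast_nonneg _
  have hPp : (0 : ℝ) < (L : ℝ) ^ p := by positivity
  have b1 : ((L + 50 : ℕ) : ℝ) / τ₀ ≤ 1 / L ^ p := by
    rw [div_le_div_iff₀ (by linarith) hPp, hτ₀]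
    have h1 : (L : ℝ) * L ^ p ≤ L ^ (2 * p + 3) := by
      rw [← pow_succ']
      exact pow_le_pow_right₀ hL1 (by omega)
    have h2 : ((L + 50 : ℕ) : ℝ) * L ^ p ≤ 51 * L * L ^ p := mul_le_mul_of_nonneg_right hκ hPp.le
    have h3 : (0 : ℝ) ≤ L ^ (2 * p + 3) := by positivity
    linarith
  have b2 : η ≤ 1 / L ^ p := by
    rw [hη]
    apply one_div_le_one_div_of_le hPp
    linarith
  have b3 : τ₀ / R = 1 / L ^ p := by
    rw [hτ₀, hR, div_eq_div_iff (by positivity) (by positivity)]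
    rw [one_mul, mul_assoc, ← pow_add]
    congr 2
    omega
  have b4 : R * (1 / (L : ℝ)) ^ (4 * p + 3) = 1002 / L ^ p := by
    rw [hR, one_div, inv_pow, eq_div_iff hPp.ne']
    have e : (L : ℝ) ^ (4 * p + 3) = L ^ (3 * p + 3) * L ^ p := by rw [← pow_add]; congr 1; omega
    rw [e]
    field_simp
  have b5 : 3 ^ L * Real.exp (-(η ^ 2 * τ₀ / 10)) ≤ C₂ / L ^ p := by
    refine le_trans ?_ (hdec L hL)
    apply mul_le_mul_of_nonneg_left _ (by positivity)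
    apply Real.exp_le_exp.2
    have e : η ^ 2 * τ₀ / 10 = 1002 / 4000 * L ^ 3 := by
      rw [hη, hτ₀]
      have e1 : (L : ℝ) ^ (2 * p + 3) = (L ^ p) ^ 2 * L ^ 3 := by rw [← pow_mul, ← pow_add]; congr 1; omega
      rw [e1]
      field_simp
      ring
    rw [e]
    have : (0 : ℝ) ≤ L ^ 3 := by positivity
    linarith
  have b6 : ((L + 50 : ℕ) : ℝ) / (Real.log z) ^ (4 * p + 3) ≤ 51 / L ^ p := by
    rw [div_le_div_iff₀ (pow_pos (by linarith) _) hPp]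
    have h1 : (L : ℝ) * L ^ p ≤ (Real.log z) ^ (4 * p + 3) := by
      rw [← pow_succ']
      calc (L : ℝ) ^ (p + 1) ≤ L ^ (4 * p + 3) := pow_le_pow_right₀ hL1 (by omega)
        _ ≤ (Real.log z) ^ (4 * p + 3) := pow_le_pow_left₀ hL0.le hlogL _
    have h2 : ((L + 50 : ℕ) : ℝ) * L ^ p ≤ 51 * L * L ^ p := mul_le_mul_of_nonneg_right hκ hPp.le
    linarith
  have b7 : ((L + 50 : ℕ) : ℝ) * (1 / η ^ 2 * Real.exp (-(2 * η ^ 2 * τ₀))) ≤ 51 * 400 * C₃ / L ^ p := by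
    have h1 : Real.exp (-(2 * η ^ 2 * τ₀)) ≤ C₃ / L ^ (3 * p + 1) := by
      refine le_trans ?_ (hdec' L hL)
      have e : 2 * η ^ 2 * τ₀ = 2004 / 400 * L ^ 3 := by
        rw [hη, hτ₀]
        have e1 : (L : ℝ) ^ (2 * p + 3) = (L ^ p) ^ 2 * L ^ 3 := by rw [← pow_mul, ← pow_add]; congr 1; omega
        rw [e1]
        field_simp
        ring
      rw [e]
      have h0 : (0 : ℝ) ≤ L ^ 3 := by positivity
      have h2 : Real.exp (-(2004 / 400 * (L : ℝ) ^ 3)) ≤ Real.exp (-(5 * (L : ℝ) ^ 3)) :=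
        Real.exp_le_exp.2 (by linarith)
      refine h2.trans (le_mul_of_one_le_left (Real.exp_pos _).le (one_le_pow₀ (by norm_num)))
    have h2 : 1 / η ^ 2 = 400 * (L ^ p) ^ 2 := by
      rw [hη]; field_simp; ring
    rw [h2]
    calc ((L + 50 : ℕ) : ℝ) * (400 * ((L : ℝ) ^ p) ^ 2 * Real.exp (-(2 * η ^ 2 * τ₀)))
        ≤ (51 * L) * (400 * ((L : ℝ) ^ p) ^ 2 * (C₃ / L ^ (3 * p + 1))) := by
          apply mul_le_mul hκ _ (by positivity) (by positivity)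
          exact mul_le_mul_of_nonneg_left h1 (by positivity)
      _ = 51 * 400 * C₃ / L ^ p := by
          have e1 : (L : ℝ) ^ (3 * p + 1) = (L ^ p) ^ 2 * L ^ p * L := by
            rw [← pow_mul, ← pow_add, ← pow_succ]; congr 1; omega
          rw [e1]
          field_simp
  have hsum : (((L + 50 : ℕ) : ℝ) / τ₀ + η + τ₀ / R + R * (1 / (L : ℝ)) ^ (4 * p + 3)
        + 3 ^ L * Real.exp (-(η ^ 2 * τ₀ / 10)))
      + (((L + 50 : ℕ) : ℝ) / (Real.log z) ^ (4 * p + 3)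
        + ((L + 50 : ℕ) : ℝ) * (1 / η ^ 2 * Real.exp (-(2 * η ^ 2 * τ₀))))
      ≤ (1200 + C₂ + 51 * 400 * C₃) / L ^ p := by
    have e : (1200 + C₂ + 51 * 400 * C₃) / (L : ℝ) ^ p = 1 / L ^ p + 1 / L ^ p + 1 / L ^ p + 1002 / L ^ p
        + C₂ / L ^ p + 51 / L ^ p + 51 * 400 * C₃ / L ^ p + 144 / L ^ p := by ring
    have h0 : 0 ≤ 144 / (L : ℝ) ^ p := by positivity
    rw [e, b3, b4]
    linarith
  calc C₁ * ((((L + 50 : ℕ) : ℝ) / τ₀ + η + τ₀ / R + R * (1 / (L : ℝ)) ^ (4 * p + 3)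
        + 3 ^ L * Real.exp (-(η ^ 2 * τ₀ / 10)))
      + (((L + 50 : ℕ) : ℝ) / (Real.log z) ^ (4 * p + 3)
        + ((L + 50 : ℕ) : ℝ) * (1 / η ^ 2 * Real.exp (-(2 * η ^ 2 * τ₀)))))
      ≤ C₁ * ((1200 + C₂ + 51 * 400 * C₃) / L ^ p) := mul_le_mul_of_nonneg_left hsum hC₁.le
    _ = (C₁ * (1200 + C₂ + 51 * 400 * C₃)) / L ^ p := by ring
    _ ≤ C / L ^ p := div_le_div_of_nonneg_right hCC hPp.le

end Pool.Agent.R344.FP
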