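import Pool.Agent.R344.FP.Q
import Pool.Agent.H319R2.Orbit

/-! Densities of predecessor sets, part S: exceptional sets. -/

set_option autoImplicit false

namespace Pool.Agent.R344.FP

open Finset MeasureTheory Filter Topology
open Pool.Agent.H320R2.PD Pool.Agent.H499R2.ND
open Pool.Agent.H499R2.CO (Tz)
open Pool.Agent.R344.SP Pool.Agent.R344.TH

theorem dens_of_Fd {S : Set ℤ} {l : ℝ} (hl : Tendsto (Fd S) atTop (𝓝 l)) :
    Tendsto (fun X : ℝ => G S X / X) atTop (𝓝 (3 * l)) := by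
  rw [Metric.tendsto_atTop] at hl ⊢
  intro ε hε
  obtain ⟨T, hT⟩ := hl (ε / 12) (by positivity)
  have hrec : ∀ X : ℝ, 0 < X → G S (2 * X) / (2 * X) - 3 * l
      = (G S X / X - 3 * l) / 2 + 3 / 2 * (Fd S (Real.log X) - l) := by
    intro X hX
    unfold Fd
    rw [Real.exp_log hX]
    field_simp
    ring
  set X0 := max (Real.exp T) 1 with hX0
  have hX0pos : 0 < X0 := by positivity
  have hX01 : 1 ≤ X0 := le_max_right _ _
  have hstep : ∀ X : ℝ, X0 ≤ X → |G S (2 * X) / (2 * X) - 3 * l| ≤ |G S X / X - 3 * l| / 2 + ε / 8 := by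
    intro X hX
    have hXpos : 0 < X := by linarith
    rw [hrec X hXpos]
    have h1 := hT (Real.log X) (by
      rw [ge_iff_le, Real.le_log_iff_exp_le hXpos]
      exact (le_max_left _ _).trans hX)
    rw [Real.dist_eq] at h1
    have h2 := abs_add_le ((G S X / X - 3 * l) / 2) (3 / 2 * (Fd S (Real.log X) - l))
    rw [abs_div, abs_mul, abs_of_pos (by norm_num : (0 : ℝ) < 2),
      abs_of_pos (by norm_num : (0 : ℝ) < 3 / 2)] at h2
    linarith
  set M := 1 + |3 * l| with hM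
  have hMpos : 0 < M := by positivity
  have hbase : ∀ X : ℝ, X0 ≤ X → |G S X / X - 3 * l| ≤ M := by
    intro X hX
    have hXpos : 0 < X := by linarith
    have h1 : G S X / X ≤ 1 := by rw [div_le_one hXpos]; exact pos_card_le S hXpos.le
    have h2 : 0 ≤ G S X / X := div_nonneg (G_nonneg S X) hXpos.le
    calc |G S X / X - 3 * l| ≤ |G S X / X| + |3 * l| := abs_sub _ _
      _ ≤ M := by rw [abs_of_nonneg h2]; linarith
  have hiter : ∀ n : ℕ, ∀ X : ℝ, X0 * 2 ^ n ≤ X → |G S X / X - 3 * l| ≤ M / 2 ^ n + ε / 4 := by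
    intro n
    induction n with
    | zero =>
      intro X hX
      have := hbase X (by simpa using hX)
      simp only [pow_zero, div_one]
      linarith
    | succ n ih =>
      intro X hX
      have hX2 : X0 * 2 ^ n ≤ X / 2 := by rw [pow_succ] at hX; linarith
      have h1 := ih (X / 2) hX2
      have h2 := hstep (X / 2) (by
        have : X0 ≤ X0 * 2 ^ n := le_mul_of_one_le_right hX0pos.le (one_le_pow₀ (by norm_num))
        linarith)
      rw [show 2 * (X / 2) = X by ring] at h2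
      have h3 : M / 2 ^ (n + 1) = M / 2 ^ n / 2 := by rw [pow_succ]; field_simp
      rw [h3]
      linarith
  obtain ⟨n, hn⟩ := pow_unbounded_of_one_lt (4 * M / ε) (by norm_num : (1 : ℝ) < 2)
  refine ⟨X0 * 2 ^ n, fun X hX => ?_⟩
  rw [Real.dist_eq]
  have h1 := hiter n X hX
  have h2 : M / 2 ^ n < ε / 4 := by
    rw [div_lt_iff₀ hε] at hn
    rw [div_lt_iff₀ (by positivity)]
    linarith
  linarith

/-- sign change -/
theorem T_sign {s : ℤ} (hs : s = 1 ∨ s = -1) (x : ℤ) : Pool.Agent.H319R2.T (s * x) = s * Tz s x := by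
  unfold Pool.Agent.H319R2.T Tz
  rcases hs with rfl | rfl
  · simp
  · split_ifs <;> omega

theorem T_sign_iter {s : ℤ} (hs : s = 1 ∨ s = -1) (k : ℕ) (x : ℤ) :
    Pool.Agent.H319R2.T^[k] (s * x) = s * (Tz s)^[k] x := by
  induction k generalizing x with
  | zero => rfl
  | succ k ih => rw [Function.iterate_succ_apply, Function.iterate_succ_apply, T_sign hs, ih]

theorem sign_mul {s : ℤ} (hs : s = 1 ∨ s = -1) : s * s = 1 := by rcases hs with rfl | rfl <;> norm_num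

theorem Lo_count {s : ℤ} (hs : s = 1 ∨ s = -1) : ∃ C : ℝ, 0 < C ∧ ∀ z : ℝ, 1 ≤ z → ∀ F : Finset ℤ,
    (∀ b ∈ F, b ∈ Lo s (z ^ (1 / 100 : ℝ)) ∧ |(b : ℝ)| ≤ 2 * z) → (F.card : ℝ) ≤ C * z ^ (0.97 : ℝ) := by
  classical
  obtain ⟨C, hC, h⟩ := Pool.Agent.H319R2.orbit_sparse 0.96 (by
    have := Pool.Agent.H319R2.beta_lt; linarith)
  refine ⟨C * 2, by positivity, ?_⟩
  intro z hz F hF
  have hz0 : 0 < z := by linarith
  have hss := sign_mul hs
  set Y := z ^ (1 / 100 : ℝ) with hY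
  have hY0 : 0 ≤ Y := by positivity
  have hsub : F ⊆ (Icc (1 : ℕ) ⌊Y⌋₊).biUnion (fun x => F.filter (fun b => ∃ k : ℕ, (Tz s)^[k] (x : ℤ) = b)) := by
    intro b hb
    obtain ⟨x, hx0, hxY, k, hk⟩ := (hF b hb).1
    rw [mem_biUnion]
    refine ⟨x.toNat, ?_, ?_⟩
    · rw [mem_Icc]
      refine ⟨by omega, Nat.le_floor ?_⟩
      have : ((x.toNat : ℕ) : ℝ) = (x : ℝ) := by
        have h1 : ((x.toNat : ℕ) : ℤ) = x := Int.toNat_of_nonneg hx0.le
        exact_mod_cast h1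
      rw [this]; exact hxY.le
    · rw [mem_filter]
      refine ⟨hb, k, ?_⟩
      rw [Int.toNat_of_nonneg hx0.le]; exact hk
  have h1 : ∀ x ∈ Icc (1 : ℕ) ⌊Y⌋₊, ((F.filter (fun b => ∃ k : ℕ, (Tz s)^[k] (x : ℤ) = b)).card : ℝ)
      ≤ C * (2 * z) ^ (0.96 : ℝ) := by
    intro x _
    have hinj : Function.Injective (fun b : ℤ => s * b) := by
      intro a b hab
      simp only at hab
      have := congrArg (fun t => s * t) hab
      simp only [← mul_assoc, hss, one_mul] at this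
      exact this
    have h2 := h (s * x) (2 * z) (by linarith)
      ((F.filter (fun b => ∃ k : ℕ, (Tz s)^[k] (x : ℤ) = b)).image (fun b => s * b)) ?_
    · rwa [card_image_of_injective _ hinj] at h2
    · intro y hy
      rw [mem_image] at hy
      obtain ⟨b, hb, rfl⟩ := hy
      rw [mem_filter] at hb
      obtain ⟨hbF, k, hk⟩ := hb
      refine ⟨⟨k, by rw [T_sign_iter hs, hk]⟩, ?_⟩
      have h3 := (hF b hbF).2
      push_cast
      rw [abs_mul]
      have : |(s : ℝ)| = 1 := by rcases hs with rfl | rfl <;> simp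
      rw [this, one_mul]
      exact h3
  have h2 : (F.card : ℝ) ≤ ∑ x ∈ Icc (1 : ℕ) ⌊Y⌋₊, C * (2 * z) ^ (0.96 : ℝ) := by
    calc (F.card : ℝ) ≤ (((Icc (1 : ℕ) ⌊Y⌋₊).biUnion
          (fun x => F.filter (fun b => ∃ k : ℕ, (Tz s)^[k] (x : ℤ) = b))).card : ℝ) := by
          exact_mod_cast card_le_card hsub
      _ ≤ ∑ x ∈ Icc (1 : ℕ) ⌊Y⌋₊, ((F.filter (fun b => ∃ k : ℕ, (Tz s)^[k] (x : ℤ) = b)).card : ℝ) := by
          exact_mod_cast card_biUnion_le
      _ ≤ _ := sum_le_sum h1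
  rw [sum_const, nsmul_eq_mul, Nat.card_Icc, Nat.add_sub_cancel] at h2
  have h3 : ((⌊Y⌋₊ : ℕ) : ℝ) ≤ Y := Nat.floor_le hY0
  have h4 : (2 * z) ^ (0.96 : ℝ) ≤ 2 * z ^ (0.96 : ℝ) := by
    rw [Real.mul_rpow (by norm_num) hz0.le]
    apply mul_le_mul_of_nonneg_right _ (by positivity)
    calc (2 : ℝ) ^ (0.96 : ℝ) ≤ 2 ^ (1 : ℝ) := Real.rpow_le_rpow_of_exponent_le (by norm_num) (by norm_num)
      _ = 2 := Real.rpow_one 2
  calc (F.card : ℝ) ≤ (⌊Y⌋₊ : ℝ) * (C * (2 * z) ^ (0.96 : ℝ)) := h2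
    _ ≤ Y * (C * (2 * z ^ (0.96 : ℝ))) := by
        apply mul_le_mul h3 _ (by positivity) hY0
        exact mul_le_mul_of_nonneg_left h4 hC.le
    _ = C * 2 * (z ^ (1 / 100 : ℝ) * z ^ (0.96 : ℝ)) := by rw [hY]; ring
    _ = C * 2 * z ^ (0.97 : ℝ) := by
        rw [← Real.rpow_add hz0]; norm_num

/-- the targets which are not good are few -/
theorem notGo_count {s : ℤ} (hs : s = 1 ∨ s = -1) (B : ℕ) : ∃ C : ℝ, 1 ≤ C ∧ ∀ L : ℕ, 1 ≤ L → ∀ z : ℝ, 0 < z →
    C * L ≤ Real.log z → ∀ F : Finset ℤ, (∀ b ∈ F, z ≤ (b : ℝ) ∧ (b : ℝ) < 2 * z) → (∀ b ∈ F, b ∉ Go s z (L + 50)) →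
      (F.card : ℝ) ≤ C * z / L ^ B := by
  classical
  have hodd : Odd s := by rcases hs with rfl | rfl <;> decide
  have hd2 : s % 2 = 1 := Int.odd_iff.1 hodd
  have hd3 : IsCoprime s 3 := ⟨s, 0, by rw [sign_mul hs]; ring⟩
  have hd1 : -1 ≤ s := by rcases hs with rfl | rfl <;> norm_num
  obtain ⟨C₁, hC₁, hLo⟩ := Lo_count hs
  obtain ⟨z₁, hz₁, hGo⟩ := notGo hd2 hd1
  obtain ⟨z₂, C₂, hz₂, hC₂, hbad⟩ := bad_count hodd hd3 B
  set ε : ℝ := 0.03 / (B + 1) with hε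
  have hε0 : 0 < ε := by positivity
  set C₃ : ℝ := C₁ / ε ^ B + C₂ + 1600 * (B.factorial * 200 ^ B) with hC₃
  refine ⟨max (max 100 C₃) (max (Real.log z₁) (Real.log z₂)), ?_, ?_⟩
  · exact le_trans (by norm_num) ((le_max_left (100 : ℝ) C₃).trans (le_max_left _ _))
  intro L hL z hz hlz F hF hFG
  set C := max (max 100 C₃) (max (Real.log z₁) (Real.log z₂)) with hC
  have hC100 : (100 : ℝ) ≤ C := (le_max_left (100 : ℝ) C₃).trans (le_max_left _ _)
  have hCC : C₃ ≤ C := (le_max_right (100 : ℝ) C₃).trans (le_max_left _ _)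
  have hCz₁ : Real.log z₁ ≤ C := (le_max_left _ _).trans (le_max_right _ _)
  have hCz₂ : Real.log z₂ ≤ C := (le_max_right _ _).trans (le_max_right _ _)
  have hL1 : (1 : ℝ) ≤ L := by exact_mod_cast hL
  have hL0 : (0 : ℝ) < L := by linarith
  have hCL : C ≤ C * L := le_mul_of_one_le_right (by linarith) hL1
  have hlogL : 100 * (L : ℝ) ≤ Real.log z := (mul_le_mul_of_nonneg_right hC100 hL0.le).trans hlz
  have hzz₁ : z₁ ≤ z := by
    rw [← Real.log_le_log_iff (by linarith) hz]; linarith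
  have hzz₂ : z₂ ≤ z := by
    rw [← Real.log_le_log_iff (by linarith) hz]; linarith
  have hz1 : 1 ≤ z := by linarith
  have hκ : L + 50 ≤ Nat.log 2 ⌊z⌋₊ := by
    apply Nat.le_log_of_pow_le (by norm_num)
    apply Nat.le_floor
    push_cast
    apply pow_le_of_log hz (by norm_num) (x := 100 * (L : ℝ)) _ hlogL
    have h1 := Real.log_two_lt_d9
    have h2 : 0 ≤ Real.log 2 := Real.log_nonneg (by norm_num)
    have h3 : ((L + 50 : ℕ) : ℝ) ≤ 51 * L := by push_cast; linarith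
    have h4 : ((L + 50 : ℕ) : ℝ) * Real.log 2 ≤ 51 * L * 1 := mul_le_mul h3 (by linarith) h2 (by positivity)
    linarith
  have hsub : F ⊆ F.filter (fun b => b ∈ Lo s (z ^ (1 / 100 : ℝ))) ∪
      (Wn z).filter (fun b => b ∈ Bad s z (1 / 20) (L + 50)) := by
    intro b hb
    rw [mem_union, mem_filter, mem_filter, mem_Wn]
    by_contra hcon
    push Not at hcon
    apply hFG b hb
    exact hGo z hzz₁ (L + 50) (by omega) hκ b ⟨hF b hb, hcon.1 hb⟩ (hcon.2 (hF b hb))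
  have h1 : (F.card : ℝ) ≤ ((F.filter (fun b => b ∈ Lo s (z ^ (1 / 100 : ℝ)))).card : ℝ)
      + ct (Bad s z (1 / 20) (L + 50)) z := by
    have h2 := (card_le_card hsub).trans (card_union_le _ _)
    unfold ct
    exact_mod_cast h2
  have h2 := hLo z hz1 (F.filter (fun b => b ∈ Lo s (z ^ (1 / 100 : ℝ)))) (by
    intro b hb
    rw [mem_filter] at hb
    refine ⟨hb.2, ?_⟩
    rw [abs_of_nonneg (by linarith [(hF b hb.1).1])]
    exact (hF b hb.1).2.le)
  have h3 := hbad z hzz₂ (1 / 20) (by norm_num) le_rfl (L + 50) z le_rfl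
  have hlz0 : 0 < Real.log z := by linarith
  have hLB : (0 : ℝ) < (L : ℝ) ^ B := by positivity
  -- first term
  have t1 : C₁ * z ^ (0.97 : ℝ) ≤ C₁ / ε ^ B * z / L ^ B := by
    have h4 : Real.log z ≤ z ^ ε / ε := Real.log_le_rpow_div hz.le hε0
    have h5 : (L : ℝ) ^ B ≤ (z ^ ε / ε) ^ B := pow_le_pow_left₀ hL0.le (by linarith) _
    have h6 : (z ^ ε) ^ B ≤ z ^ (0.03 : ℝ) := by
      rw [← Real.rpow_natCast, ← Real.rpow_mul hz.le]
      apply Real.rpow_le_rpow_of_exponent_le hz1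
      rw [hε, div_mul_eq_mul_div, div_le_iff₀ (by positivity)]
      have : (0 : ℝ) ≤ B := Nat.cast_nonneg _
      linarith
    have h7 : (L : ℝ) ^ B ≤ z ^ (0.03 : ℝ) / ε ^ B := by
      rw [div_pow] at h5
      exact h5.trans (div_le_div_of_nonneg_right h6 (by positivity))
    rw [le_div_iff₀ hLB]
    calc C₁ * z ^ (0.97 : ℝ) * L ^ B ≤ C₁ * z ^ (0.97 : ℝ) * (z ^ (0.03 : ℝ) / ε ^ B) :=
          mul_le_mul_of_nonneg_left h7 (by positivity)
      _ = C₁ / ε ^ B * (z ^ (0.97 : ℝ) * z ^ (0.03 : ℝ)) := by ring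
      _ = C₁ / ε ^ B * z := by rw [← Real.rpow_add hz]; norm_num
  have t2 : z * (C₂ / (Real.log z) ^ B) ≤ C₂ * z / L ^ B := by
    rw [mul_div_assoc', mul_comm z]
    apply div_le_div_of_nonneg_left (by positivity) hLB
    exact pow_le_pow_left₀ hL0.le (by linarith) _
  have t3 : z * (4 / (1 / 20 : ℝ) ^ 2 * Real.exp (-(2 * (1 / 20 : ℝ) ^ 2 * ((L + 50 : ℕ) : ℝ))))
      ≤ 1600 * (B.factorial * 200 ^ B) * z / L ^ B := by
    have h4 : Real.exp (-(2 * (1 / 20 : ℝ) ^ 2 * ((L + 50 : ℕ) : ℝ))) ≤ Real.exp (-((L : ℝ) / 200)) := by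
      apply Real.exp_le_exp.2
      push_cast
      linarith
    have h5 : Real.exp (-((L : ℝ) / 200)) ≤ B.factorial * 200 ^ B / L ^ B := by
      rw [le_div_iff₀ hLB, Real.exp_neg, inv_mul_le_iff₀ (Real.exp_pos _)]
      have h6 := Real.pow_div_factorial_le_exp ((L : ℝ) / 200) (by positivity) B
      rw [div_le_iff₀ (by positivity), div_pow, div_le_iff₀ (by positivity)] at h6
      linarith
    have h6 := h4.trans h5
    calc z * (4 / (1 / 20 : ℝ) ^ 2 * Real.exp (-(2 * (1 / 20 : ℝ) ^ 2 * ((L + 50 : ℕ) : ℝ))))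
        ≤ z * (4 / (1 / 20 : ℝ) ^ 2 * (B.factorial * 200 ^ B / L ^ B)) := by
          apply mul_le_mul_of_nonneg_left _ hz.le
          exact mul_le_mul_of_nonneg_left h6 (by norm_num)
      _ = _ := by ring
  have hfin : C₁ / ε ^ B * z / L ^ B + C₂ * z / L ^ B + 1600 * (B.factorial * 200 ^ B) * z / L ^ B
      = C₃ * z / L ^ B := by rw [hC₃]; ring
  have h8 : C₃ * z / L ^ B ≤ C * z / L ^ B :=
    div_le_div_of_nonneg_right (mul_le_mul_of_nonneg_right hCC hz.le) hLB.le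
  rw [mul_add] at h3
  linarith

/-- densities of predecessor sets -/
theorem main_dens {s : ℤ} (hs : s = 1 ∨ s = -1) (B : ℕ) : ∃ C : ℝ, 1 ≤ C ∧ ∀ L : ℕ, 1 ≤ L → ∀ z : ℝ, 0 < z →
    C * (L : ℝ) ^ (6 * B + 9) ≤ Real.log z → ∀ l : ℤ → ℝ, (∀ b : ℤ, 0 < b → Tendsto (Fd (Pre s b)) atTop (𝓝 (l b))) →
    ∀ F : Finset ℤ, (∀ b ∈ F, z ≤ (b : ℝ) ∧ (b : ℝ) < 2 * z) →
      (∀ b ∈ F, 1 / (L : ℝ) ^ B < |b * (3 * l b) - 2 / Real.log (4 / 3) * gg s L b|) →
      (F.card : ℝ) ≤ C * z / L ^ B := by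
  classical
  have hodd : Odd s := by rcases hs with rfl | rfl <;> decide
  have hd3 : IsCoprime s 3 := ⟨s, 0, by rw [sign_mul hs]; ring⟩
  have hda : |(s : ℝ)| ≤ 1 := by rcases hs with rfl | rfl <;> simp
  obtain ⟨C₁, hC₁, h1⟩ := core2 hodd hd3 (sign_mul hs) hda (2 * B + 2) (by omega)
  obtain ⟨C₂, hC₂, h2⟩ := notGo_count hs B
  refine ⟨4 * C₁ + C₂, by linarith, ?_⟩
  intro L hL z hz hlz l hl F hF hdev
  have hL1 : (1 : ℝ) ≤ L := by exact_mod_cast hL
  have hL0 : (0 : ℝ) < L := by linarith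
  have hLB : (0 : ℝ) < (L : ℝ) ^ B := by positivity
  have hpow : (L : ℝ) ^ (3 * (2 * B + 2) + 3) = L ^ (6 * B + 9) := by congr 1; ring
  have hp1 : (1 : ℝ) ≤ L ^ (6 * B + 9) := one_le_pow₀ hL1
  have hlz1 : C₁ * (L : ℝ) ^ (3 * (2 * B + 2) + 3) ≤ Real.log z := by
    rw [hpow]
    refine le_trans ?_ hlz
    exact mul_le_mul_of_nonneg_right (by linarith) (by positivity)
  have hlz2 : C₂ * L ≤ Real.log z := by
    refine le_trans ?_ hlz
    have : (L : ℝ) ≤ L ^ (6 * B + 9) := by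
      calc (L : ℝ) = L ^ 1 := (pow_one _).symm
        _ ≤ L ^ (6 * B + 9) := pow_le_pow_right₀ hL1 (by omega)
    exact mul_le_mul (by linarith) this hL0.le (by linarith)
  have hz1 : 1 ≤ z := by
    have : 0 ≤ Real.log z := le_trans (by positivity) hlz2
    exact (Real.log_nonneg_iff hz).1 this
  set c := 2 / Real.log (4 / 3) with hc
  -- one side
  have side : ∀ σ : ℝ, (σ = 1 ∨ σ = -1) → ∀ E : Finset ℤ, (∀ b ∈ E, b ∈ Go s z (L + 50)) →
      (∀ b ∈ E, 1 / (L : ℝ) ^ B < σ * (b * (3 * l b) - c * gg s L b)) → (E.card : ℝ) ≤ 2 * C₁ * z / L ^ B := by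
    intro σ hσ E hE hEd
    have h3 := h1 L hL z hz hlz1 E hE l (fun b hb => hl b (by
      have : (0 : ℝ) < b := by linarith [(hE b hb).1.1.1]
      exact_mod_cast this))
    have h4 : (E.card : ℝ) * (1 / (2 * z) * (1 / L ^ B)) ≤ σ * ∑ b ∈ E, (3 * l b - c * (gg s L b / b)) := by
      rw [mul_sum, ← nsmul_eq_mul, ← sum_const]
      apply sum_le_sum
      intro b hb
      have hbz : z ≤ (b : ℝ) := (hE b hb).1.1.1
      have hb2 : (b : ℝ) < 2 * z := (hE b hb).1.1.2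
      have hb0 : (0 : ℝ) < b := by linarith
      have h5 := (hEd b hb).le
      have e : σ * (3 * l b - c * (gg s L b / b)) = 1 / b * (σ * (b * (3 * l b) - c * gg s L b)) := by
        field_simp
      rw [e]
      exact mul_le_mul (one_div_le_one_div_of_le hb0 hb2.le) h5 (by positivity) (by positivity)
    have h5 : σ * ∑ b ∈ E, (3 * l b - c * (gg s L b / b)) ≤ C₁ / L ^ (2 * B + 2) := by
      refine le_trans (le_abs_self _) ?_
      rw [abs_mul]
      have : |σ| = 1 := by rcases hσ with rfl | rfl <;> simp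
      rw [this, one_mul]
      exact h3
    have h6 : C₁ / (L : ℝ) ^ (2 * B + 2) ≤ C₁ / (L ^ B * L ^ B) := by
      apply div_le_div_of_nonneg_left (by linarith) (by positivity)
      rw [← pow_add]
      exact pow_le_pow_right₀ hL1 (by omega)
    have h7 := h4.trans (h5.trans h6)
    rw [le_div_iff₀ hLB]
    rw [le_div_iff₀ (by positivity)] at h7
    have e : (E.card : ℝ) * (1 / (2 * z) * (1 / L ^ B)) * (L ^ B * L ^ B) = (E.card : ℝ) * L ^ B / (2 * z) := by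
      field_simp
    rw [e, div_le_iff₀ (by positivity)] at h7
    linarith
  have hsub : F ⊆ F.filter (fun b => b ∉ Go s z (L + 50)) ∪
      (F.filter (fun b => b ∈ Go s z (L + 50) ∧ 1 / (L : ℝ) ^ B < 1 * (b * (3 * l b) - c * gg s L b)) ∪
       F.filter (fun b => b ∈ Go s z (L + 50) ∧ 1 / (L : ℝ) ^ B < (-1) * (b * (3 * l b) - c * gg s L b))) := by
    intro b hb
    rw [mem_union, mem_union, mem_filter, mem_filter, mem_filter]
    by_cases hG : b ∈ Go s z (L + 50)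
    · right
      have h3 := hdev b hb
      rcases lt_abs.1 h3 with h4 | h4
      · exact Or.inl ⟨hb, hG, by linarith⟩
      · exact Or.inr ⟨hb, hG, by linarith⟩
    · exact Or.inl ⟨hb, hG⟩
  have hcard : (F.card : ℝ) ≤ ((F.filter (fun b => b ∉ Go s z (L + 50))).card : ℝ) +
      (((F.filter (fun b => b ∈ Go s z (L + 50) ∧ 1 / (L : ℝ) ^ B < 1 * (b * (3 * l b) - c * gg s L b))).card : ℝ) +
       ((F.filter (fun b => b ∈ Go s z (L + 50) ∧ 1 / (L : ℝ) ^ B < (-1) * (b * (3 * l b) - c * gg s L b))).card : ℝ)) := by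
    have h3 := (card_le_card hsub).trans ((card_union_le _ _).trans (Nat.add_le_add_left (card_union_le _ _) _))
    exact_mod_cast h3
  have k1 := h2 L hL z hz hlz2 (F.filter (fun b => b ∉ Go s z (L + 50)))
    (fun b hb => hF b (mem_filter.1 hb).1) (fun b hb => (mem_filter.1 hb).2)
  have k2 := side 1 (Or.inl rfl) (F.filter (fun b => b ∈ Go s z (L + 50) ∧
      1 / (L : ℝ) ^ B < 1 * (b * (3 * l b) - c * gg s L b))) (fun b hb => (mem_filter.1 hb).2.1)
    (fun b hb => (mem_filter.1 hb).2.2)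
  have k3 := side (-1) (Or.inr rfl) (F.filter (fun b => b ∈ Go s z (L + 50) ∧
      1 / (L : ℝ) ^ B < (-1) * (b * (3 * l b) - c * gg s L b))) (fun b hb => (mem_filter.1 hb).2.1)
    (fun b hb => (mem_filter.1 hb).2.2)
  have e : (4 * C₁ + C₂) * z / (L : ℝ) ^ B = C₂ * z / L ^ B + (2 * C₁ * z / L ^ B + 2 * C₁ * z / L ^ B) := by ring
  rw [e]
  linarith

end Pool.Agent.R344.FP
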