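import Pool.Agent.R344.FP.S

/-! Densities of predecessor sets, part U: the 3-adic density and the limit law. -/

set_option autoImplicit false

namespace Pool.Agent.R344.FP

open Finset MeasureTheory Filter Topology
open Pool.Agent.H320R2.PD Pool.Agent.H499R2.ND
open Pool.Agent.H499R2.CO (Tz)
open Pool.Agent.R344.SP Pool.Agent.R344.TH

theorem gg_one_sign {s : ℤ} (hs : s = 1 ∨ s = -1) : ∀ (L : ℕ) (b : ℤ), gg s L b = gg 1 L (s * b)
  | 0, b => rfl
  | L + 1, b => by
    have ih := gg_one_sign hs L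
    have hss := sign_mul hs
    unfold gg
    congr 1
    apply tsum_congr
    intro e
    have h0 : 2 ^ (e + 1) * (s * b) - 1 = s * (2 ^ (e + 1) * b - s) := by
      have : s * (2 ^ (e + 1) * b - s) = 2 ^ (e + 1) * (s * b) - s * s := by ring
      rw [this, hss]
    rw [h0]
    have h1 : (3 : ℤ) ∣ s * (2 ^ (e + 1) * b - s) ↔ (3 : ℤ) ∣ 2 ^ (e + 1) * b - s := by
      constructor
      · intro h
        have := h.mul_left s
        rwa [← mul_assoc, hss, one_mul] at this
      · exact fun h => h.mul_left s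
    by_cases h : (3 : ℤ) ∣ 2 ^ (e + 1) * b - s
    · rw [if_pos h, if_pos (h1.2 h), ih, Int.mul_ediv_assoc s h]
    · rw [if_neg h, if_neg (fun h' => h (h1.1 h'))]

theorem gg_periodic (d : ℤ) : ∀ (L : ℕ) (b c : ℤ), (3 : ℤ) ^ L ∣ b - c → gg d L b = gg d L c
  | 0, b, c, _ => rfl
  | L + 1, b, c, h => by
    have ih := gg_periodic d L
    unfold gg
    congr 1
    apply tsum_congr
    intro e
    have h3 : (3 : ℤ) ∣ b - c := (dvd_pow_self 3 (Nat.succ_ne_zero L)).trans h
    have e0 : 2 ^ (e + 1) * b - d = 2 ^ (e + 1) * c - d + 2 ^ (e + 1) * (b - c) := by ring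
    have h1 : (3 : ℤ) ∣ 2 ^ (e + 1) * b - d ↔ (3 : ℤ) ∣ 2 ^ (e + 1) * c - d := by
      rw [e0]
      exact dvd_add_left (h3.mul_left _)
    by_cases hc : (3 : ℤ) ∣ 2 ^ (e + 1) * c - d
    · rw [if_pos hc, if_pos (h1.2 hc)]
      congr 1
      apply ih
      obtain ⟨Y, hY⟩ := h1.2 hc
      obtain ⟨Z, hZ⟩ := hc
      rw [hY, hZ, Int.mul_ediv_cancel_left _ (by norm_num), Int.mul_ediv_cancel_left _ (by norm_num)]
      have h5 : (3 : ℤ) * (Y - Z) = 2 ^ (e + 1) * (b - c) := by
        rw [mul_sub, ← hY, ← hZ]; ring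
      have h6 : (3 : ℤ) * 3 ^ L ∣ 3 * (Y - Z) := by
        rw [h5, ← pow_succ']
        exact h.mul_left _
      exact (mul_dvd_mul_iff_left (by norm_num)).1 h6
    · rw [if_neg hc, if_neg (fun h' => hc (h1.1 h'))]

/-- multiplication by a unit permutes the residues -/
theorem sum_unit {q : ℕ} (hq : 0 < q) {h : ℤ → ℝ} (hh : ∀ a b : ℤ, (q : ℤ) ∣ a - b → h a = h b) {u : ℤ}
    (hu : IsCoprime (q : ℤ) u) : ∑ c ∈ range q, h (u * c) = ∑ c ∈ range q, h c := by
  classical
  have hq' : (0 : ℤ) < q := by exact_mod_cast hq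
  set φ : ℕ → ℕ := fun c => ((u * c) % q).toNat with hφ
  have hφ' : ∀ c, ((φ c : ℕ) : ℤ) = (u * c) % q := fun c =>
    Int.toNat_of_nonneg (Int.emod_nonneg _ hq'.ne')
  have hmem : ∀ c, φ c ∈ range q := by
    intro c
    rw [mem_range]
    have h1 := Int.emod_lt_of_pos (u * c) hq'
    rw [← hφ' c] at h1
    exact_mod_cast h1
  have hinj : Set.InjOn φ (range q : Finset ℕ) := by
    intro a ha b hb hab
    rw [mem_coe, mem_range] at ha hb
    have h1 : (u * a) % q = (u * b) % q := by rw [← hφ', ← hφ', hab]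
    have h2 : (q : ℤ) ∣ u * a - u * b := Int.ModEq.dvd (Int.ModEq.symm h1)
    rw [← mul_sub] at h2
    have h3 : (q : ℤ) ∣ (a : ℤ) - b := hu.dvd_of_dvd_mul_left h2
    have h4 : |(a : ℤ) - b| < q := by rw [abs_lt]; constructor <;> omega
    have := Int.eq_zero_of_abs_lt_dvd h3 h4
    omega
  have himg : (range q).image φ = range q := by
    apply eq_of_subset_of_card_le
    · intro x hx
      rw [mem_image] at hx
      obtain ⟨c, _, rfl⟩ := hx
      exact hmem c
    · rw [card_image_of_injOn hinj]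
  calc ∑ c ∈ range q, h (u * c) = ∑ c ∈ range q, h (φ c) := by
        apply sum_congr rfl
        intro c _
        apply hh
        rw [hφ']
        exact Int.dvd_self_sub_emod
    _ = ∑ c ∈ (range q).image φ, h c := by
        rw [sum_image hinj]
    _ = _ := by rw [himg]

theorem sum_three (f : ℕ → ℝ) : ∀ n : ℕ, ∑ c ∈ range (3 * n), f c
    = ∑ y ∈ range n, (f (3 * y) + f (3 * y + 1) + f (3 * y + 2))
  | 0 => by simp
  | n + 1 => by
    rw [show 3 * (n + 1) = 3 * n + 1 + 1 + 1 by ring, sum_range_succ, sum_range_succ, sum_range_succ,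
      sum_range_succ, sum_three f n]
    ring

/-- the 3-adic density has mean one -/
theorem gg_mean : ∀ L : ℕ, ∑ c ∈ range (3 ^ L), gg 1 L (c : ℤ) = 3 ^ L
  | 0 => by simp [gg]
  | L + 1 => by
    have ih := gg_mean L
    have hsm : ∀ b : ℤ, Summable (fun e : ℕ => if (3 : ℤ) ∣ 2 ^ (e + 1) * b - 1 then
        (1 / 2 : ℝ) ^ (e + 1) * gg 1 L ((2 ^ (e + 1) * b - 1) / 3) else 0) := by
      intro b
      have hsg : Summable (fun e : ℕ => (1 / 2 : ℝ) ^ (e + 1) * 3 ^ L) := by
        have h1 : Summable (fun e : ℕ => (1 / 2 : ℝ) ^ e) := summable_geometric_two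
        have h2 := (summable_nat_add_iff 1).2 h1
        exact h2.mul_right _
      refine Summable.of_nonneg_of_le ?_ ?_ hsg
      · intro e
        split_ifs
        · exact mul_nonneg (by positivity) (gg_nonneg _ _ _)
        · exact le_rfl
      · intro e
        split_ifs
        · exact mul_le_mul_of_nonneg_left (gg_bounds 1 L _).2.1 (by positivity)
        · positivity
    have h1 : ∑ c ∈ range (3 ^ (L + 1)), gg 1 (L + 1) (c : ℤ)
        = 3 * ∑' e : ℕ, ∑ c ∈ range (3 ^ (L + 1)), (if (3 : ℤ) ∣ 2 ^ (e + 1) * (c : ℤ) - 1 then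
          (1 / 2 : ℝ) ^ (e + 1) * gg 1 L ((2 ^ (e + 1) * (c : ℤ) - 1) / 3) else 0) := by
      have hsw := Summable.tsum_finsetSum (s := range (3 ^ (L + 1)))
        (f := fun (c : ℕ) (e : ℕ) => if (3 : ℤ) ∣ 2 ^ (e + 1) * (c : ℤ) - 1 then
          (1 / 2 : ℝ) ^ (e + 1) * gg 1 L ((2 ^ (e + 1) * (c : ℤ) - 1) / 3) else 0) (fun c _ => hsm c)
      rw [hsw, mul_sum]
      apply sum_congr rfl
      intro c _
      rfl
    set H : ℤ → ℝ := fun x => if (3 : ℤ) ∣ x - 1 then gg 1 L ((x - 1) / 3) else 0 with hH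
    have hHper : ∀ a b : ℤ, ((3 ^ (L + 1) : ℕ) : ℤ) ∣ a - b → H a = H b := by
      intro a b hab
      push_cast at hab
      have h3 : (3 : ℤ) ∣ a - b := (dvd_pow_self 3 (Nat.succ_ne_zero L)).trans hab
      simp only [hH]
      by_cases hb : (3 : ℤ) ∣ b - 1
      · have ha : (3 : ℤ) ∣ a - 1 := by
          have := dvd_add h3 hb
          rwa [sub_add_sub_cancel] at this
        rw [if_pos ha, if_pos hb]
        apply gg_periodic
        obtain ⟨Y, hY⟩ := ha
        obtain ⟨Z, hZ⟩ := hb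
        rw [hY, hZ, Int.mul_ediv_cancel_left _ (by norm_num), Int.mul_ediv_cancel_left _ (by norm_num)]
        have h5 : (3 : ℤ) * (Y - Z) = a - b := by rw [mul_sub, ← hY, ← hZ]; ring
        have h6 : (3 : ℤ) * 3 ^ L ∣ 3 * (Y - Z) := by rw [h5, ← pow_succ']; exact hab
        exact (mul_dvd_mul_iff_left (by norm_num)).1 h6
      · have ha : ¬ (3 : ℤ) ∣ a - 1 := by
          intro ha
          apply hb
          have := dvd_sub ha h3
          rwa [show a - 1 - (a - b) = b - 1 by ring] at this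
        rw [if_neg ha, if_neg hb]
    have h2 : ∀ e : ℕ, ∑ c ∈ range (3 ^ (L + 1)), (if (3 : ℤ) ∣ 2 ^ (e + 1) * (c : ℤ) - 1 then
          (1 / 2 : ℝ) ^ (e + 1) * gg 1 L ((2 ^ (e + 1) * (c : ℤ) - 1) / 3) else 0) = (1 / 2 : ℝ) ^ (e + 1) * 3 ^ L := by
      intro e
      have e1 : ∑ c ∈ range (3 ^ (L + 1)), (if (3 : ℤ) ∣ 2 ^ (e + 1) * (c : ℤ) - 1 then
          (1 / 2 : ℝ) ^ (e + 1) * gg 1 L ((2 ^ (e + 1) * (c : ℤ) - 1) / 3) else 0)
          = (1 / 2 : ℝ) ^ (e + 1) * ∑ c ∈ range (3 ^ (L + 1)), H (2 ^ (e + 1) * (c : ℤ)) := by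
        rw [mul_sum]
        apply sum_congr rfl
        intro c _
        simp only [hH]
        split_ifs <;> simp
      have hcop : IsCoprime (((3 ^ (L + 1) : ℕ) : ℤ)) ((2 : ℤ) ^ (e + 1)) := by
        push_cast
        exact (IsCoprime.pow_right (cop_two_pow (e + 1))).symm
      rw [e1, sum_unit (by positivity) hHper hcop]
      congr 1
      rw [pow_succ', sum_three (fun c : ℕ => H (c : ℤ)), ← ih]
      apply sum_congr rfl
      intro y _
      have a1 : H ((3 * y : ℕ) : ℤ) = 0 := by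
        simp only [hH]; rw [if_neg]; push_cast; omega
      have a2 : H ((3 * y + 1 : ℕ) : ℤ) = gg 1 L (y : ℤ) := by
        simp only [hH]
        push_cast
        rw [if_pos (by rw [add_sub_cancel_right]; exact Dvd.intro _ rfl), add_sub_cancel_right,
          Int.mul_ediv_cancel_left _ (by norm_num)]
      have a3 : H ((3 * y + 2 : ℕ) : ℤ) = 0 := by
        simp only [hH]; rw [if_neg]; push_cast; omega
      rw [a1, a2, a3]; ring
    rw [h1, tsum_congr h2, tsum_mul_right]
    have htg : ∑' e : ℕ, (1 / 2 : ℝ) ^ (e + 1) = 1 := by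
      have h1 : ∑' e : ℕ, (1 / 2 : ℝ) ^ (e + 1) = ∑' e : ℕ, (1 / 2 : ℝ) ^ e * (1 / 2) := by
        congr 1
      rw [h1, tsum_mul_right, tsum_geometric_two]; norm_num
    rw [htg, pow_succ]; ring

/-- averages of periodic functions over `[N,2N)` -/
theorem avg_periodic {q : ℕ} (hq : 0 < q) {h : ℕ → ℝ} {M : ℝ} (hM : ∀ n, |h n| ≤ M)
    (hper : ∀ n, h (n + q) = h n) (N : ℕ) :
    |∑ n ∈ Ico N (2 * N), h n - N * ((∑ c ∈ range q, h c) / q)| ≤ 4 * M * q := by
  have hqR : (0 : ℝ) < q := by exact_mod_cast hq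
  have hM0 : 0 ≤ M := (abs_nonneg _).trans (hM 0)
  set m := (∑ c ∈ range q, h c) / q with hm
  have hmM : |m| ≤ M := by
    rw [hm, abs_div, abs_of_pos hqR, div_le_iff₀ hqR]
    refine (abs_sum_le_sum_abs _ _).trans ((sum_le_sum fun c _ => hM c).trans (le_of_eq ?_))
    rw [sum_const, nsmul_eq_mul, card_range]; ring
  have hper' : ∀ a n, h (n + q * a) = h n := by
    intro a
    induction a with
    | zero => intro n; simp
    | succ a ih => intro n; rw [Nat.mul_succ, ← add_assoc, hper, ih]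
  have hblock : ∀ a : ℕ, ∑ n ∈ range (q * a), h n = (q * a : ℕ) * m := by
    intro a
    induction a with
    | zero => simp
    | succ a ih =>
      rw [Nat.mul_succ, sum_range_add, ih]
      have h1 : ∑ x ∈ range q, h (q * a + x) = q * m := by
        have h2 : ∑ x ∈ range q, h (q * a + x) = ∑ c ∈ range q, h c := by
          apply sum_congr rfl
          intro x _
          rw [add_comm, hper']
        rw [h2, hm]
        field_simp
      rw [h1]; push_cast; ring
  have hS : ∀ N : ℕ, |∑ n ∈ range N, h n - N * m| ≤ 2 * M * q := by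
    intro N
    have hN : N = q * (N / q) + N % q := (Nat.div_add_mod N q).symm
    have hr : N % q < q := Nat.mod_lt N hq
    have h1 : ∑ n ∈ range N, h n = (q * (N / q) : ℕ) * m + ∑ x ∈ range (N % q), h (q * (N / q) + x) := by
      conv_lhs => rw [hN]
      rw [sum_range_add, hblock]
    have h2 : ∑ n ∈ range N, h n - N * m = ∑ x ∈ range (N % q), h (q * (N / q) + x) - (N % q : ℕ) * m := by
      rw [h1]
      have : (N : ℝ) = (q * (N / q) : ℕ) + (N % q : ℕ) := by exact_mod_cast hN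
      rw [this]; ring
    rw [h2]
    have hrR : ((N % q : ℕ) : ℝ) ≤ q := by exact_mod_cast hr.le
    have h3 : |∑ x ∈ range (N % q), h (q * (N / q) + x)| ≤ q * M := by
      refine (abs_sum_le_sum_abs _ _).trans ((sum_le_sum fun c _ => hM _).trans ?_)
      rw [sum_const, nsmul_eq_mul, card_range]
      exact mul_le_mul_of_nonneg_right hrR hM0
    have h4 : |((N % q : ℕ) : ℝ) * m| ≤ q * M := by
      rw [abs_mul, abs_of_nonneg (Nat.cast_nonneg _)]
      exact mul_le_mul hrR hmM (abs_nonneg _) hqR.le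
    refine (abs_sub _ _).trans ?_
    linarith
  have h1 := hS (2 * N)
  have h2 := hS N
  have h3 : ∑ n ∈ Ico N (2 * N), h n = ∑ n ∈ range (2 * N), h n - ∑ n ∈ range N, h n := by
    rw [Finset.sum_Ico_eq_sub _ (by omega)]
  have h4 : ∑ n ∈ Ico N (2 * N), h n - N * m
      = (∑ n ∈ range (2 * N), h n - (2 * N : ℕ) * m) - (∑ n ∈ range N, h n - N * m) := by
    rw [h3]; push_cast; ring
  rw [h4]
  refine (abs_sub _ _).trans ?_
  linarith

end Pool.Agent.R344.FP
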