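import Pool.Agent.R344.FP.U

/-! Densities of predecessor sets, part V: the limit law and the final theorem. -/

set_option autoImplicit false

namespace Pool.Agent.R344.FP

open Finset MeasureTheory Filter Topology
open Pool.Agent.H320R2.PD Pool.Agent.H499R2.ND
open Pool.Agent.H499R2.CO (Tz)
open Pool.Agent.R344.SP Pool.Agent.R344.TH

theorem limit_law {as : ℤ → ℕ → ℝ} {c C : ℝ} (hC : 0 < C) (E : ℕ)
    (hA : ∀ s : ℤ, (s = 1 ∨ s = -1) → ∀ L : ℕ, 1 ≤ L → ∀ z : ℕ, 1 ≤ z → C * (L : ℝ) ^ E ≤ Real.log z →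
      (((Ico z (2 * z)).filter (fun b : ℕ => 1 / (L : ℝ) < |as s b - c * gg 1 L (s * b)|)).card : ℝ) ≤ C * z / L)
    {f : ℝ → ℝ} {M K : ℝ} (hM : ∀ x, |f x| ≤ M) (hK : ∀ x y, |f x - f y| ≤ K * |x - y|) :
    ∃ ℓ : ℝ, Tendsto (fun L : ℕ => (∑ r ∈ range (3 ^ L), f (c * gg 1 L (r : ℤ))) / 3 ^ L) atTop (𝓝 ℓ) ∧
      ∀ s : ℤ, (s = 1 ∨ s = -1) → Tendsto (fun N : ℕ => (∑ n ∈ Ico N (2 * N), f (as s n)) / N) atTop (𝓝 ℓ) := by
  classical
  have hM0 : 0 ≤ M := (abs_nonneg _).trans (hM 0)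
  have hK0 : 0 ≤ K := by
    have := hK 0 1
    simp only [zero_sub, abs_neg, abs_one, mul_one] at this
    exact (abs_nonneg _).trans this
  set m : ℕ → ℝ := fun L => (∑ r ∈ range (3 ^ L), f (c * gg 1 L (r : ℤ))) / 3 ^ L with hm
  set D : ℝ := 2 * M * C + K + 1 with hD
  have hD0 : 0 < D := by positivity
  have key : ∀ s : ℤ, (s = 1 ∨ s = -1) → ∀ L : ℕ, 1 ≤ L → ∀ᶠ N : ℕ in atTop,
      |(∑ n ∈ Ico N (2 * N), f (as s n)) / N - m L| ≤ D / L := by
    intro s hs L hL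
    have hL0 : (0 : ℝ) < L := by exact_mod_cast hL
    have t1 : ∀ᶠ N : ℕ in atTop, C * (L : ℝ) ^ E ≤ Real.log N :=
      (Real.tendsto_log_atTop.comp tendsto_natCast_atTop_atTop).eventually_ge_atTop _
    have t2 : ∀ᶠ N : ℕ in atTop, 4 * M * ((3 ^ L : ℕ) : ℝ) * L ≤ (N : ℝ) :=
      tendsto_natCast_atTop_atTop.eventually_ge_atTop _
    filter_upwards [t1, t2, eventually_ge_atTop 1] with N h1 h2 hN1
    have hN0 : (0 : ℝ) < N := by exact_mod_cast hN1
    have h3 := hA s hs L hL N hN1 h1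
    set h : ℕ → ℝ := fun n => f (c * gg 1 L (s * (n : ℤ))) with hh
    have hper : ∀ n, h (n + 3 ^ L) = h n := by
      intro n
      simp only [hh]
      congr 2
      apply gg_periodic
      push_cast
      exact ⟨s, by ring⟩
    have h4 := avg_periodic (q := 3 ^ L) (by positivity) (h := h) (M := M) (fun n => hM _) hper N
    have h5 : (∑ r ∈ range (3 ^ L), h r) / ((3 ^ L : ℕ) : ℝ) = m L := by
      simp only [hm, hh]
      have := sum_unit (q := 3 ^ L) (by positivity) (h := fun x => f (c * gg 1 L x)) (u := s) (by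
        intro a b hab
        rw [gg_periodic 1 L a b (by exact_mod_cast hab)]) (by
        rcases hs with rfl | rfl
        · exact isCoprime_one_right
        · exact isCoprime_one_right.neg_right)
      rw [this]
      push_cast
      rfl
    rw [h5] at h4
    have h6 : |∑ n ∈ Ico N (2 * N), f (as s n) - ∑ n ∈ Ico N (2 * N), h n| ≤ 2 * M * (C * N / L) + N * (K * (1 / L)) := by
      rw [← sum_sub_distrib]
      refine (abs_sum_le_sum_abs _ _).trans ?_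
      have h7 : ∀ n ∈ Ico N (2 * N), |f (as s n) - h n| ≤
          (if 1 / (L : ℝ) < |as s n - c * gg 1 L (s * n)| then 2 * M else 0) + K * (1 / L) := by
        intro n _
        split_ifs with hc
        · have a1 := hM (as s n)
          have a2 := hM (c * gg 1 L (s * n))
          have a3 := abs_sub (f (as s n)) (h n)
          have a4 : 0 ≤ K * (1 / (L : ℝ)) := by positivity
          simp only [hh] at a3 ⊢
          linarith
        · push Not at hc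
          have a1 := hK (as s n) (c * gg 1 L (s * n))
          have a2 := mul_le_mul_of_nonneg_left hc hK0
          simp only [hh]
          linarith
      refine (sum_le_sum h7).trans ?_
      rw [sum_add_distrib, ← sum_filter, sum_const, sum_const, nsmul_eq_mul, nsmul_eq_mul, Nat.card_Ico]
      have h8 : ((2 * N - N : ℕ) : ℝ) = N := by
        congr 1; omega
      rw [h8, mul_comm _ (2 * M)]
      exact add_le_add (mul_le_mul_of_nonneg_left h3 (by positivity)) le_rfl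
    have h9 : |∑ n ∈ Ico N (2 * N), f (as s n) - N * m L| ≤ N * (D / L) := by
      have h10 : |∑ n ∈ Ico N (2 * N), f (as s n) - N * m L|
          ≤ |∑ n ∈ Ico N (2 * N), f (as s n) - ∑ n ∈ Ico N (2 * N), h n| + |∑ n ∈ Ico N (2 * N), h n - N * m L| := by
        have : ∑ n ∈ Ico N (2 * N), f (as s n) - N * m L = (∑ n ∈ Ico N (2 * N), f (as s n) - ∑ n ∈ Ico N (2 * N), h n)
          + (∑ n ∈ Ico N (2 * N), h n - N * m L) := by ring
        rw [this]
        exact abs_add_le _ _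
      have h11 : 4 * M * ((3 ^ L : ℕ) : ℝ) ≤ N * (1 / L) := by
        rw [mul_one_div, le_div_iff₀ hL0]; exact h2
      have e : N * (D / L) = 2 * M * (C * N / L) + N * (K * (1 / L)) + N * (1 / L) := by rw [hD]; ring
      rw [e]
      linarith
    have h12 : (∑ n ∈ Ico N (2 * N), f (as s n)) / N - m L = (∑ n ∈ Ico N (2 * N), f (as s n) - N * m L) / N := by
      field_simp
    rw [h12, abs_div, abs_of_pos hN0, div_le_iff₀ hN0]
    linarith
  have hcau : ∀ L L' : ℕ, 1 ≤ L → 1 ≤ L' → |m L - m L'| ≤ D / L + D / L' := by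
    intro L L' hL hL'
    obtain ⟨N, h1, h2⟩ := ((key 1 (Or.inl rfl) L hL).and (key 1 (Or.inl rfl) L' hL')).exists
    have : m L - m L' = ((∑ n ∈ Ico N (2 * N), f (as 1 n)) / N - m L') - ((∑ n ∈ Ico N (2 * N), f (as 1 n)) / N - m L) := by
      ring
    rw [this]
    refine (abs_sub _ _).trans ?_
    linarith
  have hCS : CauchySeq m := by
    rw [Metric.cauchySeq_iff]
    intro ε hε
    obtain ⟨n₀, hn₀⟩ := exists_nat_gt (2 * D / ε)
    refine ⟨n₀ + 1, fun a ha b hb => ?_⟩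
    rw [Real.dist_eq]
    have ha1 : 1 ≤ a := by omega
    have hb1 : 1 ≤ b := by omega
    have haR : (n₀ : ℝ) < a := by exact_mod_cast (by omega : n₀ < a)
    have hbR : (n₀ : ℝ) < b := by exact_mod_cast (by omega : n₀ < b)
    have hn0 : 0 < (n₀ : ℝ) := lt_trans (by positivity) hn₀
    have h1 : D / a < ε / 2 := by
      rw [div_lt_div_iff₀ (by linarith) (by norm_num)]
      rw [div_lt_iff₀ hε] at hn₀
      nlinarith
    have h2 : D / b < ε / 2 := by
      rw [div_lt_div_iff₀ (by linarith) (by norm_num)]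
      rw [div_lt_iff₀ hε] at hn₀
      nlinarith
    have := hcau a b ha1 hb1
    linarith
  obtain ⟨ℓ, hℓ⟩ := cauchySeq_tendsto_of_complete hCS
  refine ⟨ℓ, hℓ, ?_⟩
  intro s hs
  have hmℓ : ∀ L : ℕ, 1 ≤ L → |m L - ℓ| ≤ D / L := by
    intro L hL
    have h1 : Tendsto (fun L' : ℕ => |m L - m L'|) atTop (𝓝 |m L - ℓ|) := (tendsto_const_nhds.sub hℓ).abs
    have h2 : Tendsto (fun L' : ℕ => D / L + D / (L' : ℝ)) atTop (𝓝 (D / L + 0)) :=
      tendsto_const_nhds.add (tendsto_const_div_atTop_nhds_zero_nat D)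
    rw [add_zero] at h2
    refine le_of_tendsto_of_tendsto h1 h2 ?_
    filter_upwards [eventually_ge_atTop 1] with L' hL'
    exact hcau L L' hL hL'
  rw [Metric.tendsto_atTop]
  intro ε hε
  obtain ⟨n₀, hn₀⟩ := exists_nat_gt (2 * D / ε)
  have hn0 : 0 < (n₀ : ℝ) := lt_trans (by positivity) hn₀
  have hn1 : 1 ≤ n₀ := by exact_mod_cast hn0
  obtain ⟨N₀, hN₀⟩ := eventually_atTop.1 (key s hs n₀ hn1)
  refine ⟨N₀, fun N hN => ?_⟩
  rw [Real.dist_eq]
  have h1 := hN₀ N hN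
  have h2 := hmℓ n₀ hn1
  have h3 : 2 * (D / n₀) < ε := by
    rw [mul_div_assoc', div_lt_iff₀ hn0]
    rw [div_lt_iff₀ hε] at hn₀
    linarith
  have h4 : (∑ n ∈ Ico N (2 * N), f (as s n)) / N - ℓ = ((∑ n ∈ Ico N (2 * N), f (as s n)) / N - m n₀) + (m n₀ - ℓ) := by
    ring
  rw [h4]
  refine lt_of_le_of_lt (abs_add_le _ _) ?_
  linarith

/-- natural density along the integers of one sign -/
theorem nat_dens {S : Set ℤ} {l : ℝ} (hl : Tendsto (fun X : ℝ => G S X / X) atTop (𝓝 l)) :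
    Tendsto (fun N : ℕ => (Nat.card {n : ℕ // 1 ≤ n ∧ n ≤ N ∧ (n : ℤ) ∈ S} : ℝ) / N) atTop (𝓝 l) := by
  classical
  have h1 : ∀ N : ℕ, (Nat.card {n : ℕ // 1 ≤ n ∧ n ≤ N ∧ (n : ℤ) ∈ S} : ℝ) = G S ((N : ℝ) + 1) := by
    intro N
    unfold G
    congr 1
    rw [← Nat.card_eq_finsetCard]
    refine Nat.card_congr ⟨fun x => ⟨(x.1 : ℤ), ?_⟩, fun y => ⟨y.1.toNat, ?_⟩, ?_, ?_⟩
    · rw [mem_pos]
      refine ⟨⟨by exact_mod_cast x.2.1, ?_⟩, x.2.2.2⟩
      have : ((x.1 : ℕ) : ℝ) ≤ N := by exact_mod_cast x.2.2.1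
      push_cast
      linarith
    · have hy := y.2
      rw [mem_pos] at hy
      obtain ⟨⟨hy1, hy2⟩, hy3⟩ := hy
      have h2 : (y.1 : ℤ) < N + 1 := by exact_mod_cast hy2
      refine ⟨by omega, by omega, ?_⟩
      rw [Int.toNat_of_nonneg (by omega)]; exact hy3
    · intro x
      apply Subtype.ext
      simp
    · intro y
      apply Subtype.ext
      have hy := y.2
      rw [mem_pos] at hy
      simp only
      exact Int.toNat_of_nonneg (by omega)
  have h2 : Tendsto (fun N : ℕ => G S ((N : ℝ) + 1) / ((N : ℝ) + 1)) atTop (𝓝 l) :=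
    hl.comp (tendsto_natCast_atTop_atTop.atTop_add tendsto_const_nhds)
  have h3 : Tendsto (fun N : ℕ => ((N : ℝ) + 1) / N) atTop (𝓝 1) := by
    have h4 : Tendsto (fun N : ℕ => 1 + 1 / (N : ℝ)) atTop (𝓝 (1 + 0)) :=
      tendsto_const_nhds.add tendsto_one_div_atTop_nhds_zero_nat
    rw [add_zero] at h4
    refine h4.congr' ?_
    filter_upwards [eventually_ge_atTop 1] with N hN
    have : (0 : ℝ) < N := by exact_mod_cast hN
    field_simp
  have h4 := h2.mul h3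
  rw [mul_one] at h4
  refine h4.congr' ?_
  filter_upwards [eventually_ge_atTop 1] with N hN
  have : (0 : ℝ) < N := by exact_mod_cast hN
  rw [h1]
  field_simp

theorem s_cases {s : ℤ} (hs : s = 1 ∨ s = -1) : Odd s ∧ IsCoprime s 3 ∧ |(s : ℝ)| ≤ 1 := by
  refine ⟨?_, ⟨s, 0, by rw [sign_mul hs]; ring⟩, ?_⟩
  · rcases hs with rfl | rfl <;> decide
  · rcases hs with rfl | rfl <;> simp

/-- the final theorem, for any model of the map -/
theorem final {T : ℤ → ℤ} (hT : ∀ x, T x = if x % 2 = 0 then x / 2 else (3 * x + 1) / 2) {g : ℕ → ℤ → ℝ}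
    (hg : ∀ L b, g L b = gg 1 L b) : ∃ δ : ℤ → ℝ,
    (∀ s : ℤ, (s = 1 ∨ s = -1) → ∀ b : ℕ, 1 ≤ b →
      Tendsto (fun N : ℕ => (Nat.card {n : ℕ // 1 ≤ n ∧ n ≤ N ∧ ∃ k : ℕ, T^[k] (s * n) = s * b} : ℝ) / N) atTop
        (𝓝 (δ (s * b)))) ∧
    (∀ B : ℕ, ∃ C : ℝ, 0 < C ∧ ∀ s : ℤ, (s = 1 ∨ s = -1) → ∀ L : ℕ, 1 ≤ L → ∀ z : ℕ, 1 ≤ z →
      C * (L : ℝ) ^ (6 * B + 9) ≤ Real.log z →
      (((Ico z (2 * z)).filter (fun b : ℕ => 1 / (L : ℝ) ^ B <
        |b * δ (s * b) - 2 / Real.log (4 / 3) * g L (s * b)|)).card : ℝ) ≤ C * z / L ^ B) ∧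
    (∀ f : ℝ → ℝ, (∃ M, ∀ x, |f x| ≤ M) → (∃ K, ∀ x y, |f x - f y| ≤ K * |x - y|) → ∃ ℓ : ℝ,
      Tendsto (fun L : ℕ => (∑ r ∈ range (3 ^ L), f (2 / Real.log (4 / 3) * g L (r : ℤ))) / 3 ^ L) atTop (𝓝 ℓ) ∧
      ∀ s : ℤ, (s = 1 ∨ s = -1) → Tendsto (fun N : ℕ => (∑ n ∈ Ico N (2 * N), f (n * δ (s * n))) / N) atTop (𝓝 ℓ)) := by
  classical
  have hTT : T = Pool.Agent.H319R2.T := by
    funext x; rw [hT]; rfl
  have hgg : g = gg 1 := by funext L b; exact hg L b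
  subst hTT hgg
  -- limits
  have hlim : ∀ s : ℤ, (s = 1 ∨ s = -1) → ∀ b : ℤ, 0 < b → ∃ l : ℝ, Tendsto (Fd (Pre s b)) atTop (𝓝 l) := by
    intro s hs b hb
    obtain ⟨hodd, hd3, hda⟩ := s_cases hs
    obtain ⟨K, _, h⟩ := lim_II hodd hd3
    have hb1 : (1 : ℝ) ≤ b := by exact_mod_cast hb
    obtain ⟨l, hl, _⟩ := h (b + 1) (by linarith) (by linarith) (Pre s b) (Pre_inv (by linarith))
    exact ⟨l, hl⟩
  have hlim' : ∀ s b : ℤ, ∃ l : ℝ, (s = 1 ∨ s = -1) → 0 < b → Tendsto (Fd (Pre s b)) atTop (𝓝 l) := by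
    intro s b
    by_cases h : (s = 1 ∨ s = -1) ∧ 0 < b
    · obtain ⟨l, hl⟩ := hlim s h.1 b h.2
      exact ⟨l, fun _ _ => hl⟩
    · exact ⟨0, fun h1 h2 => absurd ⟨h1, h2⟩ h⟩
  choose l hl using hlim'
  set δ : ℤ → ℝ := fun x => 3 * l (Int.sign x) |x| with hδ
  have hδs : ∀ s : ℤ, (s = 1 ∨ s = -1) → ∀ b : ℕ, 1 ≤ b → δ (s * b) = 3 * l s b := by
    intro s hs b hb
    have hb0 : (0 : ℤ) < b := by exact_mod_cast hb
    simp only [hδ]
    rcases hs with rfl | rfl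
    · rw [one_mul, Int.sign_eq_one_of_pos hb0, abs_of_pos hb0]
    · rw [neg_one_mul, Int.sign_neg, Int.sign_eq_one_of_pos hb0, abs_neg, abs_of_pos hb0]
  have hmain : ∀ B : ℕ, ∃ C : ℝ, 0 < C ∧ ∀ s : ℤ, (s = 1 ∨ s = -1) → ∀ L : ℕ, 1 ≤ L → ∀ z : ℕ, 1 ≤ z →
      C * (L : ℝ) ^ (6 * B + 9) ≤ Real.log z →
      (((Ico z (2 * z)).filter (fun b : ℕ => 1 / (L : ℝ) ^ B <
        |b * δ (s * b) - 2 / Real.log (4 / 3) * gg 1 L (s * b)|)).card : ℝ) ≤ C * z / L ^ B := by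
    intro B
    obtain ⟨C₁, hC₁, h₁⟩ := main_dens (s := 1) (Or.inl rfl) B
    obtain ⟨C₂, hC₂, h₂⟩ := main_dens (s := -1) (Or.inr rfl) B
    refine ⟨C₁ + C₂, by linarith, ?_⟩
    intro s hs L hL z hz hlz
    have hL0 : (0 : ℝ) < L := by exact_mod_cast hL
    have hz0 : (0 : ℝ) < z := by exact_mod_cast hz
    have hboth : ∃ C : ℝ, 1 ≤ C ∧ C ≤ C₁ + C₂ ∧ ∀ L : ℕ, 1 ≤ L → ∀ z : ℝ, 0 < z →
        C * (L : ℝ) ^ (6 * B + 9) ≤ Real.log z → ∀ l : ℤ → ℝ,
        (∀ b : ℤ, 0 < b → Tendsto (Fd (Pre s b)) atTop (𝓝 (l b))) →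
        ∀ F : Finset ℤ, (∀ b ∈ F, z ≤ (b : ℝ) ∧ (b : ℝ) < 2 * z) →
        (∀ b ∈ F, 1 / (L : ℝ) ^ B < |b * (3 * l b) - 2 / Real.log (4 / 3) * gg s L b|) →
        (F.card : ℝ) ≤ C * z / L ^ B := by
      rcases hs with rfl | rfl
      · exact ⟨C₁, hC₁, by linarith, h₁⟩
      · exact ⟨C₂, hC₂, by linarith, h₂⟩
    obtain ⟨C, hC1, hCC, h⟩ := hboth
    have hlz' : C * (L : ℝ) ^ (6 * B + 9) ≤ Real.log z := by
      refine le_trans ?_ hlz
      exact mul_le_mul_of_nonneg_right hCC (by positivity)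
    have hinj : Function.Injective (fun b : ℕ => (b : ℤ)) := fun a b hab => Int.ofNat_inj.1 hab
    have h3 := h L hL z hz0 hlz' (l s) (fun b hb => hl s b hs hb)
      (((Ico z (2 * z)).filter (fun b : ℕ => 1 / (L : ℝ) ^ B <
        |b * δ (s * b) - 2 / Real.log (4 / 3) * gg 1 L (s * b)|)).image (fun b : ℕ => (b : ℤ))) ?_ ?_
    · rw [card_image_of_injective _ hinj] at h3
      refine h3.trans ?_
      apply div_le_div_of_nonneg_right _ (by positivity)
      exact mul_le_mul_of_nonneg_right hCC hz0.le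
    · intro b hb
      rw [mem_image] at hb
      obtain ⟨n, hn, rfl⟩ := hb
      rw [mem_filter, mem_Ico] at hn
      constructor
      · exact_mod_cast hn.1.1
      · exact_mod_cast hn.1.2
    · intro b hb
      rw [mem_image] at hb
      obtain ⟨n, hn, rfl⟩ := hb
      rw [mem_filter, mem_Ico] at hn
      have h4 := hn.2
      rw [hδs s hs n (by omega)] at h4
      rw [gg_one_sign hs]
      exact_mod_cast h4
  refine ⟨δ, ?_, hmain, ?_⟩
  · intro s hs b hb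
    have hb0 : (0 : ℤ) < b := by exact_mod_cast hb
    rw [hδs s hs b hb]
    have h1 := nat_dens (dens_of_Fd (hl s b hs hb0))
    refine h1.congr ?_
    intro N
    congr 2
    apply Nat.card_congr
    apply Equiv.subtypeEquivRight
    intro n
    unfold Pre
    rw [Set.mem_ofPred_eq]
    have hiff : (∃ k : ℕ, (Tz s)^[k] (n : ℤ) = b) ↔ ∃ k : ℕ, Pool.Agent.H319R2.T^[k] (s * n) = s * b := by
      constructor
      · rintro ⟨k, hk⟩
        exact ⟨k, by rw [T_sign_iter hs, hk]⟩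
      · rintro ⟨k, hk⟩
        refine ⟨k, ?_⟩
        rw [T_sign_iter hs] at hk
        have h2 := congrArg (fun t => s * t) hk
        simp only [← mul_assoc, sign_mul hs, one_mul] at h2
        exact h2
    rw [hiff]
  · rintro f ⟨M, hM⟩ ⟨K, hK⟩
    obtain ⟨C, hC, hA⟩ := hmain 1
    obtain ⟨ℓ, h1, h2⟩ := limit_law (as := fun s n => n * δ (s * n)) (c := 2 / Real.log (4 / 3)) hC (6 * 1 + 9)
      (fun s hs L hL z hz hlz => by
        have := hA s hs L hL z hz hlz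
        simpa using this) hM hK
    exact ⟨ℓ, h1, h2⟩

end Pool.Agent.R344.FP
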